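import Pool.Agent.W_MP_25fb88_lc.TSSets

/-!
# The Tarski–Seidenberg theorem
-/

namespace Pool.Agent.W_MP_25fb88_lc

open Set TS

open Polynomial (C X natDegree leadingCoeff coeff derivative)

/-- The ring of coefficients. -/
abbrev RR : Type := MvPolynomial ℕ ℤ

/-- Evaluation of the parameters. -/
noncomputable def ev (m : ℕ → ℝ) : RR →+* ℝ := (MvPolynomial.aeval m : RR →ₐ[ℤ] ℝ).toRingHom

lemma ev_apply (m : ℕ → ℝ) (p : RR) : ev m p = MvPolynomial.aeval m p := rfl

/-- Specialisation. -/
noncomputable def sp (m : ℕ → ℝ) (g : Polynomial RR) : Polynomial ℝ := g.map (ev m)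

lemma sp_coeff (m : ℕ → ℝ) (g : Polynomial RR) (i : ℕ) : (sp m g).coeff i = ev m (g.coeff i) := by
  simp [sp]

/-- The signs at `t` of the polynomials in `F`, specialised at `m`, are given by `σ`. -/
def IF (F : Finset (Polynomial RR)) (m : ℕ → ℝ) (t : ℝ) (σ : Polynomial RR → SignType) : Prop :=
  ∀ g ∈ F, sgn (sp m g) t = σ g

lemma IF.subset {F F' : Finset (Polynomial RR)} (h : F' ⊆ F) {m : ℕ → ℝ} {t : ℝ}
    {σ : Polynomial RR → SignType} (hI : IF F m t σ) : IF F' m t σ := fun g hg => hI g (h hg)

/-- Uniform sign diagrams. -/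
def QE (F : Finset (Polynomial RR)) (Z : Set (ℕ → ℝ)) : Prop :=
  ∃ D : Diag (Polynomial RR → SignType), ∀ m ∈ Z, Realizes (IF F m) (IF F m) ⊥ D

lemma QE.subset (F : Finset (Polynomial RR)) (Y Z : Set (ℕ → ℝ)) (hZ : Z ⊆ Y) (h : QE F Y) :
    QE F Z := by
  obtain ⟨D, hD⟩ := h
  exact ⟨D, fun m hm => hD m (hZ hm)⟩

lemma QE.mono {F F' : Finset (Polynomial RR)} (hF : F' ⊆ F) {Z : Set (ℕ → ℝ)} (h : QE F Z) :
    QE F' Z := by
  obtain ⟨D, hD⟩ := h
  exact ⟨D, fun m hm => (hD m hm).mono (fun t σ hI => hI.subset hF) (fun t σ hI => hI.subset hF)⟩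

/-! ### Pseudo-division -/

lemma pseudo_aux (h : Polynomial RR) (hh : 0 < h.natDegree) (n : ℕ) :
    ∀ f : Polynomial RR, f.natDegree ≤ n →
    ∃ (k : ℕ) (q r : Polynomial RR), C (h.leadingCoeff ^ k) * f = q * h + r ∧
      r.natDegree < h.natDegree := by
  induction n with
  | zero =>
    intro f hf
    exact ⟨0, 0, f, by simp, by omega⟩
  | succ n ih =>
    intro f hf
    by_cases hlt : f.natDegree < h.natDegree
    · exact ⟨0, 0, f, by simp, hlt⟩
    push Not at hlt
    set l := h.leadingCoeff with hl
    set a := f.leadingCoeff with ha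
    set f1 : Polynomial RR := C l * f - C a * X ^ (f.natDegree - h.natDegree) * h with hf1
    have hd1 : (C l * f).natDegree ≤ f.natDegree := Polynomial.natDegree_C_mul_le _ _
    have hd2 : (C a * X ^ (f.natDegree - h.natDegree) * h).natDegree ≤ f.natDegree := by
      refine Polynomial.natDegree_mul_le.trans ?_
      have h3 := Polynomial.natDegree_C_mul_X_pow_le a (f.natDegree - h.natDegree)
      omega
    have hd3 : f1.natDegree ≤ f.natDegree := (Polynomial.natDegree_sub_le _ _).trans (max_le hd1 hd2)
    have hc : f1.coeff f.natDegree = 0 := by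
      rw [hf1, Polynomial.coeff_sub, Polynomial.coeff_C_mul, mul_assoc, Polynomial.coeff_C_mul]
      have h3 : f.natDegree = h.natDegree + (f.natDegree - h.natDegree) := by omega
      have h4 : (X ^ (f.natDegree - h.natDegree) * h).coeff f.natDegree = l := by
        conv_lhs => rw [h3]
        rw [← h3, Polynomial.coeff_X_pow_mul']
        rw [if_pos (by omega)]
        have h5 : f.natDegree - (f.natDegree - h.natDegree) = h.natDegree := by omega
        rw [h5]
        rfl
      rw [h4]
      have h5 : f.coeff f.natDegree = a := rfl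
      rw [h5]
      ring
    have hd4 : f1.natDegree ≤ n := by
      by_contra hcon
      push Not at hcon
      have h3 : f1.natDegree = f.natDegree := by omega
      have h4 : f1.leadingCoeff = 0 := by
        unfold Polynomial.leadingCoeff
        rw [h3]
        exact hc
      rw [Polynomial.leadingCoeff_eq_zero] at h4
      rw [h4] at hcon
      simp at hcon
    obtain ⟨k, q, r, hq, hr⟩ := ih f1 hd4
    refine ⟨k + 1, q + C (l ^ k) * (C a * X ^ (f.natDegree - h.natDegree)), r, ?_, hr⟩
    have h3 : C (l ^ (k + 1)) * f = C (l ^ k) * f1 +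
        C (l ^ k) * (C a * X ^ (f.natDegree - h.natDegree)) * h := by
      rw [hf1, pow_succ, Polynomial.C_mul]
      ring
    rw [h3, hq]
    ring

/-- Pseudo-division with an even power of the leading coefficient. -/
lemma pseudo (f h : Polynomial RR) (hh : 0 < h.natDegree) :
    ∃ r : Polynomial RR, (∃ (k : ℕ) (q : Polynomial RR),
      C (h.leadingCoeff ^ (2 * k)) * f = q * h + r) ∧ r.natDegree < h.natDegree := by
  obtain ⟨k, q, r, hq, hr⟩ := pseudo_aux h hh f.natDegree f le_rfl
  refine ⟨C (h.leadingCoeff ^ k) * r, ⟨k, C (h.leadingCoeff ^ k) * q, ?_⟩,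
    (Polynomial.natDegree_C_mul_le _ _).trans_lt hr⟩
  rw [two_mul, pow_add, Polynomial.C_mul, mul_assoc, hq]
  ring

/-- A pseudo-remainder. -/
noncomputable def prem (f h : Polynomial RR) : Polynomial RR :=
  if hh : 0 < h.natDegree then (pseudo f h hh).choose else 0

lemma prem_natDegree (f h : Polynomial RR) {d : ℕ} (hd : h.natDegree ≤ d + 1) :
    (prem f h).natDegree ≤ d := by
  unfold prem
  split_ifs with hh
  · have := (pseudo f h hh).choose_spec.2
    omega
  · simp

lemma sgn_prem (f h : Polynomial RR) (hh : 0 < h.natDegree) (m : ℕ → ℝ) (t : ℝ)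
    (hl : ev m h.leadingCoeff ≠ 0) (ht : sgn (sp m h) t = 0) :
    sgn (sp m f) t = sgn (sp m (prem f h)) t := by
  obtain ⟨k, q, hq⟩ := (pseudo f h hh).choose_spec.1
  have h1 : prem f h = (pseudo f h hh).choose := by
    unfold prem
    rw [dif_pos hh]
  rw [← h1] at hq
  have h2 := congrArg (fun p => (sp m p).eval t) hq
  rw [sgn_eq_zero] at ht
  simp only [sp, Polynomial.map_mul, Polynomial.map_C, Polynomial.map_add, Polynomial.eval_mul,
    Polynomial.eval_C, Polynomial.eval_add] at h2 ht
  rw [ht, mul_zero, zero_add] at h2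
  unfold sgn sp
  rw [← h2, sign_mul]
  have h3 : 0 < ev m (h.leadingCoeff ^ (2 * k)) := by
    rw [map_pow, pow_mul]
    positivity
  rw [sign_pos h3, one_mul]

/-! ### Truncation -/

/-- Truncation of a polynomial. -/
noncomputable def trunc (g : Polynomial RR) (j : ℕ) : Polynomial RR :=
  ∑ i ∈ Finset.range (j + 1), Polynomial.monomial i (g.coeff i)

lemma trunc_coeff (g : Polynomial RR) (j i : ℕ) :
    (trunc g j).coeff i = if i < j + 1 then g.coeff i else 0 := by
  unfold trunc
  rw [Polynomial.finsetSum_coeff]
  simp [Polynomial.coeff_monomial]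

lemma trunc_natDegree_le (g : Polynomial RR) (j : ℕ) : (trunc g j).natDegree ≤ j := by
  rw [Polynomial.natDegree_le_iff_coeff_eq_zero]
  intro i hi
  rw [trunc_coeff, if_neg (by omega)]

lemma trunc_natDegree (g : Polynomial RR) (j : ℕ) (h : g.coeff j ≠ 0) :
    (trunc g j).natDegree = j := by
  apply le_antisymm (trunc_natDegree_le g j)
  apply Polynomial.le_natDegree_of_ne_zero
  rw [trunc_coeff, if_pos (by omega)]
  exact h

/-! ### The base case -/

lemma qe_zero (F : Finset (Polynomial RR)) (hF : ∀ g ∈ F, g.natDegree = 0) (Z : Set (ℕ → ℝ)) :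
    PW (QE F) Z := by
  classical
  have h1 := PW.finset (Pr := fun (g : Polynomial RR) => CstSign (g.coeff 0))
    (fun g => CstSign.subset (g.coeff 0)) (X := Z) F (fun g _ => pw_cstSign (g.coeff 0) Z)
  refine h1.imp fun Y _ hY => ?_
  choose! s hs using hY
  refine ⟨.last s, fun m hm t _ g hg => ?_⟩
  rw [← hs g hg m hm]
  have h2 := Polynomial.eq_C_of_natDegree_eq_zero (hF g hg)
  unfold sgn sp
  conv_lhs => rw [h2]
  rw [Polynomial.map_C, Polynomial.eval_C]
  rfl

/-! ### The inductive step -/

lemma first_interval {V : Type} {I P : ℝ → V → Prop} {D : Diag V} (h : Realizes I P ⊥ D) :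
    ∃ b : ℝ, ∀ t, t < b → I t D.first := by
  cases D with
  | last σ => exact ⟨0, fun t _ => h t (WithBot.bot_lt_coe t)⟩
  | cons σ τ D =>
    obtain ⟨r, _, h2, _, _⟩ := h
    exact ⟨r, fun t ht => h2 t (WithBot.bot_lt_coe t) ht⟩

lemma qe_step (F' : Finset (Polynomial RR)) (f : Polynomial RR) (hf : 0 < f.natDegree)
    (hfF : f ∉ F') (hf' : derivative f ∈ F') (Z : Set (ℕ → ℝ))
    (hZ : ∀ m ∈ Z, ev m f.leadingCoeff ≠ 0)
    (hc : ∀ g ∈ F', ∀ i ∈ Finset.range (g.natDegree + 1), CstSign (g.coeff i) Z)
    (Fs : Finset (Polynomial RR)) (hFs : F' ⊆ Fs)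
    (hprem : ∀ g ∈ F', ∀ j ≤ g.natDegree, prem f (trunc g j) ∈ Fs) (hQ : QE Fs Z) :
    QE (insert f F') Z := by
  classical
  rcases Z.eq_empty_or_nonempty with rfl | ⟨m₀, hm₀⟩
  · exact ⟨.last fun _ => 0, fun m hm => hm.elim⟩
  obtain ⟨D, hD⟩ := hQ
  -- coefficients vanish uniformly
  have hcz : ∀ g ∈ F', ∀ i, ∀ m ∈ Z, (ev m (g.coeff i) = 0 ↔ ev m₀ (g.coeff i) = 0) := by
    intro g hg i m hm
    by_cases hi : i ≤ g.natDegree
    · obtain ⟨s, hs⟩ := hc g hg i (Finset.mem_range.2 (by omega))
      have h1 := hs m hm
      have h2 := hs m₀ hm₀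
      rw [ev_apply, ev_apply, ← sign_eq_zero_iff, ← sign_eq_zero_iff (a := MvPolynomial.aeval m₀ _),
        h1, h2]
    · rw [Polynomial.coeff_eq_zero_of_natDegree_lt (by omega)]
      simp
  let e : Polynomial RR → ℕ := fun g => (sp m₀ g).natDegree
  have he : ∀ g, e g ≤ g.natDegree := fun g => Polynomial.natDegree_map_le
  let root : (Polynomial RR → SignType) → Prop := fun τ => ∃ g ∈ F', 1 ≤ e g ∧ τ g = 0
  let fs : (Polynomial RR → SignType) → SignType := fun τ =>
    if h : root τ then τ (prem f (trunc h.choose (e h.choose))) else 0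
  refine ⟨build f (derivative f) root fs (-(D.first (derivative f))) D, fun m hm => ?_⟩
  have hlc := hZ m hm
  have hnat : (sp m f).natDegree = f.natDegree :=
    Polynomial.natDegree_map_of_leadingCoeff_ne_zero _ hlc
  have hp : 0 < (sp m f).natDegree := by rw [hnat]; exact hf
  have hder : derivative (sp m f) = sp m (derivative f) := by
    unfold sp
    rw [Polynomial.derivative_map]
  have hI2 : ∀ t σ, IF F' m t σ → sgn (derivative (sp m f)) t = σ (derivative f) := by
    intro t σ hI
    rw [hder]
    exact hI _ hf'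
  have hreal : Realizes (IF F' m) (fun t τ => IF F' m t τ ∧ (root τ → sgn (sp m f) t = fs τ))
      ⊥ D := by
    refine (hD m hm).mono (fun t σ hI => hI.subset hFs) (fun t τ hI => ⟨hI.subset hFs, ?_⟩)
    intro hroot
    have h1 : fs τ = τ (prem f (trunc hroot.choose (e hroot.choose))) := by
      simp only [fs]
      rw [dif_pos hroot]
    rw [h1]
    obtain ⟨hg1, hg2, hg3⟩ := hroot.choose_spec
    set g := hroot.choose with hg
    have hle := he g
    have h2 : ev m₀ (g.coeff (e g)) ≠ 0 := by
      rw [← sp_coeff]
      have h3 : sp m₀ g ≠ 0 := by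
        intro h4
        simp only [e] at hg2
        rw [h4] at hg2
        simp at hg2
      exact Polynomial.leadingCoeff_ne_zero.2 h3
    have h3 : ev m (g.coeff (e g)) ≠ 0 := fun h => h2 ((hcz g hg1 _ m hm).1 h)
    have h4 : g.coeff (e g) ≠ 0 := by
      intro h
      rw [h] at h3
      simp at h3
    have h5 := trunc_natDegree g (e g) h4
    have h6 : (trunc g (e g)).leadingCoeff = g.coeff (e g) := by
      unfold Polynomial.leadingCoeff
      rw [h5, trunc_coeff, if_pos (by omega)]
    have h7 : sp m (trunc g (e g)) = sp m g := by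
      ext i
      rw [sp_coeff, sp_coeff, trunc_coeff]
      split_ifs with h8
      · rfl
      · rw [map_zero]
        symm
        rw [hcz g hg1 i m hm, ← sp_coeff]
        exact Polynomial.coeff_eq_zero_of_natDegree_lt (by simp only [e] at h8; omega)
    rw [← hI _ (hprem g hg1 (e g) hle)]
    refine sgn_prem f _ (by rw [h5]; exact hg2) m t (by rw [h6]; exact h3) ?_
    rw [h7, hI g (hFs hg1)]
    exact hg3
  refine build_realizes (sp m f) hp (IF F' m) (IF (insert f F') m) ?_ ?_ hI2 ?_ D ⊥ _ hreal ?_
  · intro t σ σ' h1 h2 s h3 g hg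
    rw [h3 g hg, ← h1 g hg, h2 g hg]
  · -- local constancy of the signs
    intro r τ hI hroot
    have h1 : ∀ g ∈ F', ∀ᶠ t in nhds r, sgn (sp m g) t = τ g := by
      intro g hg
      by_cases heg : 1 ≤ e g
      · have h2 : τ g ≠ 0 := fun h => hroot ⟨g, hg, heg, h⟩
        have h3 := hI g hg
        have hcont : Continuous fun t => (sp m g).eval t := (sp m g).continuous
        rcases (show τ g = 1 ∨ τ g = -1 by cases h : τ g <;> simp_all) with h4 | h4
        · rw [h4, sgn_eq_one] at h3
          filter_upwards [hcont.continuousAt.eventually (lt_mem_nhds h3)] with t ht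
          rw [h4, sgn_eq_one]
          exact ht
        · rw [h4, sgn_eq_neg_one] at h3
          filter_upwards [hcont.continuousAt.eventually (gt_mem_nhds h3)] with t ht
          rw [h4, sgn_eq_neg_one]
          exact ht
      · have h2 : (sp m g).natDegree = 0 := by
          rw [Polynomial.natDegree_eq_zero_iff_degree_le_zero, Polynomial.degree_le_iff_coeff_zero]
          intro i hi
          have hi' : 0 < i := by exact_mod_cast hi
          rw [sp_coeff, hcz g hg i m hm, ← sp_coeff]
          exact Polynomial.coeff_eq_zero_of_natDegree_lt (by simp only [e] at heg; omega)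
        refine Filter.Eventually.of_forall fun t => ?_
        rw [← hI g hg]
        unfold sgn
        rw [Polynomial.eq_C_of_natDegree_eq_zero h2]
        simp
    have h2 : ∀ᶠ t in nhds r, ∀ g ∈ F', sgn (sp m g) t = τ g :=
      (Filter.eventually_all_finset F').2 h1
    obtain ⟨ε, hε, h3⟩ := Metric.eventually_nhds_iff.1 h2
    refine ⟨ε, hε, fun t ht1 ht2 => h3 ?_⟩
    rw [Real.dist_eq, abs_lt]
    constructor <;> linarith
  · intro t σ s hI hs g hg
    by_cases hgf : g = f
    · subst hgf
      rw [Function.update_self]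
      exact hs
    · rw [Function.update_of_ne hgf]
      exact hI g ((Finset.mem_insert.1 hg).resolve_left hgf)
  · -- the sign at minus infinity
    obtain ⟨b, hb⟩ := first_interval hreal
    have hb' : ∀ t, t < b → sgn (derivative (sp m f)) t = D.first (derivative f) := fun t ht =>
      hI2 t _ (hb t ht)
    set δ := D.first (derivative f) with hδ
    have hδ0 : δ ≠ 0 := by
      intro h0
      have h3 : derivative (sp m f) ≠ 0 := by
        intro h4
        have := Polynomial.derivative_eq_zero.1 h4
        omega
      have h4 : Iio b ⊆ {t | (derivative (sp m f)).IsRoot t} := by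
        intro t ht
        have := hb' t ht
        rw [h0, sgn_eq_zero] at this
        exact this
      exact (Iio_infinite b) ((Polynomial.finite_setOfPred_isRoot h3).subset h4)
    rcases (show δ = 1 ∨ δ = -1 by cases h : δ <;> simp_all) with h4 | h4
    · rw [h4] at hb' ⊢
      exact signAt_bot hp fun x hx => sgn_eq_one.1 (hb' x hx)
    · rw [h4] at hb' ⊢
      have h5 := signAt_bot (f := -(sp m f)) (by rwa [Polynomial.natDegree_neg]) (b := b)
        fun x hx => by
        rw [← sgn_eq_one, Polynomial.derivative_neg, sgn_neg, hb' x hx]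
        decide
      have h6 := h5.neg
      rw [neg_neg] at h6
      exact h6

/-- **Uniform sign diagrams exist after a finite semialgebraic case distinction.** -/
theorem qe (d : ℕ) : ∀ (k : ℕ) (F : Finset (Polynomial RR)), (∀ g ∈ F, g.natDegree ≤ d) →
    (F.filter fun g => g.natDegree = d).card ≤ k → PW (QE F) univ := by
  classical
  induction d with
  | zero =>
    intro k F hF _
    exact qe_zero F (fun g hg => Nat.le_zero.1 (hF g hg)) univ
  | succ d ihd =>
    intro k
    induction k with
    | zero =>
      intro F hF hk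
      refine ihd _ F (fun g hg => ?_) le_rfl
      have h1 : g ∉ F.filter fun g => g.natDegree = d + 1 := by
        rw [Finset.card_eq_zero.1 (Nat.le_zero.1 hk)]
        simp
      rw [Finset.mem_filter, not_and] at h1
      have := hF g hg
      have := h1 hg
      omega
    | succ k ihk =>
      intro F hF hk
      by_cases hex : ∃ f ∈ F, f.natDegree = d + 1
      swap
      · push Not at hex
        refine ihd _ F (fun g hg => ?_) le_rfl
        have := hF g hg
        have := hex g hg
        omega
      obtain ⟨f, hfF, hfd⟩ := hex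
      set F₁ := F.erase f with hF₁
      have hF₁d : ∀ g ∈ F₁, g.natDegree ≤ d + 1 := fun g hg => hF g (Finset.mem_of_mem_erase hg)
      have hcard : (F₁.filter fun g => g.natDegree = d + 1).card ≤ k := by
        have h1 : (F₁.filter fun g => g.natDegree = d + 1) =
            (F.filter fun g => g.natDegree = d + 1).erase f := by
          rw [hF₁, Finset.filter_erase]
        rw [h1, Finset.card_erase_of_mem (Finset.mem_filter.2 ⟨hfF, hfd⟩)]
        omega
      have hFins : F ⊆ insert f F₁ := by
        rw [hF₁, Finset.insert_erase hfF]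
      -- families with the same number of members of degree `d + 1`
      have hadd : ∀ G : Finset (Polynomial RR), (∀ g ∈ G, g ∉ F₁ → g.natDegree ≤ d) →
          PW (QE G) univ := by
        intro G hG
        refine ihk G (fun g hg => ?_) ?_
        · by_cases h1 : g ∈ F₁
          · exact hF₁d g h1
          · have := hG g hg h1
            omega
        · refine (Finset.card_le_card ?_).trans hcard
          intro g hg
          rw [Finset.mem_filter] at hg ⊢
          refine ⟨?_, hg.2⟩
          by_contra h1
          have := hG g hg.1 h1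
          omega
      refine PW.split {m | ev m f.leadingCoeff = 0} (sa_zero _) ?_ ?_
      · -- the leading coefficient vanishes
        have h1 := (hadd (insert f.eraseLead F₁) (fun g hg hg1 => by
          rcases Finset.mem_insert.1 hg with rfl | h
          · have := Polynomial.eraseLead_natDegree_le f
            omega
          · exact absurd h hg1)).subset (QE.subset _) (subset_univ
            (univ ∩ {m | ev m f.leadingCoeff = 0}))
        refine h1.imp fun Y hY hQ => ?_
        obtain ⟨D, hD⟩ := hQ
        refine ⟨D.map fun σ => Function.update σ f (σ f.eraseLead), fun m hm => ?_⟩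
        have hm0 : ev m f.leadingCoeff = 0 := (hY hm).2
        have h2 : sp m f = sp m f.eraseLead := by
          have h := congrArg (Polynomial.map (ev m)) (Polynomial.eraseLead_add_C_mul_X_pow f).symm
          unfold sp
          rw [h, Polynomial.map_add, Polynomial.map_mul, Polynomial.map_C, hm0]
          simp
        have h3 : ∀ t σ, IF (insert f.eraseLead F₁) m t σ →
            IF F m t (Function.update σ f (σ f.eraseLead)) := by
          intro t σ hI g hg
          by_cases hgf : g = f
          · subst hgf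
            rw [Function.update_self, h2]
            exact hI _ (Finset.mem_insert_self _ _)
          · rw [Function.update_of_ne hgf]
            exact hI g (Finset.mem_insert_of_mem (Finset.mem_erase.2 ⟨hgf, hg⟩))
        exact (hD m hm).map _ h3 h3
      · -- the leading coefficient does not vanish
        set F' := insert (derivative f) F₁ with hF'
        set Fs := F' ∪ F'.biUnion fun g => (Finset.range (g.natDegree + 1)).image fun j =>
          prem f (trunc g j) with hFs
        have hderd : (derivative f).natDegree ≤ d := by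
          have := Polynomial.natDegree_derivative_le f
          omega
        have hF'd : ∀ g ∈ F', g.natDegree ≤ d + 1 := by
          intro g hg
          rcases Finset.mem_insert.1 hg with rfl | h
          · omega
          · exact hF₁d g h
        have hQ := (hadd Fs (fun g hg hg1 => by
          rcases Finset.mem_union.1 hg with h | h
          · rcases Finset.mem_insert.1 h with rfl | h
            · exact hderd
            · exact absurd h hg1
          · rw [Finset.mem_biUnion] at h
            obtain ⟨g', hg', h⟩ := h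
            rw [Finset.mem_image] at h
            obtain ⟨j, hj, rfl⟩ := h
            refine prem_natDegree f _ ?_
            have h2 := trunc_natDegree_le g' j
            have h3 := hF'd g' hg'
            have h4 := Finset.mem_range.1 hj
            omega)).subset (QE.subset _)
              (subset_univ (univ ∩ {m | ev m f.leadingCoeff = 0}ᶜ))
        have hC : PW (fun Y => ∀ g ∈ F', ∀ i ∈ Finset.range (g.natDegree + 1),
            CstSign (g.coeff i) Y) (univ ∩ {m | ev m f.leadingCoeff = 0}ᶜ) := by
          refine PW.finset (Pr := fun (g : Polynomial RR) Y =>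
            ∀ i ∈ Finset.range (g.natDegree + 1), CstSign (g.coeff i) Y) ?_ F' ?_
          · intro g X Y hY h i hi
            exact CstSign.subset _ _ _ hY (h i hi)
          · intro g _
            refine PW.finset (Pr := fun i => CstSign (g.coeff i)) ?_ _ ?_
            · intro i
              exact CstSign.subset _
            · intro i _
              exact pw_cstSign _ _
        have hboth := PW.and (QE.subset Fs) (fun X Y hY (h : ∀ g ∈ F',
            ∀ i ∈ Finset.range (g.natDegree + 1), CstSign (g.coeff i) X) g hg i hi =>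
            CstSign.subset _ _ _ hY (h g hg i hi)) hQ hC
        refine hboth.imp fun Y hY hP => ?_
        have hfF' : f ∉ F' := by
          rw [hF', Finset.mem_insert, not_or]
          refine ⟨?_, Finset.notMem_erase _ _⟩
          intro h
          rw [← h] at hderd
          omega
        have h5 := qe_step F' f (by omega) hfF' (Finset.mem_insert_self _ _) Y
          (fun m hm => (hY hm).2) hP.2 Fs Finset.subset_union_left (fun g hg j hj => by
            refine Finset.mem_union_right _ (Finset.mem_biUnion.2 ⟨g, hg, ?_⟩)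
            exact Finset.mem_image_of_mem _ (Finset.mem_range.2 (by omega))) hP.1
        refine h5.mono (hFins.trans ?_)
        exact Finset.insert_subset_insert _ (Finset.subset_insert _ _)

theorem qe_all (F : Finset (Polynomial RR)) : PW (QE F) univ := by
  classical
  refine qe (F.sup natDegree) _ F (fun g hg => Finset.le_sup hg) le_rfl

/-! ### Projections -/

/-- Whether the labels of a diagram satisfy a predicate somewhere. -/
def TS.Diag.Any {V : Type} (φ : V → Prop) : Diag V → Prop
  | .last σ => φ σ
  | .cons σ τ D => φ σ ∨ φ τ ∨ D.Any φ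

lemma TS.Realizes.any {V : Type} {I : ℝ → V → Prop} {φ : V → Prop} {ψ : ℝ → Prop}
    (h : ∀ t σ, I t σ → (ψ t ↔ φ σ)) (D : Diag V) : ∀ {a : WithBot ℝ}, Realizes I I a D →
    ((∃ t : ℝ, a < t ∧ ψ t) ↔ D.Any φ) := by
  induction D with
  | last σ =>
    intro a hD
    obtain ⟨c, hc⟩ : ∃ c : ℝ, a < c := by
      cases a with
      | bot => exact ⟨0, WithBot.bot_lt_coe 0⟩
      | coe a₀ => exact ⟨a₀ + 1, by exact_mod_cast (by linarith : a₀ < a₀ + 1)⟩
    constructor
    · rintro ⟨t, ht, hψ⟩
      exact (h t σ (hD t ht)).1 hψ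
    · intro hφ
      exact ⟨c, hc, (h c σ (hD c hc)).2 hφ⟩
  | cons σ τ D ih =>
    rintro a ⟨r, h1, h2, h3, h4⟩
    have ih' := ih h4
    obtain ⟨c, hc1, hc2⟩ : ∃ c : ℝ, a < c ∧ c < r := by
      cases a with
      | bot => exact ⟨r - 1, WithBot.bot_lt_coe _, by linarith⟩
      | coe a₀ =>
        have h1' : a₀ < r := by exact_mod_cast h1
        obtain ⟨c, hc1, hc2⟩ := exists_between h1'
        exact ⟨c, by exact_mod_cast hc1, hc2⟩
    constructor
    · rintro ⟨t, ht, hψ⟩
      rcases lt_trichotomy t r with h5 | h5 | h5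
      · exact Or.inl ((h t σ (h2 t ht h5)).1 hψ)
      · rw [h5] at hψ
        exact Or.inr (Or.inl ((h r τ h3).1 hψ))
      · exact Or.inr (Or.inr (ih'.1 ⟨t, by exact_mod_cast h5, hψ⟩))
    · rintro (hφ | hφ | hφ)
      · exact ⟨c, hc1, (h c σ (h2 c hc1 hc2)).2 hφ⟩
      · exact ⟨r, h1, (h r τ h3).2 hφ⟩
      · obtain ⟨t, ht, hψ⟩ := ih'.2 hφ
        exact ⟨t, h1.trans ht, hψ⟩

/-- The polynomial `p` as a polynomial in the variable `i`. -/
noncomputable def toUni (i : ℕ) (p : RR) : Polynomial RR :=
  MvPolynomial.aeval (fun j => if j = i then (X : Polynomial RR) else C (MvPolynomial.X j)) p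

lemma toUni_eval (i : ℕ) (p : RR) (m : ℕ → ℝ) (t : ℝ) :
    (sp m (toUni i p)).eval t = MvPolynomial.aeval (Function.update m i t) p := by
  unfold toUni sp
  induction p using MvPolynomial.induction_on with
  | C a => simp
  | add p q hp hq => simp only [map_add, Polynomial.map_add, Polynomial.eval_add, hp, hq]
  | mul_X p j hp =>
    simp only [map_mul, Polynomial.map_mul, Polynomial.eval_mul, hp, MvPolynomial.aeval_X]
    congr 1
    by_cases hj : j = i
    · subst hj
      simp
    · rw [if_neg hj, Function.update_of_ne hj]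
      simp [ev_apply]

/-- Membership in a semialgebraic set along a line is determined by finitely many signs. -/
lemma SA.signs {s : Set (ℕ → ℝ)} (h : SA s) (i : ℕ) :
    ∃ (F : Finset (Polynomial RR)) (φ : (Polynomial RR → SignType) → Prop),
      ∀ (m : ℕ → ℝ) (t : ℝ) (σ : Polynomial RR → SignType), IF F m t σ →
        (Function.update m i t ∈ s ↔ φ σ) := by
  classical
  induction h with
  | pos p =>
    refine ⟨{toUni i p}, fun σ => σ (toUni i p) = 1, fun m t σ hI => ?_⟩
    have h1 := hI _ (Finset.mem_singleton_self _)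
    show _ ↔ σ (toUni i p) = 1
    rw [← h1, sgn_eq_one, toUni_eval]
    rfl
  | compl _ ih =>
    obtain ⟨F, φ, h1⟩ := ih
    refine ⟨F, fun σ => ¬ φ σ, fun m t σ hI => ?_⟩
    show _ ↔ ¬ φ σ
    rw [← h1 m t σ hI]
    rfl
  | inter _ _ ih1 ih2 =>
    obtain ⟨F, φ, h1⟩ := ih1
    obtain ⟨F', φ', h2⟩ := ih2
    refine ⟨F ∪ F', fun σ => φ σ ∧ φ' σ, fun m t σ hI => ?_⟩
    show _ ↔ φ σ ∧ φ' σ
    rw [← h1 m t σ (hI.subset Finset.subset_union_left),
      ← h2 m t σ (hI.subset Finset.subset_union_right)]
    rfl

/-- **The Tarski–Seidenberg theorem.** -/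
theorem SA.proj {s : Set (ℕ → ℝ)} (h : SA s) (i : ℕ) :
    SA {m | ∃ t : ℝ, Function.update m i t ∈ s} := by
  obtain ⟨F, φ, h1⟩ := h.signs i
  refine (qe_all F).sa_univ _ fun Y hY => ?_
  obtain ⟨D, hD⟩ := hY
  have h2 : ∀ m ∈ Y, ((∃ t : ℝ, Function.update m i t ∈ s) ↔ D.Any φ) := by
    intro m hm
    rw [← (hD m hm).any (ψ := fun t => Function.update m i t ∈ s) (h1 m)]
    constructor
    · rintro ⟨t, ht⟩
      exact ⟨t, WithBot.bot_lt_coe t, ht⟩
    · rintro ⟨t, _, ht⟩
      exact ⟨t, ht⟩
  by_cases hφ : D.Any φ
  · exact ⟨univ, Pool.Agent.W_MP_25fb88_lc.sa_univ, fun m hm => by simp [h2 m hm, hφ]⟩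
  · exact ⟨∅, sa_empty, fun m hm => by simp [h2 m hm, hφ]⟩

end Pool.Agent.W_MP_25fb88_lc
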