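import Pool.Agent.W_MP_25fb88_lc.Unroll

/-!
# Block machines and their translation to BSS machines
-/

namespace Pool.Agent.W_MP_25fb88_lc

open Set

/-- Straight-line instructions. -/
inductive Simple
  | const (i : ℤ) (a : ℝ)
  | copy (i j : ℤ)
  | arith (op : Op) (i j k : ℤ)
  | shiftLeft
  | shiftRight

/-- Effect on the registers. -/
noncomputable def Simple.exec : Simple → (ℤ → ℝ) → (ℤ → ℝ)
  | .const i a, r => Function.update r i a
  | .copy i j, r => Function.update r i (r j)
  | .arith op i j k, r => Function.update r i (op.eval (r j) (r k))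
  | .shiftLeft, r => fun i => r (i + 1)
  | .shiftRight, r => fun i => r (i - 1)

/-- Effect of a list of instructions. -/
noncomputable def execL (l : List Simple) (r : ℤ → ℝ) : ℤ → ℝ := l.foldl (fun r i => i.exec r) r

@[simp] lemma execL_nil (r : ℤ → ℝ) : execL [] r = r := rfl
@[simp] lemma execL_cons (i : Simple) (l : List Simple) (r : ℤ → ℝ) :
    execL (i :: l) r = execL l (i.exec r) := rfl
lemma execL_append (l l' : List Simple) (r : ℤ → ℝ) :
    execL (l ++ l') r = execL l' (execL l r) := by
  simp [execL, List.foldl_append]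

/-- Node of a simple instruction. -/
def Simple.toNode {Q : Type} (q : Q) : Simple → Node Q
  | .const i a => .const i a q
  | .copy i j => .copy i j q
  | .arith op i j k => .arith op i j k q
  | .shiftLeft => .shiftLeft q
  | .shiftRight => .shiftRight q

/-- Block terminators. -/
inductive Term (B : Type) : Type
  | goto (b : B)
  | branch (i : ℤ) (b b' : B)
  | halt

/-- Block machines. -/
structure BM : Type 1 where
  B : Type
  finite : Finite B
  start : B
  body : B → List Simple
  term : B → Term B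

/-- Labels of the BSS machine of a block machine. -/
abbrev BM.Lab (W : BM) : Type := Σ b : W.B, Fin ((W.body b).length + 1)

/-- Entry label of a block. -/
def BM.entry (W : BM) (b : W.B) : W.Lab := ⟨b, ⟨0, Nat.succ_pos _⟩⟩

/-- The node at a label. -/
def BM.nodeAt (W : BM) (l : W.Lab) : Node W.Lab :=
  if h : l.2.1 < (W.body l.1).length then
    ((W.body l.1)[l.2.1]).toNode ⟨l.1, ⟨l.2.1 + 1, by omega⟩⟩
  else match W.term l.1 with
    | .goto b => .copy 0 0 (W.entry b)
    | .branch i b b' => .branch i (W.entry b) (W.entry b')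
    | .halt => .halt

/-- The BSS machine of a block machine. -/
abbrev BM.toMachine (W : BM) : Machine where
  Q := W.Lab
  finite := by
    have := W.finite
    infer_instance
  start := W.entry W.start
  node := W.nodeAt

/-- Reachability within `t` steps. -/
def Reach (M : Machine) (t : ℕ) (c c' : M.Q × (ℤ → ℝ)) : Prop :=
  ∃ t' ≤ t, M.step^[t'] c = c'

lemma Reach.refl (M : Machine) (t : ℕ) (c : M.Q × (ℤ → ℝ)) : Reach M t c c :=
  ⟨0, Nat.zero_le _, rfl⟩

lemma Reach.trans {M : Machine} {s t : ℕ} {c c' c'' : M.Q × (ℤ → ℝ)} (h : Reach M s c c')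
    (h' : Reach M t c' c'') : Reach M (s + t) c c'' := by
  obtain ⟨s', h1, h2⟩ := h
  obtain ⟨t', h3, h4⟩ := h'
  refine ⟨t' + s', by omega, ?_⟩
  rw [Function.iterate_add_apply, h2, h4]

lemma Reach.le {M : Machine} {s t : ℕ} {c c' : M.Q × (ℤ → ℝ)} (h : Reach M s c c')
    (hst : s ≤ t) : Reach M t c c' := by
  obtain ⟨s', h1, h2⟩ := h
  exact ⟨s', h1.trans hst, h2⟩

lemma step_halt (M : Machine) (c : M.Q × (ℤ → ℝ)) (h : M.node c.1 = Node.halt) :
    M.step c = c := by
  unfold Machine.step
  rw [h]

lemma Reach.run_eq {M : Machine} {t : ℕ} {x : RInf} {c : M.Q × (ℤ → ℝ)}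
    (h : Reach M t (M.start, load x) c) (hc : M.node c.1 = Node.halt) {T : ℕ} (hT : t ≤ T) :
    M.run x T = c := by
  obtain ⟨t', h1, h2⟩ := h
  have h3 : ∀ k, M.step^[k] c = c := fun k => Function.iterate_fixed (step_halt M c hc) k
  unfold Machine.run
  have h4 : T = (T - t') + t' := by omega
  rw [h4, Function.iterate_add_apply, h2, h3]

lemma step_simple (W : BM) (b : W.B) (k : ℕ) (hk : k < (W.body b).length) (r : ℤ → ℝ) :
    W.toMachine.step ((⟨b, ⟨k, by omega⟩⟩ : W.Lab), r) =
      ((⟨b, ⟨k + 1, by omega⟩⟩ : W.Lab), ((W.body b)[k]).exec r) := by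
  have h1 : W.nodeAt ((⟨b, ⟨k, by omega⟩⟩ : W.Lab)) =
      ((W.body b)[k]).toNode (⟨b, ⟨k + 1, by omega⟩⟩ : W.Lab) := by
    simp only [BM.nodeAt]
    rw [dif_pos hk]
  unfold Machine.step
  simp only
  rw [h1]
  cases (W.body b)[k] <;> rfl

lemma iter_simple (W : BM) (b : W.B) (r : ℤ → ℝ) (k : ℕ) (hk : k ≤ (W.body b).length) :
    W.toMachine.step^[k] (W.entry b, r) =
      ((⟨b, ⟨k, by omega⟩⟩ : W.Lab), execL ((W.body b).take k) r) := by
  induction k with
  | zero => rfl
  | succ k ih =>
    rw [Function.iterate_succ_apply', ih (by omega), step_simple W b k (by omega)]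
    congr 1
    rw [← List.take_concat_get' (W.body b) k (by omega), execL_append]
    rfl

lemma reach_body (W : BM) (b : W.B) (r : ℤ → ℝ) :
    W.toMachine.step^[(W.body b).length] (W.entry b, r) =
      ((⟨b, ⟨(W.body b).length, by omega⟩⟩ : W.Lab), execL (W.body b) r) := by
  rw [iter_simple W b r _ le_rfl, List.take_length]

lemma reach_goto (W : BM) (b b' : W.B) (h : W.term b = Term.goto b') (r : ℤ → ℝ) :
    Reach W.toMachine ((W.body b).length + 1) (W.entry b, r)
      (W.entry b', execL (W.body b) r) := by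
  refine ⟨(W.body b).length + 1, le_rfl, ?_⟩
  rw [Function.iterate_succ_apply', reach_body]
  have h1 : W.nodeAt ((⟨b, ⟨(W.body b).length, by omega⟩⟩ : W.Lab)) =
      Node.copy 0 0 (W.entry b') := by
    simp only [BM.nodeAt]
    rw [dif_neg (lt_irrefl _), h]
  unfold Machine.step
  simp only
  rw [h1]
  simp

lemma reach_branch (W : BM) (b b' b'' : W.B) (i : ℤ) (h : W.term b = Term.branch i b' b'')
    (r : ℤ → ℝ) :
    Reach W.toMachine ((W.body b).length + 1) (W.entry b, r)
      (W.entry (if 0 ≤ execL (W.body b) r i then b' else b''), execL (W.body b) r) := by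
  refine ⟨(W.body b).length + 1, le_rfl, ?_⟩
  rw [Function.iterate_succ_apply', reach_body]
  have h1 : W.nodeAt ((⟨b, ⟨(W.body b).length, by omega⟩⟩ : W.Lab)) =
      Node.branch i (W.entry b') (W.entry b'') := by
    simp only [BM.nodeAt]
    rw [dif_neg (lt_irrefl _), h]
  unfold Machine.step
  simp only
  rw [h1]
  by_cases h2 : 0 ≤ execL (W.body b) r i
  · simp only [if_pos h2]
  · simp only [if_neg h2]

lemma reach_halt (W : BM) (b : W.B) (h : W.term b = Term.halt) (r : ℤ → ℝ) :
    ∃ q, Reach W.toMachine ((W.body b).length) (W.entry b, r) (q, execL (W.body b) r) ∧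
      W.toMachine.node q = Node.halt := by
  refine ⟨(⟨b, ⟨(W.body b).length, by omega⟩⟩ : W.Lab), ⟨_, le_rfl, reach_body W b r⟩, ?_⟩
  simp only [BM.toMachine, BM.nodeAt]
  rw [dif_neg (lt_irrefl _), h]

end Pool.Agent.W_MP_25fb88_lc
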