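import Pool.Agent.W_MP_25fb88_lc.Defs

/-!
# Straight line computations, semantically
-/

namespace Pool.Agent.W_MP_25fb88_lc

open Set

variable {α β : Type}

/-- One gate over a set of available functions. -/
inductive Gate (G : Set (α → ℝ)) : (α → ℝ) → Prop
  | arith (op : Op) {f g : α → ℝ} (hf : f ∈ G) (hg : g ∈ G) : Gate G (fun a => op.eval (f a) (g a))
  | sel {f g h : α → ℝ} (hf : f ∈ G) (hg : g ∈ G) (hh : h ∈ G) :
      Gate G (fun a => if 0 ≤ f a then g a else h a)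

lemma Gate.mono {G G' : Set (α → ℝ)} (h : G ⊆ G') {f : α → ℝ} (hf : Gate G f) : Gate G' f := by
  cases hf with
  | arith op h1 h2 => exact Gate.arith op (h h1) (h h2)
  | sel h1 h2 h3 => exact Gate.sel (h h1) (h h2) (h h3)

/-- `Ext s G G'`: `G'` is obtained from `G` by adding `s` gates one after the other. -/
inductive Ext : ℕ → Set (α → ℝ) → Set (α → ℝ) → Prop
  | refl (G : Set (α → ℝ)) : Ext 0 G G
  | step {s : ℕ} {G G' : Set (α → ℝ)} {f : α → ℝ} (h : Ext s G G') (hf : Gate G' f) :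
      Ext (s + 1) G (insert f G')

lemma Ext.subset {s : ℕ} {G G' : Set (α → ℝ)} (h : Ext s G G') : G ⊆ G' := by
  induction h with
  | refl => exact Subset.rfl
  | step _ _ ih => exact ih.trans (subset_insert _ _)

lemma Ext.trans {s t : ℕ} {G G' G'' : Set (α → ℝ)} (h : Ext s G G') (h' : Ext t G' G'') :
    Ext (s + t) G G'' := by
  induction h' with
  | refl => exact h
  | step _ hf ih => exact (ih h).step hf

lemma Ext.mono {s : ℕ} {G G' : Set (α → ℝ)} (h : Ext s G G') :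
    ∀ {H : Set (α → ℝ)}, G ⊆ H → ∃ H', Ext s H H' ∧ G' ⊆ H' := by
  induction h with
  | refl => intro H hGH; exact ⟨H, Ext.refl H, hGH⟩
  | @step s G G' f h hf ih =>
    intro H hGH
    obtain ⟨H', h1, h2⟩ := ih hGH
    exact ⟨insert f H', h1.step (hf.mono h2), insert_subset_insert h2⟩

/-- All functions in `H` can be computed from those in `G` with at most `s` gates in total. -/
def Cx (G : Set (α → ℝ)) (s : ℕ) (H : Set (α → ℝ)) : Prop :=
  ∃ s' ≤ s, ∃ G', Ext s' G G' ∧ H ⊆ G'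

lemma Cx.of_subset {G H : Set (α → ℝ)} (h : H ⊆ G) (s : ℕ) : Cx G s H :=
  ⟨0, Nat.zero_le _, G, Ext.refl G, h⟩

lemma Cx.refl (G : Set (α → ℝ)) (s : ℕ) : Cx G s G := Cx.of_subset Subset.rfl s

lemma Cx.of_mem {G : Set (α → ℝ)} {f : α → ℝ} (h : f ∈ G) (s : ℕ) : Cx G s {f} :=
  Cx.of_subset (singleton_subset_iff.2 h) s

lemma Cx.le {G H : Set (α → ℝ)} {s t : ℕ} (h : Cx G s H) (hst : s ≤ t) : Cx G t H := by
  obtain ⟨s', h1, G', h2, h3⟩ := h
  exact ⟨s', h1.trans hst, G', h2, h3⟩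

lemma Cx.mono_right {G H H' : Set (α → ℝ)} {s : ℕ} (h : Cx G s H) (hH : H' ⊆ H) : Cx G s H' := by
  obtain ⟨s', h1, G', h2, h3⟩ := h
  exact ⟨s', h1, G', h2, hH.trans h3⟩

lemma Cx.mono_left {G G₁ H : Set (α → ℝ)} {s : ℕ} (h : Cx G s H) (hG : G ⊆ G₁) : Cx G₁ s H := by
  obtain ⟨s', h1, G', h2, h3⟩ := h
  obtain ⟨G₁', h4, h5⟩ := h2.mono hG
  exact ⟨s', h1, G₁', h4, h3.trans h5⟩

/-- The old functions remain available. -/
lemma Cx.self_union {G H : Set (α → ℝ)} {s : ℕ} (h : Cx G s H) : Cx G s (G ∪ H) := by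
  obtain ⟨s', h1, G', h2, h3⟩ := h
  exact ⟨s', h1, G', h2, union_subset h2.subset h3⟩

lemma Cx.trans {G H K : Set (α → ℝ)} {s t : ℕ} (h : Cx G s H) (h' : Cx (G ∪ H) t K) :
    Cx G (s + t) K := by
  obtain ⟨s', h1, G', h2, h3⟩ := h
  obtain ⟨t', h4, K', h5, h6⟩ := h'
  obtain ⟨K'', h7, h8⟩ := h5.mono (union_subset h2.subset h3)
  exact ⟨s' + t', add_le_add h1 h4, K'', h2.trans h7, h6.trans h8⟩

lemma Cx.trans' {G H K : Set (α → ℝ)} {s t : ℕ} (h : Cx G s H) (h' : Cx H t K) :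
    Cx G (s + t) K := h.trans (h'.mono_left subset_union_right)

lemma Cx.union {G H K : Set (α → ℝ)} {s t : ℕ} (h : Cx G s H) (h' : Cx G t K) :
    Cx G (s + t) (H ∪ K) := by
  obtain ⟨s', h1, G', h2, h3⟩ := h
  obtain ⟨t', h4, K', h5, h6⟩ := h'
  obtain ⟨K'', h7, h8⟩ := h5.mono h2.subset
  exact ⟨s' + t', add_le_add h1 h4, K'', h2.trans h7,
    union_subset (h3.trans h7.subset) (h6.trans h8)⟩

lemma Cx.biUnion {ι : Type*} [DecidableEq ι] {G : Set (α → ℝ)} (t : Finset ι) {s : ι → ℕ}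
    {H : ι → Set (α → ℝ)} (h : ∀ i ∈ t, Cx G (s i) (H i)) :
    Cx G (∑ i ∈ t, s i) (⋃ i ∈ t, H i) := by
  induction t using Finset.induction_on with
  | empty => simpa using Cx.of_subset (empty_subset G) 0
  | insert a t ha ih =>
    rw [Finset.sum_insert ha, Finset.set_biUnion_insert]
    exact (h a (Finset.mem_insert_self _ _)).union
      (ih fun i hi => h i (Finset.mem_insert_of_mem hi))

lemma Cx.gate {G : Set (α → ℝ)} {f : α → ℝ} (h : Gate G f) : Cx G 1 {f} :=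
  ⟨1, le_rfl, insert f G, (Ext.refl G).step h, by simp⟩

lemma Cx.arith {G : Set (α → ℝ)} {s t : ℕ} {f g : α → ℝ} (op : Op) (hf : Cx G s {f})
    (hg : Cx G t {g}) : Cx G (s + t + 1) {fun a => op.eval (f a) (g a)} := by
  refine (hf.union hg).trans' (Cx.gate ?_)
  exact Gate.arith op (by simp) (by simp)

lemma Cx.add {G : Set (α → ℝ)} {s t : ℕ} {f g : α → ℝ} (hf : Cx G s {f})
    (hg : Cx G t {g}) : Cx G (s + t + 1) {fun a => f a + g a} := hf.arith Op.add hg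

lemma Cx.sub {G : Set (α → ℝ)} {s t : ℕ} {f g : α → ℝ} (hf : Cx G s {f})
    (hg : Cx G t {g}) : Cx G (s + t + 1) {fun a => f a - g a} := hf.arith Op.sub hg

lemma Cx.mul {G : Set (α → ℝ)} {s t : ℕ} {f g : α → ℝ} (hf : Cx G s {f})
    (hg : Cx G t {g}) : Cx G (s + t + 1) {fun a => f a * g a} := hf.arith Op.mul hg

lemma Cx.div {G : Set (α → ℝ)} {s t : ℕ} {f g : α → ℝ} (hf : Cx G s {f})
    (hg : Cx G t {g}) : Cx G (s + t + 1) {fun a => f a / g a} := hf.arith Op.div hg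

lemma Cx.sel {G : Set (α → ℝ)} {s t u : ℕ} {f g h : α → ℝ} (hf : Cx G s {f})
    (hg : Cx G t {g}) (hh : Cx G u {h}) :
    Cx G (s + t + u + 1) {fun a => if 0 ≤ f a then g a else h a} := by
  refine ((hf.union hg).union hh).trans' (Cx.gate ?_)
  exact Gate.sel (by simp) (by simp) (by simp)

/-- Precomposition. -/
lemma Gate.comp {G : Set (α → ℝ)} {f : α → ℝ} (h : Gate G f) (φ : β → α) :
    Gate ((fun g : α → ℝ => g ∘ φ) '' G) (f ∘ φ) := by
  cases h with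
  | arith op h1 h2 =>
    exact Gate.arith op (mem_image_of_mem (fun g : α → ℝ => g ∘ φ) h1)
      (mem_image_of_mem (fun g : α → ℝ => g ∘ φ) h2)
  | sel h1 h2 h3 =>
    exact Gate.sel (mem_image_of_mem (fun g : α → ℝ => g ∘ φ) h1)
      (mem_image_of_mem (fun g : α → ℝ => g ∘ φ) h2)
      (mem_image_of_mem (fun g : α → ℝ => g ∘ φ) h3)

lemma Ext.comp {s : ℕ} {G G' : Set (α → ℝ)} (h : Ext s G G') (φ : β → α) :
    Ext s ((fun g : α → ℝ => g ∘ φ) '' G) ((fun g : α → ℝ => g ∘ φ) '' G') := by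
  induction h with
  | refl => exact Ext.refl _
  | step _ hf ih =>
    rw [image_insert_eq]
    exact ih.step (hf.comp φ)

lemma Cx.comp {s : ℕ} {G H : Set (α → ℝ)} (h : Cx G s H) (φ : β → α) :
    Cx ((fun g : α → ℝ => g ∘ φ) '' G) s ((fun g : α → ℝ => g ∘ φ) '' H) := by
  obtain ⟨s', h1, G', h2, h3⟩ := h
  exact ⟨s', h1, _, h2.comp φ, image_mono h3⟩

/-- Lifting along a map. -/
lemma Gate.lift {G : Set (α → ℝ)} {φ : β → α} {f : β → ℝ}
    (h : Gate ((fun g : α → ℝ => g ∘ φ) '' G) f) : ∃ g, Gate G g ∧ g ∘ φ = f := by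
  cases h with
  | arith op h1 h2 =>
    obtain ⟨g1, hg1, rfl⟩ := h1
    obtain ⟨g2, hg2, rfl⟩ := h2
    exact ⟨_, Gate.arith op hg1 hg2, rfl⟩
  | sel h1 h2 h3 =>
    obtain ⟨g1, hg1, rfl⟩ := h1
    obtain ⟨g2, hg2, rfl⟩ := h2
    obtain ⟨g3, hg3, rfl⟩ := h3
    exact ⟨_, Gate.sel hg1 hg2 hg3, rfl⟩

lemma Ext.lift {s : ℕ} {K K' : Set (β → ℝ)} (h : Ext s K K') (φ : β → α) :
    ∀ {G : Set (α → ℝ)}, (fun g : α → ℝ => g ∘ φ) '' G = K →
      ∃ G', Ext s G G' ∧ (fun g : α → ℝ => g ∘ φ) '' G' = K' := by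
  induction h with
  | refl => intro G hG; exact ⟨G, Ext.refl G, hG⟩
  | @step s K K' f h hf ih =>
    intro G hG
    obtain ⟨G', h1, h2⟩ := ih hG
    rw [← h2] at hf
    obtain ⟨g, hg1, hg2⟩ := hf.lift
    exact ⟨insert g G', h1.step hg1, by rw [image_insert_eq, h2, hg2]⟩

lemma Cx.lift {s : ℕ} {G : Set (α → ℝ)} {φ : β → α} {H : Set (β → ℝ)}
    (h : Cx ((fun g : α → ℝ => g ∘ φ) '' G) s H) :
    ∃ H', Cx G s H' ∧ (fun g : α → ℝ => g ∘ φ) '' H' = H := by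
  obtain ⟨s', h1, K', h2, h3⟩ := h
  obtain ⟨G', h4, h5⟩ := h2.lift φ rfl
  refine ⟨{g ∈ G' | g ∘ φ ∈ H}, ⟨s', h1, G', h4, sep_subset _ _⟩, ?_⟩
  ext f
  constructor
  · rintro ⟨g, ⟨_, hg⟩, rfl⟩
    exact hg
  · intro hf
    rw [← h5] at h3
    obtain ⟨g, hg, rfl⟩ := h3 hf
    exact ⟨g, ⟨hg, hf⟩, rfl⟩

/-- Lifting of a single function. -/
lemma Cx.lift_singleton {s : ℕ} {G : Set (α → ℝ)} {φ : β → α} {f : β → ℝ}
    (h : Cx ((fun g : α → ℝ => g ∘ φ) '' G) s {f}) :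
    ∃ g, Cx G s {g} ∧ g ∘ φ = f := by
  obtain ⟨H', h1, h2⟩ := h.lift
  have : f ∈ (fun g : α → ℝ => g ∘ φ) '' H' := by rw [h2]; exact mem_singleton f
  obtain ⟨g, hg, rfl⟩ := this
  exact ⟨g, h1.mono_right (singleton_subset_iff.2 hg), rfl⟩

/-! ### Closure -/

/-- The functions computable from `G` with any number of gates. -/
inductive Cl (G : Set (α → ℝ)) : (α → ℝ) → Prop
  | base {f : α → ℝ} (hf : f ∈ G) : Cl G f
  | arith (op : Op) {f g : α → ℝ} (hf : Cl G f) (hg : Cl G g) :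
      Cl G (fun a => op.eval (f a) (g a))
  | sel {f g h : α → ℝ} (hf : Cl G f) (hg : Cl G g) (hh : Cl G h) :
      Cl G (fun a => if 0 ≤ f a then g a else h a)

lemma Ext.cl {s : ℕ} {G G' : Set (α → ℝ)} (h : Ext s G G') : ∀ f ∈ G', Cl G f := by
  induction h with
  | refl => intro f hf; exact Cl.base hf
  | @step s G G' f h hf ih =>
    intro g hg
    rcases mem_insert_iff.1 hg with rfl | hg
    · cases hf with
      | arith op h1 h2 => exact Cl.arith op (ih _ h1) (ih _ h2)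
      | sel h1 h2 h3 => exact Cl.sel (ih _ h1) (ih _ h2) (ih _ h3)
    · exact ih g hg

lemma Cx.cl {s : ℕ} {G : Set (α → ℝ)} {f : α → ℝ} (h : Cx G s {f}) : Cl G f := by
  obtain ⟨s', _, G', h2, h3⟩ := h
  exact h2.cl f (h3 rfl)

lemma Cl.cx {G : Set (α → ℝ)} {f : α → ℝ} (h : Cl G f) : ∃ s, Cx G s {f} := by
  induction h with
  | base hf => exact ⟨0, Cx.of_mem hf 0⟩
  | arith op _ _ ih1 ih2 =>
    obtain ⟨s, hs⟩ := ih1
    obtain ⟨t, ht⟩ := ih2
    exact ⟨_, hs.arith op ht⟩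
  | sel _ _ _ ih1 ih2 ih3 =>
    obtain ⟨s, hs⟩ := ih1
    obtain ⟨t, ht⟩ := ih2
    obtain ⟨u, hu⟩ := ih3
    exact ⟨_, hs.sel ht hu⟩

lemma Cl.mono {G G' : Set (α → ℝ)} (h : G ⊆ G') {f : α → ℝ} (hf : Cl G f) : Cl G' f := by
  induction hf with
  | base hf => exact Cl.base (h hf)
  | arith op _ _ ih1 ih2 => exact Cl.arith op ih1 ih2
  | sel _ _ _ ih1 ih2 ih3 => exact Cl.sel ih1 ih2 ih3

lemma Cl.trans {G G' : Set (α → ℝ)} (h : ∀ g ∈ G', Cl G g) {f : α → ℝ} (hf : Cl G' f) :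
    Cl G f := by
  induction hf with
  | base hf => exact h _ hf
  | arith op _ _ ih1 ih2 => exact Cl.arith op ih1 ih2
  | sel _ _ _ ih1 ih2 ih3 => exact Cl.sel ih1 ih2 ih3

lemma Cl.comp {G : Set (α → ℝ)} {f : α → ℝ} (h : Cl G f) (φ : β → α) :
    Cl ((fun g : α → ℝ => g ∘ φ) '' G) (f ∘ φ) := by
  induction h with
  | base hf => exact Cl.base (mem_image_of_mem _ hf)
  | arith op _ _ ih1 ih2 => exact Cl.arith op ih1 ih2
  | sel _ _ _ ih1 ih2 ih3 => exact Cl.sel ih1 ih2 ih3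

/-- The closure of a countable set is countable. -/
lemma countable_cl {G : Set (α → ℝ)} (hG : G.Countable) : {f | Cl G f}.Countable := by
  let F : ℕ → Set (α → ℝ) := fun n => Nat.rec G (fun _ S =>
    S ∪ (⋃ op : Op, image2 (fun f g => fun a => op.eval (f a) (g a)) S S) ∪
      (image2 (fun (f : α → ℝ) (p : (α → ℝ) × (α → ℝ)) => fun a => if 0 ≤ f a then p.1 a else p.2 a)
        S (S ×ˢ S))) n
  have hop : Countable Op := by
    have : Function.Injective (fun o : Op => match o with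
      | .add => 0 | .sub => 1 | .mul => 2 | .div => (3 : ℕ)) := by
      intro a b h
      cases a <;> cases b <;> simp_all
    exact this.countable
  have hFc : ∀ n, (F n).Countable := by
    intro n
    induction n with
    | zero => exact hG
    | succ n ih =>
      refine (ih.union (countable_iUnion fun op => ih.image2 ih _)).union ?_
      exact ih.image2 (ih.prod ih) _
  have hFs : ∀ n, F n ⊆ F (n + 1) := by
    intro n f hf
    exact Or.inl (Or.inl hf)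
  have hFm : Monotone F := monotone_nat_of_le_succ hFs
  refine (countable_iUnion hFc).mono ?_
  intro f hf
  rw [mem_iUnion]
  induction hf with
  | base hf => exact ⟨0, hf⟩
  | @arith op f g _ _ ih1 ih2 =>
    obtain ⟨n, hn⟩ := ih1
    obtain ⟨k, hk⟩ := ih2
    refine ⟨max n k + 1, Or.inl (Or.inr ?_)⟩
    rw [mem_iUnion]
    exact ⟨op, f, hFm (le_max_left _ _) hn, g, hFm (le_max_right _ _) hk, rfl⟩
  | @sel f g h _ _ _ ih1 ih2 ih3 =>
    obtain ⟨n, hn⟩ := ih1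
    obtain ⟨k, hk⟩ := ih2
    obtain ⟨l, hl⟩ := ih3
    refine ⟨max n (max k l) + 1, Or.inr ?_⟩
    refine ⟨f, hFm (le_max_left _ _) hn, (g, h), ⟨?_, ?_⟩, rfl⟩
    · exact hFm ((le_max_left _ _).trans (le_max_right _ _)) hk
    · exact hFm ((le_max_right _ _).trans (le_max_right _ _)) hl

end Pool.Agent.W_MP_25fb88_lc
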