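import Pool.Agent.W_MP_25fb88_lc.Universal

/-!
# From straight line computations to machines
-/

namespace Pool.Agent.W_MP_25fb88_lc

open Set

/-- Straight-line instructions on a memory with natural addresses. -/
inductive SI
  | one (p : ℕ)
  | arith (op : Op) (p q r : ℕ)
  | sel (p q r s : ℕ)

/-- Effect. -/
noncomputable def SI.exec : SI → (ℕ → ℝ) → (ℕ → ℝ)
  | .one p, m => Function.update m p 1
  | .arith op p q r, m => Function.update m p (op.eval (m q) (m r))
  | .sel p q r s, m => Function.update m p (if 0 ≤ m q then m r else m s)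

/-- All addresses are less than `D`. -/
def SI.lt (D : ℕ) : SI → Prop
  | .one p => p < D
  | .arith _ p q r => p < D ∧ q < D ∧ r < D
  | .sel p q r s => p < D ∧ q < D ∧ r < D ∧ s < D

lemma SI.lt_mono {D D' : ℕ} (h : D ≤ D') {i : SI} (hi : i.lt D) : i.lt D' := by
  cases i <;> simp only [SI.lt] at hi ⊢ <;> omega

/-- Effect of a program. -/
noncomputable def execS (l : List SI) (m : ℕ → ℝ) : ℕ → ℝ := l.foldl (fun m i => i.exec m) m

@[simp] lemma execS_nil (m : ℕ → ℝ) : execS [] m = m := rfl
@[simp] lemma execS_cons (i : SI) (l : List SI) (m : ℕ → ℝ) :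
    execS (i :: l) m = execS l (i.exec m) := rfl
lemma execS_append (l l' : List SI) (m : ℕ → ℝ) :
    execS (l ++ l') m = execS l' (execS l m) := by
  simp [execS, List.foldl_append]

/-- Every straight line computation is realised by a program. -/
lemma exists_program {N s : ℕ} {G' : Set ((ℕ → ℝ) → ℝ)} (h : Ext s (BaseN N) G') :
    ∃ P : List SI, P.length = s + 2 ∧ (∀ i ∈ P, i.lt (N + 2 + s)) ∧
      ∀ g ∈ G', ∃ a < N + 2 + s, ∀ m, execS P m a = g m := by
  suffices H : ∀ {G G' : Set ((ℕ → ℝ) → ℝ)}, Ext s G G' → G = BaseN N →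
      ∃ P : List SI, P.length = s + 2 ∧ (∀ i ∈ P, i.lt (N + 2 + s)) ∧
      ∀ g ∈ G', ∃ a < N + 2 + s, ∀ m, execS P m a = g m from H h rfl
  clear h
  intro G G' h hG
  induction h with
  | refl G =>
    subst hG
    refine ⟨[.one N, .arith .sub (N + 1) N N], rfl, ?_, ?_⟩
    · intro i hi
      simp only [List.mem_cons, List.not_mem_nil, or_false] at hi
      rcases hi with rfl | rfl <;> simp [SI.lt]
    · rintro g (rfl | rfl | ⟨i, hi, rfl⟩)
      · refine ⟨N + 1, by omega, fun m => ?_⟩
        simp [SI.exec, Op.eval]
      · refine ⟨N, by omega, fun m => ?_⟩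
        simp [SI.exec]
      · refine ⟨i, by omega, fun m => ?_⟩
        simp [SI.exec, Function.update_of_ne (show i ≠ N + 1 by omega),
          Function.update_of_ne (show i ≠ N by omega)]
  | @step s G G' f h hf ih =>
    obtain ⟨P, hP1, hP2, hP3⟩ := ih hG
    obtain ⟨i, hi1, hi2, hi3⟩ : ∃ i : SI, i.lt (N + 2 + (s + 1)) ∧
        (∀ m a, a < N + 2 + s → execS (P ++ [i]) m a = execS P m a) ∧
        ∀ m, execS (P ++ [i]) m (N + 2 + s) = f m := by
      cases hf with
      | @arith op g1 g2 h1 h2 =>
        obtain ⟨a1, ha1, he1⟩ := hP3 g1 h1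
        obtain ⟨a2, ha2, he2⟩ := hP3 g2 h2
        refine ⟨.arith op (N + 2 + s) a1 a2, ⟨by omega, by omega, by omega⟩, ?_, ?_⟩
        · intro m a ha
          simp only [execS_append, execS_cons, execS_nil, SI.exec]
          rw [Function.update_of_ne (by omega)]
        · intro m
          simp only [execS_append, execS_cons, execS_nil, SI.exec]
          rw [Function.update_self, he1, he2]
      | @sel g1 g2 g3 h1 h2 h3 =>
        obtain ⟨a1, ha1, he1⟩ := hP3 g1 h1
        obtain ⟨a2, ha2, he2⟩ := hP3 g2 h2
        obtain ⟨a3, ha3, he3⟩ := hP3 g3 h3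
        refine ⟨.sel (N + 2 + s) a1 a2 a3, ⟨by omega, by omega, by omega, by omega⟩, ?_, ?_⟩
        · intro m a ha
          simp only [execS_append, execS_cons, execS_nil, SI.exec]
          rw [Function.update_of_ne (by omega)]
        · intro m
          simp only [execS_append, execS_cons, execS_nil, SI.exec]
          rw [Function.update_self, he1, he2, he3]
    refine ⟨P ++ [i], by simp [hP1], ?_, ?_⟩
    · intro j hj
      rw [List.mem_append, List.mem_singleton] at hj
      rcases hj with hj | rfl
      · exact SI.lt_mono (by omega) (hP2 j hj)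
      · exact hi1
    · intro g hg
      rcases mem_insert_iff.1 hg with rfl | hg
      · exact ⟨N + 2 + s, by omega, hi3⟩
      · obtain ⟨a, ha, he⟩ := hP3 g hg
        exact ⟨a, by omega, fun m => by rw [hi2 m a ha, he]⟩

/-- Perform `o` at address `p`, starting and ending at address `0`. -/
def atAddr (p : ℕ) (o : TOp) : List TOp :=
  List.replicate p .right ++ ([o] ++ List.replicate p .left)

lemma execT_right (p : ℕ) (v : VState) :
    execT (List.replicate p .right) v = { v with h := v.h + p } := by
  induction p generalizing v with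
  | zero => simp
  | succ p ih =>
    rw [List.replicate_succ, execT_cons, ih]
    simp only [TOp.exec, VState.mk.injEq, true_and, and_true]
    push_cast
    ring

lemma execT_left (p : ℕ) (v : VState) :
    execT (List.replicate p .left) v = { v with h := v.h - p } := by
  induction p generalizing v with
  | zero => simp
  | succ p ih =>
    rw [List.replicate_succ, execT_cons, ih]
    simp only [TOp.exec, VState.mk.injEq, true_and, and_true]
    push_cast
    ring

lemma atAddr_length (p : ℕ) (o : TOp) : (atAddr p o).length = 2 * p + 1 := by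
  simp [atAddr]
  omega

lemma exec_loadA (p : ℕ) (v : VState) (h : v.h = 0) :
    execT (atAddr p .loadA) v = { v with A := v.m p } := by
  rw [atAddr, execT_append, execT_append, execT_right, execT_left]
  simp [TOp.exec, h]

lemma exec_loadB (p : ℕ) (v : VState) (h : v.h = 0) :
    execT (atAddr p .loadB) v = { v with B := v.m p } := by
  rw [atAddr, execT_append, execT_append, execT_right, execT_left]
  simp [TOp.exec, h]

lemma exec_loadC (p : ℕ) (v : VState) (h : v.h = 0) :
    execT (atAddr p .loadC) v = { v with C := v.m p } := by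
  rw [atAddr, execT_append, execT_append, execT_right, execT_left]
  simp [TOp.exec, h]

lemma exec_store (p : ℕ) (v : VState) (h : v.h = 0) :
    execT (atAddr p .store) v = { v with m := Function.update v.m p v.A } := by
  rw [atAddr, execT_append, execT_append, execT_right, execT_left]
  simp [TOp.exec, h]

/-- Compilation of an instruction. -/
def comp : SI → List TOp
  | .one p => [.one] ++ atAddr p .store
  | .arith op p q r => atAddr q .loadA ++ (atAddr r .loadB ++ ([.arith op] ++ atAddr p .store))
  | .sel p q r s => atAddr q .loadC ++ (atAddr r .loadA ++ (atAddr s .loadB ++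
      ([.select] ++ atAddr p .store)))

lemma comp_length {D : ℕ} {i : SI} (hi : i.lt D) : (comp i).length ≤ 8 * D + 5 := by
  cases i <;> simp only [SI.lt] at hi <;>
    simp only [comp, List.length_append, atAddr_length, List.length_cons, List.length_nil] <;>
    omega

/-- The virtual memory restricted to nonnegative addresses. -/
def VState.nat (v : VState) : ℕ → ℝ := fun a => v.m a

lemma update_nat (m : ℤ → ℝ) (p : ℕ) (a : ℝ) :
    (fun i : ℕ => Function.update m (p : ℤ) a i) = Function.update (fun i : ℕ => m i) p a := by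
  funext i
  by_cases h : i = p
  · subst h; simp
  · rw [Function.update_of_ne h, Function.update_of_ne (by exact_mod_cast h)]

lemma exec_comp (i : SI) (v : VState) (h : v.h = 0) :
    (execT (comp i) v).h = 0 ∧ (execT (comp i) v).nat = i.exec v.nat := by
  cases i with
  | one p =>
    rw [comp, execT_append, execT_cons, execT_nil, exec_store _ _ (by simpa [TOp.exec] using h)]
    exact ⟨h, update_nat _ _ _⟩
  | arith op p q r =>
    rw [comp, execT_append, exec_loadA _ _ h, execT_append,
      exec_loadB _ _ (by simpa using h), execT_append, execT_cons, execT_nil,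
      exec_store _ _ (by simpa [TOp.exec] using h)]
    exact ⟨h, update_nat _ _ _⟩
  | sel p q r s =>
    rw [comp, execT_append, exec_loadC _ _ h, execT_append,
      exec_loadA _ _ (by simpa using h), execT_append, exec_loadB _ _ (by simpa using h),
      execT_append, execT_cons, execT_nil, exec_store _ _ (by simpa [TOp.exec] using h)]
    exact ⟨h, update_nat _ _ _⟩

lemma exec_comps (P : List SI) (v : VState) (h : v.h = 0) :
    (execT (P.flatMap comp) v).h = 0 ∧ (execT (P.flatMap comp) v).nat = execS P v.nat := by
  induction P generalizing v with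
  | nil => exact ⟨h, rfl⟩
  | cons i P ih =>
    obtain ⟨h1, h2⟩ := exec_comp i v h
    obtain ⟨h3, h4⟩ := ih _ h1
    rw [List.flatMap_cons, execT_append]
    exact ⟨h3, by rw [h4, h2, execS_cons]⟩

lemma comps_length {D : ℕ} (P : List SI) (hP : ∀ i ∈ P, i.lt D) :
    (P.flatMap comp).length ≤ P.length * (8 * D + 5) := by
  induction P with
  | nil => simp
  | cons i P ih =>
    rw [List.flatMap_cons, List.length_append, List.length_cons, Nat.succ_mul]
    have h1 := comp_length (hP i (by simp))
    have h2 := ih fun j hj => hP j (by simp [hj])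
    omega

lemma opsBits_length (ops : List TOp) : (opsBits ops).length ≤ 13 * ops.length + 1 := by
  unfold opsBits
  rw [List.length_append]
  simp only [List.length_cons, List.length_nil]
  have : (ops.flatMap bits).length ≤ 13 * ops.length := by
    induction ops with
    | nil => simp
    | cons o ops ih =>
      rw [List.flatMap_cons, List.length_append, List.length_cons, bits_length]
      have := code_lt o
      omega
  omega

/-- The program deciding a problem on inputs of a given size. -/
lemma Dec.program {d : ℕ} {c : ℕ → ℝ} {n : ℕ} {A : Set RInf} {s : ℕ} (h : Dec d c n A s) :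
    ∃ ops : List TOp, ops.length ≤ (s + 3) * (8 * (d + n + 2 + s) + 5) ∧
      ∀ x : RInf, x.size = n → ∀ v : VState, v.m = memZ d c x.1 → v.h = 0 →
        (x ∈ A → (execT ops v).A = 1) ∧ (x ∉ A → (execT ops v).A = 0) := by
  obtain ⟨f, ⟨s', hs, G', hG, hf⟩, hx⟩ := h
  obtain ⟨P, hP1, hP2, hP3⟩ := exists_program hG
  obtain ⟨a, ha, he⟩ := hP3 f (hf rfl)
  refine ⟨P.flatMap comp ++ atAddr a .loadA, ?_, ?_⟩
  · rw [List.length_append, atAddr_length]
    have h1 := comps_length P hP2
    rw [hP1] at h1
    have h2 : (s' + 2) * (8 * (d + n + 2 + s') + 5) ≤ (s + 2) * (8 * (d + n + 2 + s) + 5) :=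
      Nat.mul_le_mul (by omega) (by omega)
    have h3 : (s + 3) * (8 * (d + n + 2 + s) + 5) =
        (s + 2) * (8 * (d + n + 2 + s) + 5) + (8 * (d + n + 2 + s) + 5) := by ring
    omega
  · intro x hxn v hv1 hv2
    obtain ⟨h1, h2⟩ := exec_comps P v hv2
    have h3 : (execT (P.flatMap comp ++ atAddr a .loadA) v).A = f (mem d c x.1) := by
      rw [execT_append, exec_loadA _ _ h1]
      have h4 : v.nat = mem d c x.1 := by
        funext i
        unfold VState.nat
        rw [hv1]
        simp [memZ]
      have h5 := congrFun h2 a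
      rw [he, h4] at h5
      exact h5
    rw [h3]
    exact hx x hxn

/-- Evaluation of polynomials with natural coefficients is monotone. -/
lemma eval_mono (p : Polynomial ℕ) {m n : ℕ} (h : m ≤ n) : p.eval m ≤ p.eval n := by
  rw [Polynomial.eval_eq_sum_range, Polynomial.eval_eq_sum_range]
  refine Finset.sum_le_sum fun i _ => ?_
  exact Nat.mul_le_mul_left _ (Nat.pow_le_pow_left h i)

/-- **From straight line computations to `P_ℝ`.** -/
theorem inP_of_dec {A : Set RInf} (d : ℕ) (c : ℕ → ℝ) (P : Polynomial ℕ)
    (h : ∀ n, 1 ≤ n → Dec d c n A (P.eval n)) : InP A := by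
  have h' : ∀ n, ∃ ops : List TOp,
      ops.length ≤ (P.eval n + 3) * (8 * (d + n + 2 + P.eval n) + 5) ∧
      ∀ x : RInf, x.size = n → ∀ v : VState, v.m = memZ d c x.1 → v.h = 0 →
        (x ∈ A → (execT ops v).A = 1) ∧ (x ∉ A → (execT ops v).A = 0) := by
    intro n
    by_cases hn : 1 ≤ n
    · exact (h n hn).program
    · refine ⟨[], Nat.zero_le _, fun x hx => ?_⟩
      exfalso
      have := List.length_pos_of_ne_nil x.2
      unfold RInf.size at hx
      omega
  choose ops hops1 hops2 using h'
  obtain ⟨M, C, hM⟩ := exists_universal d c ops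
  let L : Polynomial ℕ := (P + 3) * (8 * (Polynomial.C d + Polynomial.X + 2 + P) + 5)
  have hL : ∀ n, L.eval n = (P.eval n + 3) * (8 * (d + n + 2 + P.eval n) + 5) := by
    intro n
    simp [L]
  refine ⟨M, Polynomial.C C + Polynomial.X * (4 + 16 * (13 * L + 1)) + 16 * (13 * L + 1),
    fun x => ?_⟩
  obtain ⟨v, hv1, hv2, hv3⟩ := hM x
  have hb : C + (∑ k ∈ Finset.range x.size, (4 + 16 * (opsBits (ops k)).length)) +
      16 * (opsBits (ops x.size)).length ≤
      (Polynomial.C C + Polynomial.X * (4 + 16 * (13 * L + 1)) + 16 * (13 * L + 1)).eval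
        x.size := by
    have h1 : ∀ k, k ≤ x.size → (opsBits (ops k)).length ≤ 13 * L.eval x.size + 1 := by
      intro k hk
      have h2 := opsBits_length (ops k)
      have h3 := hops1 k
      rw [← hL] at h3
      have h4 := eval_mono L hk
      omega
    have h5 : (∑ k ∈ Finset.range x.size, (4 + 16 * (opsBits (ops k)).length)) ≤
        x.size * (4 + 16 * (13 * L.eval x.size + 1)) := by
      calc _ ≤ ∑ k ∈ Finset.range x.size, (4 + 16 * (13 * L.eval x.size + 1)) := by
            refine Finset.sum_le_sum fun k hk => ?_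
            have := h1 k (Finset.mem_range.1 hk).le
            omega
        _ = _ := by simp
    have h6 := h1 x.size le_rfl
    have h7 : (Polynomial.C C + Polynomial.X * (4 + 16 * (13 * L + 1)) +
        16 * (13 * L + 1)).eval x.size = C + x.size * (4 + 16 * (13 * L.eval x.size + 1)) +
          16 * (13 * L.eval x.size + 1) := by
      simp
    rw [h7]
    omega
  obtain ⟨h1, h2⟩ := hv3 _ hb
  refine ⟨h1, ?_⟩
  rw [h2]
  exact hops2 x.size x rfl v hv1 hv2

end Pool.Agent.W_MP_25fb88_lc
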