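import Mathlib

/-!
# Blum–Shub–Smale machines over the real numbers, `P_ℝ`, `NP_ℝ` and `NP_ℝ`-completeness
-/

namespace Pool.Agent.W_MP_25fb88_lc

/-- The arithmetic operations of a BSS machine. -/
inductive Op
  | add | sub | mul | div

/-- The real function computed by an operation (division by zero has value `0`). -/
noncomputable def Op.eval : Op → ℝ → ℝ → ℝ
  | .add, a, b => a + b
  | .sub, a, b => a - b
  | .mul, a, b => a * b
  | .div, a, b => a / b

/-- The nodes of a BSS machine with set of node labels `Q`.  The machine works on registers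
`x_i`, `i ∈ ℤ`, holding real numbers.
* `const i a q`: `x_i := a`, then go to node `q` (`a` is a real constant of the machine);
* `copy i j q`: `x_i := x_j`, then go to `q`;
* `arith op i j k q`: `x_i := x_j op x_k`, then go to `q`;
* `shiftLeft q`, `shiftRight q`: shift all registers by one place, then go to `q`;
* `branch i q q'`: if `x_i ≥ 0` go to `q`, otherwise go to `q'`;
* `halt`: stop. -/
inductive Node (Q : Type) : Type
  | const (i : ℤ) (a : ℝ) (next : Q)
  | copy (i j : ℤ) (next : Q)
  | arith (op : Op) (i j k : ℤ) (next : Q)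
  | shiftLeft (next : Q)
  | shiftRight (next : Q)
  | branch (i : ℤ) (yes no : Q)
  | halt

/-- A BSS machine over `ℝ`: a finite set of labelled nodes with a start node. -/
structure Machine : Type 1 where
  Q : Type
  finite : Finite Q
  start : Q
  node : Q → Node Q

/-- One computation step: a configuration is a node label together with the contents of the
registers. -/
noncomputable def Machine.step (M : Machine) (c : M.Q × (ℤ → ℝ)) : M.Q × (ℤ → ℝ) :=
  match M.node c.1 with
  | .const i a q => (q, Function.update c.2 i a)
  | .copy i j q => (q, Function.update c.2 i (c.2 j))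
  | .arith op i j k q => (q, Function.update c.2 i (op.eval (c.2 j) (c.2 k)))
  | .shiftLeft q => (q, fun i => c.2 (i + 1))
  | .shiftRight q => (q, fun i => c.2 (i - 1))
  | .branch i q q' => (if 0 ≤ c.2 i then q else q', c.2)
  | .halt => c

/-- The space `ℝ^∞` of nonempty finite sequences of real numbers. -/
def RInf : Type := {x : List ℝ // x ≠ []}

/-- The size of a point of `ℝ^∞`. -/
def RInf.size (x : RInf) : ℕ := x.1.length

/-- The register contents representing `x = (x_1, …, x_n)`: register `0` holds the size `n`,
register `i` holds `x_i` for `1 ≤ i ≤ n` and all other registers hold `0`. -/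
noncomputable def load (x : RInf) : ℤ → ℝ := fun i =>
  if i = 0 then (x.size : ℝ) else if 0 < i then x.1.getD (i.toNat - 1) 0 else 0

/-- The configuration of `M` on input `x` after `t` steps. -/
noncomputable def Machine.run (M : Machine) (x : RInf) (t : ℕ) : M.Q × (ℤ → ℝ) :=
  M.step^[t] (M.start, load x)

/-- `M` on input `x` has halted after (at most) `t` steps. -/
def Machine.Halted (M : Machine) (x : RInf) (t : ℕ) : Prop :=
  M.node (M.run x t).1 = Node.halt

/-- The class `P_ℝ`: the decision problem `L` is decided by some BSS machine in polynomial time;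
the answer (`1` for yes, `0` for no) is found in register `0`. -/
def InP (L : Set RInf) : Prop :=
  ∃ (M : Machine) (p : Polynomial ℕ), ∀ x : RInf,
    M.Halted x (p.eval x.size) ∧
    (x ∈ L → (M.run x (p.eval x.size)).2 0 = 1) ∧
    (x ∉ L → (M.run x (p.eval x.size)).2 0 = 0)

/-- The pair `(x, y)` as a point of `ℝ^∞`: the size of `x`, then `x`, then `y`. -/
def pair (x : RInf) (y : List ℝ) : RInf :=
  ⟨(x.size : ℝ) :: (x.1 ++ y), List.cons_ne_nil _ _⟩

/-- The class `NP_ℝ`: there are a polynomial-time decidable set `B` and a polynomial `q` such that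
`x ∈ L` iff some real certificate `y ∈ ℝ^{q(|x|)}` satisfies `(x, y) ∈ B`. -/
def InNP (L : Set RInf) : Prop :=
  ∃ (B : Set RInf) (q : Polynomial ℕ), InP B ∧
    ∀ x : RInf, x ∈ L ↔ ∃ y : List ℝ, y.length = q.eval x.size ∧ pair x y ∈ B

/-- `f : ℝ^∞ → ℝ^∞` is computable by a BSS machine in polynomial time, with output in registers
`0, 1, …, |f(x)|` in the format of `load`, and with output of polynomially bounded size. -/
def PolyTime (f : RInf → RInf) : Prop :=
  ∃ (M : Machine) (p : Polynomial ℕ), ∀ x : RInf,
    M.Halted x (p.eval x.size) ∧ (f x).size ≤ p.eval x.size ∧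
    ∀ i : ℤ, 0 ≤ i → i ≤ (f x).size → (M.run x (p.eval x.size)).2 i = load (f x) i

/-- Polynomial-time many-one reducibility. -/
def Reduces (L L' : Set RInf) : Prop :=
  ∃ f : RInf → RInf, PolyTime f ∧ ∀ x : RInf, x ∈ L ↔ f x ∈ L'

/-- `NP_ℝ`-completeness. -/
def NPComplete (L : Set RInf) : Prop :=
  InNP L ∧ ∀ L' : Set RInf, InNP L' → Reduces L' L

end Pool.Agent.W_MP_25fb88_lc
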