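import Mathlib

/-!
# A fusion argument: analytic ideals are combinatorially small

If `Y` is a Polish space and `E n` are Borel subsets of `Y` such that no two points of `Y` together
lie in cofinitely many of the `E n`, then `ℕ` can be cut into consecutive finite intervals such that
every point of `Y` belongs to all `E n` with `n` in the interval only for finitely many intervals.
-/

namespace Pool.Agent.W_MP_25fb88_lc

open Set Filter Topology

section Small

variable {Y : Type} (E : ℕ → Set Y)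

/-- Smallness of a set of points. -/
def Small (U : Set Y) : Prop :=
  ∃ m : ℕ → ℕ, StrictMono m ∧ ∀ c ∈ U, {k | ∀ n, m k ≤ n → n < m (k + 1) → c ∈ E n}.Finite

variable {E}

lemma Small.subset {U V : Set Y} (h : Small E U) (hV : V ⊆ U) : Small E V := by
  obtain ⟨m, h1, h2⟩ := h
  exact ⟨m, h1, fun c hc => h2 c (hV hc)⟩

lemma small_empty : Small E (∅ : Set Y) := ⟨id, strictMono_id, fun _ hc => hc.elim⟩

lemma small_iUnion {U : ℕ → Set Y} (h : ∀ j, Small E (U j)) : Small E (⋃ j, U j) := by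
  choose m hm1 hm2 using h
  let M : ℕ → ℕ := fun k => Nat.rec 0 (fun k Mk =>
    ((Finset.range (k + 1)).sup fun j => m j (Mk + 1)) + Mk + 1) k
  have hMs : ∀ k, M (k + 1) = ((Finset.range (k + 1)).sup fun j => m j (M k + 1)) + M k + 1 :=
    fun k => rfl
  have hMm : StrictMono M := strictMono_nat_of_lt_succ fun k => by rw [hMs]; omega
  refine ⟨M, hMm, ?_⟩
  intro c hc
  rw [mem_iUnion] at hc
  obtain ⟨j, hj⟩ := hc
  have h1 := hm2 j c hj
  have h2 : {k | ∀ n, M k ≤ n → n < M (k + 1) → c ∈ E n} ⊆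
      (Finset.range j : Set ℕ) ∪
        M ⁻¹' {k | ∀ n, m j k ≤ n → n < m j (k + 1) → c ∈ E n} := by
    intro k hk
    by_cases hkj : k < j
    · left
      simpa using hkj
    · right
      intro n hn1 hn2
      refine hk n ((hm1 j).le_apply.trans hn1) (hn2.trans_le ?_)
      rw [hMs]
      have h3 : m j (M k + 1) ≤ (Finset.range (k + 1)).sup fun j => m j (M k + 1) :=
        Finset.le_sup (f := fun j => m j (M k + 1)) (Finset.mem_range.2 (by omega))
      omega
  refine ((Finset.range j).finite_toSet.union (h1.preimage hMm.injective.injOn)).subset h2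

lemma small_union {U V : Set Y} (hU : Small E U) (hV : Small E V) : Small E (U ∪ V) := by
  have h : ∀ j : ℕ, Small E (if j = 0 then U else V) := by
    intro j
    split_ifs
    · exact hU
    · exact hV
  refine (small_iUnion h).subset ?_
  rintro x (hx | hx)
  · exact mem_iUnion.2 ⟨0, by simpa using hx⟩
  · exact mem_iUnion.2 ⟨1, by simpa using hx⟩

lemma small_sUnion {S : Set (Set Y)} (hS : S.Countable) (h : ∀ U ∈ S, Small E U) :
    Small E (⋃₀ S) := by
  rcases S.eq_empty_or_nonempty with rfl | hne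
  · simpa using small_empty
  · obtain ⟨f, rfl⟩ := hS.exists_eq_range hne
    rw [sUnion_range]
    exact small_iUnion fun j => h _ (mem_range_self j)

lemma not_small {U : Set Y} (h : ¬ Small E U) :
    ∃ p, ∀ q, ∃ c ∈ U, ∀ n, p ≤ n → n < q → c ∈ E n := by
  by_contra hcon
  push Not at hcon
  apply h
  rcases U.eq_empty_or_nonempty with rfl | ⟨u, hu⟩
  · exact small_empty
  choose q hq using hcon
  let m : ℕ → ℕ := fun k => Nat.rec 0 (fun _ mk => q mk) k
  have hms : ∀ k, m (k + 1) = q (m k) := fun k => rfl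
  refine ⟨m, strictMono_nat_of_lt_succ fun k => ?_, fun c hc => ?_⟩
  · rw [hms]
    obtain ⟨n, h1, h2, _⟩ := hq (m k) u hu
    omega
  · have h1 : {k | ∀ n, m k ≤ n → n < m (k + 1) → c ∈ E n} = ∅ := by
      rw [eq_empty_iff_forall_notMem]
      intro k hk
      obtain ⟨n, h1, h2, h3⟩ := hq (m k) c hc
      exact h3 (hk n h1 (by rw [hms]; exact h2))
    rw [h1]
    exact finite_empty

end Small

/-- The fusion argument for clopen sets. -/
theorem exists_partition_clopen {Y : Type} [MetricSpace Y] [CompleteSpace Y]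
    [SecondCountableTopology Y] (E : ℕ → Set Y) (hE : ∀ n, IsOpen (E n))
    (h2 : ∀ c₁ c₂ : Y, ∀ p : ℕ, ∃ n, p ≤ n ∧ c₁ ∉ E n ∧ c₂ ∉ E n) : Small E (univ : Set Y) := by
  by_contra hns
  set O : Set Y := ⋃₀ {B | B ∈ TopologicalSpace.countableBasis Y ∧ Small E B} with hO
  have hOs : Small E O := small_sUnion
    ((TopologicalSpace.countable_countableBasis Y).mono fun B hB => hB.1) fun B hB => hB.2
  have hW : ∀ W : Set Y, IsOpen W → (W ∩ Oᶜ).Nonempty → ¬ Small E (W ∩ Oᶜ) := by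
    rintro W hWo ⟨c, hcW, hcO⟩ hsm
    have h1 : Small E W := (small_union hsm hOs).subset fun x hx => by
      by_cases hxO : x ∈ O
      · exact Or.inr hxO
      · exact Or.inl ⟨hx, hxO⟩
    obtain ⟨B, hB1, hB2, hB3⟩ :=
      (TopologicalSpace.isBasis_countableBasis Y).exists_subset_of_mem_open hcW hWo
    exact hcO ⟨B, ⟨hB1, h1.subset hB3⟩, hB2⟩
  have huniv : ((univ : Set Y) ∩ Oᶜ).Nonempty := by
    by_contra hcon
    rw [not_nonempty_iff_eq_empty] at hcon
    apply hns
    refine hOs.subset fun x _ => ?_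
    by_contra hx
    have : x ∈ (univ : Set Y) ∩ Oᶜ := ⟨mem_univ x, hx⟩
    rw [hcon] at this
    exact this
  -- states of the game
  let good : Set Y × Set Y × ℕ → Prop := fun s =>
    IsOpen s.1 ∧ (s.1 ∩ Oᶜ).Nonempty ∧ IsOpen s.2.1 ∧ (s.2.1 ∩ Oᶜ).Nonempty ∧
      ∀ q, ∃ c ∈ s.1 ∩ Oᶜ, ∀ n, s.2.2 ≤ n → n < q → c ∈ E n
  have hstep : ∀ (k : ℕ) (s : {s // good s}), ∃ s' : {s // good s},
      s'.1.1 = s.1.2.1 ∧ s.1.2.2 < s'.1.2.2 ∧
      (∃ (c : Y) (r : ℝ), 0 < r ∧ r ≤ 1 / (k + 1) ∧ s'.1.2.1 = Metric.ball c r ∧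
        Metric.closedBall c r ⊆ s.1.1) ∧
      ∀ n, s.1.2.2 ≤ n → n < s'.1.2.2 → s'.1.2.1 ⊆ E n := by
    rintro k ⟨⟨W1, W2, p⟩, hW1, hW1', hW2, hW2', hp⟩
    simp only at hW1 hW1' hW2 hW2' hp ⊢
    obtain ⟨p2, hp2⟩ := not_small (hW W2 hW2 hW2')
    obtain ⟨c, hc, hcE⟩ := hp (p + p2 + 1)
    have hopen : IsOpen (W1 ∩ ⋂ n ∈ Finset.Ico p (p + p2 + 1), E n) :=
      hW1.inter (isOpen_biInter_finset fun n _ => hE n)
    have hmem : c ∈ W1 ∩ ⋂ n ∈ Finset.Ico p (p + p2 + 1), E n := by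
      refine ⟨hc.1, ?_⟩
      simp only [mem_iInter, Finset.mem_Ico]
      intro n hn
      exact hcE n hn.1 hn.2
    obtain ⟨r, hr, hball⟩ := Metric.nhds_basis_closedBall.mem_iff.1 (hopen.mem_nhds hmem)
    have hr' : 0 < min r (1 / ((k : ℝ) + 1)) := lt_min hr (by positivity)
    have hsub : Metric.closedBall c (min r (1 / ((k : ℝ) + 1))) ⊆
        W1 ∩ ⋂ n ∈ Finset.Ico p (p + p2 + 1), E n :=
      (Metric.closedBall_subset_closedBall (min_le_left _ _)).trans hball
    refine ⟨⟨(W2, Metric.ball c (min r (1 / ((k : ℝ) + 1))), p + p2 + 1), hW2, hW2',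
      Metric.isOpen_ball, ⟨c, Metric.mem_ball_self hr', hc.2⟩, ?_⟩, rfl, ?_, ?_, ?_⟩
    · intro q
      obtain ⟨c', hc', hE'⟩ := hp2 q
      exact ⟨c', hc', fun n h1 h2 => hE' n (by simp only at h1; omega) h2⟩
    · simp only
      omega
    · exact ⟨c, _, hr', min_le_right _ _, rfl, hsub.trans inter_subset_left⟩
    · intro n h1 h2 x hx
      have h3 := hsub (Metric.ball_subset_closedBall hx)
      have h4 := h3.2
      simp only [mem_iInter, Finset.mem_Ico] at h4
      exact h4 n ⟨h1, h2⟩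
  choose next hn1 hn2 hn3 hn4 using hstep
  obtain ⟨p0, hp0⟩ := not_small (hW univ isOpen_univ huniv)
  let seq : ℕ → {s // good s} := fun k => Nat.rec
    ⟨(univ, univ, p0), isOpen_univ, huniv, isOpen_univ, huniv, hp0⟩ (fun k s => next k s) k
  have hseq : ∀ k, seq (k + 1) = next k (seq k) := fun k => rfl
  set V : ℕ → Set Y := fun k => (seq k).1.2.1 with hV
  set p : ℕ → ℕ := fun k => (seq k).1.2.2 with hp
  have hW1 : ∀ k, (seq (k + 1)).1.1 = V k := fun k => by rw [hseq, hn1]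
  have hpm : ∀ k, p k < p (k + 1) := fun k => by
    simp only [hp]
    rw [hseq]
    exact hn2 k (seq k)
  have hVE : ∀ k n, p k ≤ n → n < p (k + 1) → V (k + 1) ⊆ E n := fun k n h1 h2 => by
    simp only [hp, hV] at h1 h2 ⊢
    rw [hseq] at h2 ⊢
    exact hn4 k (seq k) n h1 h2
  have hball : ∀ k : ℕ, ∃ (c : Y) (r : ℝ), 0 < r ∧ r ≤ 1 / ((k : ℝ) + 1) ∧
      V (k + 1) = Metric.ball c r ∧ Metric.closedBall c r ⊆ (seq k).1.1 := fun k => by
    simp only [hV]
    rw [hseq]
    exact hn3 k (seq k)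
  choose c r hr0 hr1 hVb hsub using hball
  -- nested closed balls of the same parity
  have hnest : ∀ k : ℕ, Metric.closedBall (c (k + 2)) (r (k + 2)) ⊆ Metric.ball (c k) (r k) := by
    intro k
    have h1 := hsub (k + 2)
    rw [hW1, hVb] at h1
    exact h1
  have hlim : ∀ a : ℕ, ∃ x, ∀ i : ℕ, x ∈ Metric.closedBall (c (2 * i + a)) (r (2 * i + a)) := by
    intro a
    have hanti : Antitone fun i : ℕ => Metric.closedBall (c (2 * i + a)) (r (2 * i + a)) := by
      refine antitone_nat_of_succ_le fun i => ?_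
      have h1 := hnest (2 * i + a)
      have h2 : 2 * (i + 1) + a = 2 * i + a + 2 := by ring
      rw [h2]
      exact h1.trans Metric.ball_subset_closedBall
    have h3 : (⋂ i : ℕ, Metric.closedBall (c (2 * i + a)) (r (2 * i + a))).Nonempty := by
      refine Metric.nonempty_iInter_of_nonempty_biInter (fun i => Metric.isClosed_closedBall)
        (fun i => Metric.isBounded_closedBall) (fun N => ?_) ?_
      · refine ⟨c (2 * N + a), ?_⟩
        simp only [mem_iInter]
        intro i hi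
        exact hanti hi (Metric.mem_closedBall_self (hr0 _).le)
      · have h4 : ∀ i : ℕ, Metric.diam (Metric.closedBall (c (2 * i + a)) (r (2 * i + a))) ≤
            2 * (1 / ((i : ℝ) + 1)) := by
          intro i
          refine (Metric.diam_closedBall (hr0 _).le).trans ?_
          refine mul_le_mul_of_nonneg_left ((hr1 _).trans ?_) (by norm_num)
          apply one_div_le_one_div_of_le (by positivity)
          push_cast
          have : (0 : ℝ) ≤ i := Nat.cast_nonneg i
          have : (0 : ℝ) ≤ a := Nat.cast_nonneg a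
          linarith
        have h5 : Tendsto (fun i : ℕ => 2 * (1 / ((i : ℝ) + 1))) atTop (𝓝 (2 * 0)) :=
          tendsto_one_div_add_atTop_nhds_zero_nat.const_mul 2
        rw [mul_zero] at h5
        exact squeeze_zero (fun i => Metric.diam_nonneg) h4 h5
    obtain ⟨x, hx⟩ := h3
    exact ⟨x, fun i => mem_iInter.1 hx i⟩
  obtain ⟨c₁, hc₁⟩ := hlim 0
  obtain ⟨c₂, hc₂⟩ := hlim 1
  have hin : ∀ (a : ℕ) x, (∀ i : ℕ, x ∈ Metric.closedBall (c (2 * i + a)) (r (2 * i + a))) →
      ∀ i : ℕ, x ∈ V (2 * i + a + 1) := by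
    intro a x hx i
    rw [hVb]
    have h1 := hx (i + 1)
    have h2 : 2 * (i + 1) + a = 2 * i + a + 2 := by ring
    rw [h2] at h1
    exact hnest _ h1
  obtain ⟨n, hn, hc1, hc2⟩ := h2 c₁ c₂ (p 0)
  -- locate `n`
  have hpm' : StrictMono p := strictMono_nat_of_lt_succ hpm
  obtain ⟨k, hk1, hk2⟩ : ∃ k, p k ≤ n ∧ n < p (k + 1) := by
    have h1 : ∃ k, n < p k := ⟨n + 1, (Nat.lt_succ_self n).trans_le hpm'.le_apply⟩
    have h2 := Nat.find_spec h1
    have h3 : Nat.find h1 ≠ 0 := by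
      intro h0
      rw [h0] at h2
      omega
    obtain ⟨k, hk⟩ := Nat.exists_eq_succ_of_ne_zero h3
    refine ⟨k, ?_, ?_⟩
    · have := Nat.find_min h1 (m := k) (by omega)
      omega
    · rw [hk] at h2
      exact h2
  rcases Nat.even_or_odd' k with ⟨i, hi | hi⟩
  · refine hc1 (hVE k n hk1 hk2 ?_)
    have := hin 0 c₁ hc₁ i
    rw [hi]
    exact this
  · refine hc2 (hVE k n hk1 hk2 ?_)
    have := hin 1 c₂ hc₂ i
    rw [hi]
    exact this

/-- The fusion lemma for Borel sets in Polish spaces. -/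
theorem exists_partition {Y : Type} [τ : TopologicalSpace Y] [PolishSpace Y] [MeasurableSpace Y]
    [BorelSpace Y] (E : ℕ → Set Y) (hE : ∀ n, MeasurableSet (E n))
    (h2 : ∀ c₁ c₂ : Y, ∀ p : ℕ, ∃ n, p ≤ n ∧ c₁ ∉ E n ∧ c₂ ∉ E n) :
    ∃ m : ℕ → ℕ, StrictMono m ∧
      ∀ c : Y, {k | ∀ n, m k ≤ n → n < m (k + 1) → c ∈ E n}.Finite := by
  have h1 : ∀ n, ∃ t' : TopologicalSpace Y, t' ≤ τ ∧ @PolishSpace Y t' ∧
      IsOpen[t'] (E n) := by
    intro n
    obtain ⟨t', h1, h2, h3, h4⟩ := (hE n).isClopenable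
    exact ⟨t', h1, h2, h4⟩
  choose t ht1 ht2 ht3 using h1
  obtain ⟨t', h3, h4, h5⟩ := PolishSpace.exists_polishSpace_forall_le t ht1 ht2
  have hEo : ∀ n, IsOpen[t'] (E n) := fun n => h3 n _ (ht3 n)
  have h6 : Small E (univ : Set Y) := by
    let _ := t'
    have := h5
    let _ := TopologicalSpace.upgradeIsCompletelyMetrizable Y
    exact exists_partition_clopen E hEo h2
  obtain ⟨m, hm1, hm2⟩ := h6
  exact ⟨m, hm1, fun c => hm2 c (mem_univ c)⟩

end Pool.Agent.W_MP_25fb88_lc
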