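import Pool.Agent.W_MP_25fb88_lc.Semi
import Pool.Agent.W_MP_25fb88_lc.Fusion

/-!
# Restrictions of a problem to a set of input sizes
-/

namespace Pool.Agent.W_MP_25fb88_lc

open Set MvPolynomial

lemma Dec.le {d : ℕ} {c : ℕ → ℝ} {n : ℕ} {A : Set RInf} {s t : ℕ} (h : Dec d c n A s)
    (hst : s ≤ t) : Dec d c n A t := by
  obtain ⟨f, h1, h2⟩ := h
  exact ⟨f, h1.le hst, h2⟩

lemma Dec.congr {d : ℕ} {c : ℕ → ℝ} {n : ℕ} {A A' : Set RInf} {s : ℕ} (h : Dec d c n A s)
    (hA : ∀ x : RInf, x.size = n → (x ∈ A ↔ x ∈ A')) : Dec d c n A' s := by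
  obtain ⟨f, h1, h2⟩ := h
  refine ⟨f, h1, fun x hx => ?_⟩
  rw [← hA x hx]
  exact h2 x hx

lemma dec_empty (d : ℕ) (c : ℕ → ℝ) (n s : ℕ) {A : Set RInf}
    (hA : ∀ x : RInf, x.size = n → x ∉ A) : Dec d c n A s :=
  ⟨fun _ => 0, Cx.of_mem (zero_mem_BaseN _) s, fun x hx => ⟨fun h => absurd h (hA x hx),
    fun _ => rfl⟩⟩

lemma mem_getD (d : ℕ) (c : ℕ → ℝ) (x : List ℝ) (i : ℕ) (hi : d ≤ i) :
    mem d c x i = x.getD (i - d) 0 := by
  unfold mem
  rw [if_neg (by omega)]

lemma mem_const (d : ℕ) (c : ℕ → ℝ) (x : List ℝ) (i : ℕ) (hi : i < d) :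
    mem d c x i = c i := by
  unfold mem
  rw [if_pos hi]

/-- Change of the constants. -/
lemma Dec.embed {d : ℕ} {c : ℕ → ℝ} {n : ℕ} {A : Set RInf} {s : ℕ} (h : Dec d c n A s)
    {o d' : ℕ} {c' : ℕ → ℝ} (hod : o + d ≤ d') (hc : ∀ i < d, c' (o + i) = c i) :
    Dec d' c' n A s := by
  obtain ⟨f, h1, h2⟩ := h
  let φ : (ℕ → ℝ) → (ℕ → ℝ) := fun m i => if i < d then m (o + i) else
    if i - d < n then m (d' + (i - d)) else 0
  have hφ : ∀ x : RInf, x.size = n → φ (mem d' c' x.1) = mem d c x.1 := by
    intro x hx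
    have hx' : x.1.length = n := hx
    funext i
    by_cases hi : i < d
    · simp only [φ]
      rw [if_pos hi, mem_const _ _ _ _ (by omega), mem_const _ _ _ _ hi, hc i hi]
    · by_cases hi2 : i - d < n
      · simp only [φ]
        rw [if_neg hi, if_pos hi2, mem_getD _ _ _ _ (by omega), mem_getD _ _ _ _ (by omega)]
        congr 1
        omega
      · simp only [φ]
        rw [if_neg hi, if_neg hi2, mem_getD _ _ _ _ (by omega), List.getD_eq_default _ _ (by omega)]
  refine ⟨f ∘ φ, ?_, fun x hx => ?_⟩
  · have h3 := h1.comp φ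
    rw [image_singleton] at h3
    refine h3.mono_left ?_
    rintro _ ⟨g, (rfl | rfl | ⟨i, hi, rfl⟩), rfl⟩
    · exact zero_mem_BaseN _
    · exact one_mem_BaseN _
    · by_cases hi1 : i < d
      · have h4 : ((fun m : ℕ → ℝ => m i) ∘ φ) = fun m => m (o + i) := by
          funext m
          simp [φ, hi1]
        simp only [h4]
        exact coord_mem_BaseN (by omega)
      · have h4 : ((fun m : ℕ → ℝ => m i) ∘ φ) = fun m => m (d' + (i - d)) := by
          funext m
          simp only [Function.comp, φ]
          rw [if_neg hi1, if_pos (by omega)]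
        simp only [h4]
        exact coord_mem_BaseN (by omega)
  · simp only [Function.comp]
    rw [hφ x hx]
    exact h2 x hx

lemma pair_size (x : RInf) (y : List ℝ) : (pair x y).size = 1 + x.size + y.length := by
  simp [pair, RInf.size]
  ring

/-- Problems in `NP_ℝ` restricted to a fixed input size are decided by straight line computations,
with constants independent of the size. -/
theorem InNP.dec {A : Set RInf} (h : InNP A) :
    ∃ (d : ℕ) (c : ℕ → ℝ), ∀ n, ∃ s, Dec d c n A s := by
  obtain ⟨B, q, hB, hq⟩ := h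
  obtain ⟨d, c, P, hP⟩ := hB.dec
  refine ⟨d, c, fun n => ?_⟩
  obtain ⟨f, hf1, hf2⟩ := hP (1 + n + q.eval n)
  set k := q.eval n with hk
  let φ : (ℕ → ℝ) → (ℕ → ℝ) := fun u i => if i < d then u (k + i) else
    if i = d then (n : ℝ) else if i < d + 1 + n then u (k + (i - 1)) else
    if i < d + 1 + n + k then u (i - (d + 1 + n)) else 0
  have hφ : ∀ i, Cl AllN fun u => φ u i := by
    intro i
    simp only [φ]
    split_ifs
    · exact cl_coord _
    · exact cl_nat n
    · exact cl_coord _
    · exact cl_coord _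
    · exact cl_zero
  have hS : SA {u | (f ∘ φ) u = 1} := sa_eq (hf1.cl.subst φ fun i _ => hφ i) cl_one
  have hS' := SA.cl_ind (SA.projN hS k)
  set S' := {u : ℕ → ℝ | ∃ v : ℕ → ℝ, (fun i => if i < k then v i else u i) ∈
    {u | (f ∘ φ) u = 1}} with hS'def
  let ψ : (ℕ → ℝ) → (ℕ → ℝ) := fun m i => if i < k then 0 else
    if i - k < d + n then m (i - k) else 0
  have hψ : ∀ i, Cl (BaseN (d + n)) fun u => ψ u i := by
    intro i
    simp only [ψ]
    split_ifs with h1 h2
    · exact Cl.base (zero_mem_BaseN _)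
    · exact Cl.base (coord_mem_BaseN h2)
    · exact Cl.base (zero_mem_BaseN _)
  obtain ⟨s, hs⟩ := (hS'.substN ψ hψ).cx
  refine ⟨s, ind S' ∘ ψ, hs, fun x hx => ?_⟩
  have hx' : x.1.length = n := hx
  -- the key identity
  have key : ∀ (y : List ℝ) (v : ℕ → ℝ), y.length = k → (∀ i < k, v i = y.getD i 0) →
      φ (fun i => if i < k then v i else ψ (mem d c x.1) i) = mem d c (pair x y).1 := by
    intro y v hy hv
    have hψx : ∀ i, k ≤ i → ψ (mem d c x.1) i = mem d c x.1 (i - k) := by
      intro i hi
      simp only [ψ]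
      rw [if_neg (by omega)]
      by_cases h1 : i - k < d + n
      · rw [if_pos h1]
      · rw [if_neg h1, mem_getD _ _ _ _ (by omega), List.getD_eq_default _ _ (by omega)]
    have hp : (pair x y).1 = (n : ℝ) :: (x.1 ++ y) := by
      simp [pair, hx]
    rw [hp]
    funext i
    simp only [φ]
    by_cases h1 : i < d
    · rw [if_pos h1, if_neg (by omega), hψx _ (by omega), mem_const _ _ _ _ h1,
        mem_const _ _ _ _ (by omega)]
      congr 1
      omega
    · rw [if_neg h1, mem_getD _ _ _ i (by omega)]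
      by_cases h2 : i = d
      · rw [if_pos h2, h2]
        simp
      · rw [if_neg h2]
        obtain ⟨j, hj⟩ : ∃ j, i - d = j + 1 := ⟨i - d - 1, by omega⟩
        rw [hj, List.getD_cons_succ]
        by_cases h3 : i < d + 1 + n
        · rw [if_pos h3, if_neg (by omega), hψx _ (by omega), mem_getD _ _ _ _ (by omega),
            List.getD_append _ _ _ _ (by omega)]
          congr 1
          omega
        · rw [if_neg h3, List.getD_append_right _ _ _ _ (by omega)]
          by_cases h4 : i < d + 1 + n + k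
          · rw [if_pos h4, if_pos (by omega), hv _ (by omega)]
            congr 1
            omega
          · rw [if_neg h4, List.getD_eq_default _ _ (by omega)]
  have hiff : x ∈ A ↔ ψ (mem d c x.1) ∈ S' := by
    rw [hq x, hS'def]
    simp only [mem_ofPred_eq, Function.comp]
    constructor
    · rintro ⟨y, hy, hyB⟩
      rw [hx] at hy
      refine ⟨fun i => y.getD i 0, ?_⟩
      rw [key y _ hy fun i _ => rfl]
      refine (hf2 _ ?_).1 hyB
      rw [pair_size, hx, hy]
    · rintro ⟨v, hv⟩
      have hy : ((List.range k).map v).length = k := by simp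
      rw [key ((List.range k).map v) v hy (fun i hi => by simp [hi])] at hv
      refine ⟨(List.range k).map v, by rw [hx]; exact hy, ?_⟩
      by_contra hn
      rw [(hf2 _ (by rw [pair_size, hx, hy])).2 hn] at hv
      exact zero_ne_one hv
  constructor
  · intro hxA
    simp only [Function.comp, ind]
    rw [if_pos (hiff.1 hxA)]
  · intro hxA
    simp only [Function.comp, ind]
    rw [if_neg fun h => hxA (hiff.2 h)]

/-- Restriction to a set of input sizes. -/
def restr (A : Set RInf) (S : Set ℕ) : Set RInf := {x | x ∈ A ∧ x.size ∈ S}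

lemma InP.restr {B : Set RInf} (h : InP B) (S : Set ℕ) : InP (restr B S) := by
  obtain ⟨d, c, P, hP⟩ := h.dec
  refine inP_of_dec d c P fun n _ => ?_
  by_cases hn : n ∈ S
  · refine (hP n).congr fun x hx => ?_
    simp [Pool.Agent.W_MP_25fb88_lc.restr, hx, hn]
  · refine dec_empty d c n _ fun x hx hxA => hn ?_
    have := hxA.2
    rwa [hx] at this

lemma InNP.restr {A : Set RInf} (h : InNP A) (S : Set ℕ) : InNP (restr A S) := by
  obtain ⟨B, q, hB, hq⟩ := h
  refine ⟨Pool.Agent.W_MP_25fb88_lc.restr B {N | ∃ n ∈ S, N = 1 + n + q.eval n}, q, hB.restr _,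
    fun x => ?_⟩
  constructor
  · rintro ⟨hx, hxS⟩
    obtain ⟨y, hy, hyB⟩ := (hq x).1 hx
    exact ⟨y, hy, hyB, x.size, hxS, by rw [pair_size, hy]⟩
  · rintro ⟨y, hy, hyB, n, hn, hN⟩
    refine ⟨(hq x).2 ⟨y, hy, hyB⟩, ?_⟩
    rw [pair_size, hy] at hN
    have : x.size = n := by
      rcases lt_trichotomy x.size n with h | h | h
      · have := eval_mono q h.le
        omega
      · exact h
      · have := eval_mono q h.le
        omega
    rw [this]
    exact hn

lemma InP.inNP {L : Set RInf} (h : InP L) : InNP L := by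
  obtain ⟨d, c, P, hP⟩ := h.dec
  refine ⟨{z | ∃ x ∈ L, z.1.tail = x.1}, 0, ?_, fun x => ?_⟩
  · refine inP_of_dec d c P fun N hN => ?_
    obtain ⟨n, rfl⟩ : ∃ n, N = n + 1 := ⟨N - 1, by omega⟩
    by_cases hn : n = 0
    · subst hn
      refine dec_empty d c _ _ ?_
      rintro z hz ⟨x, _, hx⟩
      have h1 : z.1.length = 1 := hz
      have h2 : z.1.tail.length = 0 := by simp [h1]
      rw [hx] at h2
      exact x.2 (List.length_eq_zero_iff.1 h2)
    · obtain ⟨f, hf1, hf2⟩ := hP n
      let φ : (ℕ → ℝ) → (ℕ → ℝ) := fun m i => if i < d then m i else m (i + 1)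
      refine Dec.le (s := P.eval n) ⟨f ∘ φ, ?_, fun z hz => ?_⟩ (eval_mono P (Nat.le_succ n))
      · have h3 := hf1.comp φ
        rw [image_singleton] at h3
        refine h3.mono_left ?_
        rintro _ ⟨g, (rfl | rfl | ⟨i, hi, rfl⟩), rfl⟩
        · exact zero_mem_BaseN _
        · exact one_mem_BaseN _
        · by_cases hi1 : i < d
          · have h4 : ((fun m : ℕ → ℝ => m i) ∘ φ) = fun m => m i := by
              funext m
              simp [φ, hi1]
            simp only [h4]
            exact coord_mem_BaseN (by omega)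
          · have h4 : ((fun m : ℕ → ℝ => m i) ∘ φ) = fun m => m (i + 1) := by
              funext m
              simp [φ, hi1]
            simp only [h4]
            exact coord_mem_BaseN (by omega)
      · have hlen : z.1.length = n + 1 := hz
        have hne : z.1.tail ≠ [] := by
          intro h0
          have h5 : z.1.tail.length = n := by simp [hlen]
          rw [h0] at h5
          exact hn h5.symm
        let x : RInf := ⟨z.1.tail, hne⟩
        have hxs : x.size = n := by
          show z.1.tail.length = n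
          simp [hlen]
        have h6 : φ (mem d c z.1) = mem d c x.1 := by
          funext i
          simp only [φ]
          by_cases hi : i < d
          · rw [if_pos hi, mem_const _ _ _ _ hi, mem_const _ _ _ _ hi]
          · rw [if_neg hi, mem_getD _ _ _ _ (by omega), mem_getD _ _ _ _ (by omega)]
            show z.1.getD (i + 1 - d) 0 = z.1.tail.getD (i - d) 0
            have e : i + 1 - d = (i - d) + 1 := by omega
            rw [e]
            obtain ⟨a, t, hat⟩ := List.exists_cons_of_ne_nil z.2
            rw [hat]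
            simp
        simp only [Function.comp]
        rw [h6]
        have h7 : z ∈ {z : RInf | ∃ x ∈ L, z.1.tail = x.1} ↔ x ∈ L := by
          constructor
          · rintro ⟨x', hx', hx''⟩
            have : x = x' := Subtype.ext hx''
            rwa [this]
          · intro hx
            exact ⟨x, hx, rfl⟩
        rw [h7]
        exact hf2 x hxs
  · constructor
    · intro hx
      refine ⟨[], by simp, x, hx, ?_⟩
      simp [pair]
    · rintro ⟨y, hy, x', hx', hxx'⟩
      have hy0 : y = [] := by
        apply List.length_eq_zero_iff.1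
        simpa using hy
      subst hy0
      have : x = x' := by
        apply Subtype.ext
        simpa [pair] using hxx'
      rwa [this]

/-- Polynomials with natural coefficients are bounded by `n ^ a + a`. -/
lemma poly_le_pow (P : Polynomial ℕ) : ∃ a, ∀ b, a ≤ b → ∀ n, 1 ≤ n → P.eval n ≤ n ^ b + b := by
  have h1 : ∀ n, 1 ≤ n → P.eval n ≤ P.eval 1 * n ^ P.natDegree := by
    intro n hn
    rw [Polynomial.eval_eq_sum_range, Polynomial.eval_eq_sum_range, Finset.sum_mul]
    refine Finset.sum_le_sum fun i hi => ?_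
    rw [one_pow, mul_one]
    exact Nat.mul_le_mul_left _ (Nat.pow_le_pow_right hn (by
      have := Finset.mem_range.1 hi
      omega))
  refine ⟨P.eval 1 + P.natDegree, fun b hb n hn => ?_⟩
  rcases Nat.lt_or_ge n 2 with h2 | h2
  · have h3 : n = 1 := by omega
    subst h3
    rw [one_pow]
    omega
  · have h4 : P.eval 1 ≤ n ^ P.eval 1 :=
      (Nat.lt_two_pow_self).le.trans (Nat.pow_le_pow_left h2 _)
    calc P.eval n ≤ P.eval 1 * n ^ P.natDegree := h1 n hn
      _ ≤ n ^ P.eval 1 * n ^ P.natDegree := Nat.mul_le_mul_right _ h4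
      _ = n ^ (P.eval 1 + P.natDegree) := (pow_add _ _ _).symm
      _ ≤ n ^ b := Nat.pow_le_pow_right hn hb
      _ ≤ n ^ b + b := Nat.le_add_right _ _

end Pool.Agent.W_MP_25fb88_lc
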