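import Pool.Agent.W_MP_25fb88_lc.Block

/-!
# A universal interpreter reading its program from the digits of a real number
-/

namespace Pool.Agent.W_MP_25fb88_lc

open Set

instance : Finite Op := by
  have : Function.Injective (fun o : Op => match o with
    | .add => (0 : Fin 4) | .sub => 1 | .mul => 2 | .div => 3) := by
    intro a b h
    cases a <;> cases b <;> simp_all
  exact Finite.of_injective _ this

/-- Operations of the virtual machine. -/
inductive TOp
  | right | left | loadA | loadB | loadC | store | one | arith (op : Op) | select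

/-- Code of an operation. -/
def TOp.code : TOp → ℕ
  | .right => 1
  | .left => 2
  | .loadA => 3
  | .loadB => 4
  | .loadC => 5
  | .store => 6
  | .one => 7
  | .arith .add => 8
  | .arith .sub => 9
  | .arith .mul => 10
  | .arith .div => 11
  | .select => 12

/-- Decoding. -/
def decode : ℕ → TOp
  | 1 => .right
  | 2 => .left
  | 3 => .loadA
  | 4 => .loadB
  | 5 => .loadC
  | 6 => .store
  | 7 => .one
  | 8 => .arith .add
  | 9 => .arith .sub
  | 10 => .arith .mul
  | 11 => .arith .div
  | _ => .select

lemma decode_code (o : TOp) : decode o.code = o := by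
  cases o with
  | arith op => cases op <;> rfl
  | _ => rfl

lemma code_pos (o : TOp) : 1 ≤ o.code := by
  cases o with
  | arith op => cases op <;> simp [TOp.code]
  | _ => simp [TOp.code]

lemma code_lt (o : TOp) : o.code < 13 := by
  cases o with
  | arith op => cases op <;> simp [TOp.code]
  | _ => simp [TOp.code]

instance : Finite TOp :=
  Finite.of_injective (fun o : TOp => (⟨o.code, code_lt o⟩ : Fin 13)) (by
    intro a b h
    have h1 : a.code = b.code := by simpa using h
    rw [← decode_code a, ← decode_code b, h1])

/-- State of the virtual machine. -/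
structure VState where
  m : ℤ → ℝ
  h : ℤ
  A : ℝ
  B : ℝ
  C : ℝ

/-- Effect of an operation. -/
noncomputable def TOp.exec : TOp → VState → VState
  | .right, v => { v with h := v.h + 1 }
  | .left, v => { v with h := v.h - 1 }
  | .loadA, v => { v with A := v.m v.h }
  | .loadB, v => { v with B := v.m v.h }
  | .loadC, v => { v with C := v.m v.h }
  | .store, v => { v with m := Function.update v.m v.h v.A }
  | .one, v => { v with A := 1 }
  | .arith op, v => { v with A := op.eval v.A v.B }
  | .select, v => { v with A := if 0 ≤ v.C then v.A else v.B }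

/-- Effect of a list of operations. -/
noncomputable def execT (l : List TOp) (v : VState) : VState := l.foldl (fun v o => o.exec v) v

@[simp] lemma execT_nil (v : VState) : execT [] v = v := rfl
@[simp] lemma execT_cons (o : TOp) (l : List TOp) (v : VState) :
    execT (o :: l) v = execT l (o.exec v) := rfl
lemma execT_append (l l' : List TOp) (v : VState) :
    execT (l ++ l') v = execT l' (execT l v) := by
  simp [execT, List.foldl_append]

/-- Representation of a virtual state, the remaining program and the counter. -/
structure Rep (r : ℤ → ℝ) (v : VState) (β N : ℝ) : Prop where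
  hA : r 1 = v.A
  hB : r 2 = v.B
  hC : r 3 = v.C
  hβ : r 4 = β
  hN : r 5 = N
  h1 : r 6 = 1
  hpos : ∀ j : ℤ, 8 ≤ j → r j = v.m (v.h + (j - 8))
  hneg : ∀ j : ℤ, j < 0 → r j = v.m (v.h + j)

/-- Instructions for an operation (the selection needs a branch and is treated separately). -/
def opBody : TOp → List Simple
  | .right => [.shiftLeft, .copy (-1) 7, .copy 6 5, .copy 5 4, .copy 4 3, .copy 3 2, .copy 2 1,
      .copy 1 0]
  | .left => [.shiftRight, .copy 8 0, .copy 1 2, .copy 2 3, .copy 3 4, .copy 4 5, .copy 5 6,
      .copy 6 7]
  | .loadA => [.copy 1 8]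
  | .loadB => [.copy 2 8]
  | .loadC => [.copy 3 8]
  | .store => [.copy 8 1]
  | .one => [.copy 1 6]
  | .arith op => [.arith op 1 1 2]
  | .select => []

lemma rep_right {r : ℤ → ℝ} {v : VState} {β N : ℝ} (h : Rep r v β N) :
    Rep (execL (opBody .right) r) (TOp.exec .right v) β N := by
  obtain ⟨hA, hB, hC, hβ, hN, h1, hpos, hneg⟩ := h
  constructor
  · simp [opBody, Simple.exec, TOp.exec, hA]
  · simp [opBody, Simple.exec, TOp.exec, hB]
  · simp [opBody, Simple.exec, TOp.exec, hC]
  · simp [opBody, Simple.exec, hβ]
  · simp [opBody, Simple.exec, hN]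
  · simp [opBody, Simple.exec, h1]
  · intro j hj
    have e : ∀ k : ℤ, k < 8 → j ≠ k := fun k hk => by omega
    simp only [opBody, Simple.exec, TOp.exec, execL_cons, execL_nil, Function.update_apply]
    rw [if_neg (e _ (by norm_num)), if_neg (e _ (by norm_num)), if_neg (e _ (by norm_num)),
      if_neg (e _ (by norm_num)), if_neg (e _ (by norm_num)), if_neg (e _ (by norm_num)),
      if_neg (e _ (by norm_num)), hpos _ (by omega)]
    congr 1
    ring
  · intro j hj
    have e : ∀ k : ℤ, 0 ≤ k → j ≠ k := fun k hk => by omega
    simp only [opBody, Simple.exec, TOp.exec, execL_cons, execL_nil, Function.update_apply]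
    rw [if_neg (e _ (by norm_num)), if_neg (e _ (by norm_num)), if_neg (e _ (by norm_num)),
      if_neg (e _ (by norm_num)), if_neg (e _ (by norm_num)), if_neg (e _ (by norm_num))]
    by_cases hj1 : j = -1
    · subst hj1
      rw [if_pos rfl]
      have := hpos 8 le_rfl
      norm_num at this ⊢
      exact this
    · rw [if_neg hj1, hneg _ (by omega)]
      congr 1
      ring

lemma rep_left {r : ℤ → ℝ} {v : VState} {β N : ℝ} (h : Rep r v β N) :
    Rep (execL (opBody .left) r) (TOp.exec .left v) β N := by
  obtain ⟨hA, hB, hC, hβ, hN, h1, hpos, hneg⟩ := h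
  constructor
  · simp [opBody, Simple.exec, TOp.exec, hA]
  · simp [opBody, Simple.exec, TOp.exec, hB]
  · simp [opBody, Simple.exec, TOp.exec, hC]
  · simp [opBody, Simple.exec, hβ]
  · simp [opBody, Simple.exec, hN]
  · simp [opBody, Simple.exec, h1]
  · intro j hj
    have e : ∀ k : ℤ, k < 8 → j ≠ k := fun k hk => by omega
    simp only [opBody, Simple.exec, TOp.exec, execL_cons, execL_nil, Function.update_apply]
    rw [if_neg (e _ (by norm_num)), if_neg (e _ (by norm_num)), if_neg (e _ (by norm_num)),
      if_neg (e _ (by norm_num)), if_neg (e _ (by norm_num)), if_neg (e _ (by norm_num))]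
    by_cases hj1 : j = 8
    · subst hj1
      rw [if_pos rfl]
      have := hneg (-1) (by norm_num)
      norm_num at this ⊢
      rw [this]
      rfl
    · rw [if_neg hj1, hpos _ (by omega)]
      congr 1
      ring
  · intro j hj
    have e : ∀ k : ℤ, 0 ≤ k → j ≠ k := fun k hk => by omega
    simp only [opBody, Simple.exec, TOp.exec, execL_cons, execL_nil, Function.update_apply]
    rw [if_neg (e _ (by norm_num)), if_neg (e _ (by norm_num)), if_neg (e _ (by norm_num)),
      if_neg (e _ (by norm_num)), if_neg (e _ (by norm_num)), if_neg (e _ (by norm_num)),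
      if_neg (e _ (by norm_num)), hneg _ (by omega)]
    congr 1
    ring

lemma rep_opBody {r : ℤ → ℝ} {v : VState} {β N : ℝ} (h : Rep r v β N) (o : TOp)
    (ho : o ≠ .select) : Rep (execL (opBody o) r) (o.exec v) β N := by
  obtain ⟨hA, hB, hC, hβ, hN, h1, hpos, hneg⟩ := h
  have h8 : r 8 = v.m v.h := by
    have := hpos 8 le_rfl
    simpa using this
  cases o with
  | right => exact rep_right ⟨hA, hB, hC, hβ, hN, h1, hpos, hneg⟩
  | left => exact rep_left ⟨hA, hB, hC, hβ, hN, h1, hpos, hneg⟩
  | loadA =>
    constructor <;> simp only [opBody, Simple.exec, TOp.exec, execL_cons, execL_nil]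
    · simp [h8]
    · simpa using hB
    · simpa using hC
    · simpa using hβ
    · simpa using hN
    · simpa using h1
    · intro j hj
      rw [Function.update_of_ne (by omega)]
      exact hpos j hj
    · intro j hj
      rw [Function.update_of_ne (by omega)]
      exact hneg j hj
  | loadB =>
    constructor <;> simp only [opBody, Simple.exec, TOp.exec, execL_cons, execL_nil]
    · simpa using hA
    · simp [h8]
    · simpa using hC
    · simpa using hβ
    · simpa using hN
    · simpa using h1
    · intro j hj
      rw [Function.update_of_ne (by omega)]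
      exact hpos j hj
    · intro j hj
      rw [Function.update_of_ne (by omega)]
      exact hneg j hj
  | loadC =>
    constructor <;> simp only [opBody, Simple.exec, TOp.exec, execL_cons, execL_nil]
    · simpa using hA
    · simpa using hB
    · simp [h8]
    · simpa using hβ
    · simpa using hN
    · simpa using h1
    · intro j hj
      rw [Function.update_of_ne (by omega)]
      exact hpos j hj
    · intro j hj
      rw [Function.update_of_ne (by omega)]
      exact hneg j hj
  | store =>
    constructor <;> simp only [opBody, Simple.exec, TOp.exec, execL_cons, execL_nil]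
    · simpa using hA
    · simpa using hB
    · simpa using hC
    · simpa using hβ
    · simpa using hN
    · simpa using h1
    · intro j hj
      by_cases hj8 : j = 8
      · subst hj8
        simp [hA]
      · rw [Function.update_of_ne hj8, Function.update_of_ne (by omega)]
        exact hpos j hj
    · intro j hj
      rw [Function.update_of_ne (by omega), Function.update_of_ne (by omega)]
      exact hneg j hj
  | one =>
    constructor <;> simp only [opBody, Simple.exec, TOp.exec, execL_cons, execL_nil]
    · simp [h1]
    · simpa using hB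
    · simpa using hC
    · simpa using hβ
    · simpa using hN
    · simpa using h1
    · intro j hj
      rw [Function.update_of_ne (by omega)]
      exact hpos j hj
    · intro j hj
      rw [Function.update_of_ne (by omega)]
      exact hneg j hj
  | arith op =>
    constructor <;> simp only [opBody, Simple.exec, TOp.exec, execL_cons, execL_nil]
    · simp [hA, hB]
    · simpa using hB
    · simpa using hC
    · simpa using hβ
    · simpa using hN
    · simpa using h1
    · intro j hj
      rw [Function.update_of_ne (by omega)]
      exact hpos j hj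
    · intro j hj
      rw [Function.update_of_ne (by omega)]
      exact hneg j hj
  | select => exact absurd rfl ho

/-! ### Digits -/

/-- The real number with base three digits (zeros and ones) given by a list and a remainder. -/
noncomputable def encL : List Bool → ℝ → ℝ
  | [], ρ => ρ
  | b :: l, ρ => ((if b then 1 else 0) + encL l ρ) / 3

lemma encL_append (l l' : List Bool) (ρ : ℝ) : encL (l ++ l') ρ = encL l (encL l' ρ) := by
  induction l with
  | nil => rfl
  | cons b l ih => simp [encL, ih]

lemma encL_nonneg (l : List Bool) {ρ : ℝ} (h : 0 ≤ ρ) : 0 ≤ encL l ρ := by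
  induction l with
  | nil => exact h
  | cons b l ih =>
    rw [encL]
    have : (0 : ℝ) ≤ if b then 1 else 0 := by split_ifs <;> norm_num
    positivity

lemma encL_le (l : List Bool) {ρ : ℝ} (h : ρ ≤ 1 / 2) : encL l ρ ≤ 1 / 2 := by
  induction l with
  | nil => exact h
  | cons b l ih =>
    rw [encL]
    have : (if b then (1 : ℝ) else 0) ≤ 1 := by split_ifs <;> norm_num
    linarith

lemma encL_mono (l : List Bool) {ρ ρ' : ℝ} (h : ρ ≤ ρ') : encL l ρ ≤ encL l ρ' := by
  induction l with
  | nil => exact h
  | cons b l ih =>
    rw [encL, encL]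
    linarith

lemma continuous_encL (l : List Bool) : Continuous (encL l) := by
  induction l with
  | nil => exact continuous_id
  | cons b l ih =>
    have : encL (b :: l) = fun ρ => ((if b then 1 else 0) + encL l ρ) / 3 := rfl
    rw [this]
    fun_prop

/-- Approximations of the stream. -/
noncomputable def approx (bl : ℕ → List Bool) : ℕ → ℕ → ℝ
  | 0, _ => 0
  | k + 1, n => encL (bl n) (approx bl k (n + 1))

/-- Infinitely many finite blocks of digits can be stored in one real number. -/
lemma exists_stream (bl : ℕ → List Bool) : ∃ β : ℕ → ℝ,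
    (∀ n, 0 ≤ β n ∧ β n ≤ 1 / 2) ∧ ∀ n, β n = encL (bl n) (β (n + 1)) := by
  obtain ⟨X, hX0, hXs⟩ : ∃ X : ℕ → ℕ → ℝ, (∀ n, X 0 n = 0) ∧
      ∀ k n, X (k + 1) n = encL (bl n) (X k (n + 1)) :=
    ⟨approx bl, fun _ => rfl, fun _ _ => rfl⟩
  have hb : ∀ k n, 0 ≤ X k n ∧ X k n ≤ 1 / 2 := by
    intro k
    induction k with
    | zero => intro n; rw [hX0]; norm_num
    | succ k ih =>
      intro n
      rw [hXs]
      exact ⟨encL_nonneg _ (ih _).1, encL_le _ (ih _).2⟩
  have hm1 : ∀ k n, X k n ≤ X (k + 1) n := by
    intro k
    induction k with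
    | zero => intro n; rw [hX0]; exact (hb (0 + 1) n).1
    | succ k ih =>
      intro n
      rw [hXs, hXs]
      exact encL_mono _ (ih _)
  have hm : ∀ n, Monotone fun k => X k n := fun n => monotone_nat_of_le_succ fun k => hm1 k n
  have hbd : ∀ n, BddAbove (range fun k => X k n) := by
    intro n
    refine ⟨1 / 2, ?_⟩
    rintro _ ⟨k, rfl⟩
    exact (hb k n).2
  have ht : ∀ n, Filter.Tendsto (fun k => X k n) Filter.atTop (nhds (⨆ k, X k n)) := fun n =>
    tendsto_atTop_ciSup (hm n) (hbd n)
  refine ⟨fun n => ⨆ k, X k n, fun n => ⟨?_, ?_⟩, fun n => ?_⟩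
  · exact (hb 0 n).1.trans (le_ciSup (hbd n) 0)
  · exact ciSup_le fun k => (hb k n).2
  · have h1 := (ht n).comp (Filter.tendsto_add_atTop_nat 1)
    have h2 := ((continuous_encL (bl n)).tendsto _).comp (ht (n + 1))
    refine tendsto_nhds_unique h1 ?_
    have h3 : ((fun k => X k n) ∘ fun a => a + 1) = encL (bl n) ∘ fun k => X k (n + 1) := by
      funext k
      exact hXs k n
    rw [h3]
    exact h2

end Pool.Agent.W_MP_25fb88_lc
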