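import Pool.Agent.W_MP_25fb88_lc.Ideal

/-!
# Ladner's theorem for BSS machines over the reals
-/

namespace Pool.Agent.W_MP_25fb88_lc

open Set MvPolynomial

/-! ### Measurability -/

lemma measurable_dec_slice {A : Set RInf} {dA : ℕ} {cA : ℕ → ℝ} {n : ℕ} {fA : (ℕ → ℝ) → ℝ}
    (hfA : Cl (BaseN (dA + n)) fA)
    (hA : ∀ x : RInf, x.size = n → (x ∈ A → fA (mem dA cA x.1) = 1) ∧
      (x ∉ A → fA (mem dA cA x.1) = 0)) (d s : ℕ) :
    MeasurableSet {c : ℕ → ℝ | Dec d c n A s} := by
  have hcount : {f | Cl (BaseN (d + n)) f}.Countable := by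
    apply countable_cl
    have h1 : BaseN (d + n) ⊆ insert (fun _ => (0 : ℝ)) (insert (fun _ => (1 : ℝ))
        (range fun i : ℕ => fun m : ℕ → ℝ => m i)) := by
      rintro f (rfl | rfl | ⟨i, _, rfl⟩)
      · exact Or.inl rfl
      · exact Or.inr (Or.inl rfl)
      · exact Or.inr (Or.inr (mem_range_self i))
    exact (((countable_range _).insert _).insert _).mono h1
  -- a countable union over the computable functions
  have h1 : {c : ℕ → ℝ | Dec d c n A s} =
      ⋃ f ∈ {f | Cx (BaseN (d + n)) s {f}},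
        {c : ℕ → ℝ | ∀ x : RInf, x.size = n → f (mem d c x.1) = fA (mem dA cA x.1)} := by
    ext c
    simp only [mem_ofPred_eq, mem_iUnion]
    constructor
    · rintro ⟨f, hf1, hf2⟩
      refine ⟨f, hf1, fun x hx => ?_⟩
      by_cases hxA : x ∈ A
      · rw [(hf2 x hx).1 hxA, (hA x hx).1 hxA]
      · rw [(hf2 x hx).2 hxA, (hA x hx).2 hxA]
    · rintro ⟨f, hf1, hf2⟩
      refine ⟨f, hf1, fun x hx => ?_⟩
      rw [hf2 x hx]
      exact hA x hx
  rw [h1]
  refine MeasurableSet.biUnion (hcount.mono fun f hf => Cx.cl hf) fun f hf => ?_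
  have hfcl : Cl (BaseN (d + n)) f := Cx.cl hf
  by_cases hn : n = 0
  · have h2 : {c : ℕ → ℝ | ∀ x : RInf, x.size = n → f (mem d c x.1) = fA (mem dA cA x.1)} =
        univ := by
      ext c
      simp only [mem_ofPred_eq, mem_univ, iff_true]
      intro x hx
      exfalso
      have := List.length_pos_of_ne_nil x.2
      unfold RInf.size at hx
      omega
    rw [h2]
    exact MeasurableSet.univ
  let φ₁ : (ℕ → ℝ) → (ℕ → ℝ) := fun u i => if i < d then u (n + i) else
    if i - d < n then u (i - d) else 0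
  let φ₂ : (ℕ → ℝ) → (ℕ → ℝ) := fun u i => if i < dA then u (n + d + i) else
    if i - dA < n then u (i - dA) else 0
  have hφ₁ : ∀ i, Cl AllN fun u => φ₁ u i := by
    intro i
    simp only [φ₁]
    split_ifs
    · exact cl_coord _
    · exact cl_coord _
    · exact cl_zero
  have hφ₂ : ∀ i, Cl AllN fun u => φ₂ u i := by
    intro i
    simp only [φ₂]
    split_ifs
    · exact cl_coord _
    · exact cl_coord _
    · exact cl_zero
  have hS : SA {u | (f ∘ φ₁) u = (fA ∘ φ₂) u}ᶜ :=
    (sa_eq (hfcl.subst φ₁ fun i _ => hφ₁ i) (hfA.subst φ₂ fun i _ => hφ₂ i)).compl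
  have hS' := SA.measurableSet (SA.projN hS n).compl
  let κ : (ℕ → ℝ) → (ℕ → ℝ) := fun c i => if i < n then 0 else if i < n + d then c (i - n) else
    cA (i - n - d)
  have hκ : Measurable κ := by
    rw [measurable_pi_iff]
    intro i
    simp only [κ]
    split_ifs
    · exact measurable_const
    · exact measurable_pi_apply _
    · exact measurable_const
  have h2 := hκ hS'
  convert h2 using 1
  ext c
  simp only [mem_preimage, mem_compl_iff, mem_ofPred_eq, not_exists, not_not, Function.comp]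
  have key : ∀ (x : RInf) (v : ℕ → ℝ), x.size = n → (∀ i < n, v i = x.1.getD i 0) →
      φ₁ (fun i => if i < n then v i else κ c i) = mem d c x.1 ∧
      φ₂ (fun i => if i < n then v i else κ c i) = mem dA cA x.1 := by
    intro x v hx hv
    have hx' : x.1.length = n := hx
    constructor
    · funext i
      simp only [φ₁]
      by_cases h3 : i < d
      · rw [if_pos h3, if_neg (by omega), mem_const _ _ _ _ h3]
        simp only [κ]
        rw [if_neg (by omega), if_pos (by omega)]
        congr 1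
        omega
      · rw [if_neg h3, mem_getD _ _ _ _ (by omega)]
        by_cases h4 : i - d < n
        · rw [if_pos h4, if_pos h4, hv _ h4]
        · rw [if_neg h4, List.getD_eq_default _ _ (by omega)]
    · funext i
      simp only [φ₂]
      by_cases h3 : i < dA
      · rw [if_pos h3, if_neg (by omega), mem_const _ _ _ _ h3]
        simp only [κ]
        rw [if_neg (by omega), if_neg (by omega)]
        congr 1
        omega
      · rw [if_neg h3, mem_getD _ _ _ _ (by omega)]
        by_cases h4 : i - dA < n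
        · rw [if_pos h4, if_pos h4, hv _ h4]
        · rw [if_neg h4, List.getD_eq_default _ _ (by omega)]
  constructor
  · intro h v
    have hlen : ((List.range n).map v).length = n := by simp
    have hne : (List.range n).map v ≠ [] := by
      intro h0
      rw [h0] at hlen
      exact hn hlen.symm
    obtain ⟨h3, h4⟩ := key ⟨(List.range n).map v, hne⟩ v hlen (fun i hi => by simp [hi])
    rw [h3, h4]
    exact h _ hlen
  · intro h x hx
    obtain ⟨h3, h4⟩ := key x (fun i => x.1.getD i 0) hx (fun i _ => rfl)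
    have := h fun i => x.1.getD i 0
    rw [h3, h4] at this
    exact this

/-- The set of parameters that decide `A` on inputs of size `n` within the allowed size. -/
def EE (A : Set RInf) (n : ℕ) : Set (ℕ × (ℕ → ℝ)) := {y | Dec y.1 y.2 n A (n ^ y.1 + y.1)}

lemma measurableSet_EE {A : Set RInf} (hA : InNP A) (n : ℕ) : MeasurableSet (EE A n) := by
  obtain ⟨dA, cA, h⟩ := hA.dec
  obtain ⟨s, fA, hf1, hf2⟩ := h n
  have h1 : EE A n = ⋃ d : ℕ, (Prod.fst ⁻¹' {d}) ∩
      (Prod.snd ⁻¹' {c : ℕ → ℝ | Dec d c n A (n ^ d + d)}) := by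
    ext ⟨d, c⟩
    simp only [EE, mem_ofPred_eq, mem_iUnion, mem_inter_iff, mem_preimage, mem_singleton_iff]
    constructor
    · intro h
      exact ⟨d, rfl, h⟩
    · rintro ⟨d', rfl, h⟩
      exact h
  rw [h1]
  refine MeasurableSet.iUnion fun d => ?_
  exact (measurable_fst (measurableSet_singleton d)).inter
    (measurable_snd (measurable_dec_slice hf1.cl hf2 d _))

lemma Dec.poly {A : Set RInf} {d : ℕ} {c : ℕ → ℝ} {P : Polynomial ℕ} :
    ∃ d', ∀ n, 1 ≤ n → Dec d c n A (P.eval n) → (d', c) ∈ EE A n := by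
  obtain ⟨a, ha⟩ := poly_le_pow P
  refine ⟨a + d, fun n hn h => ?_⟩
  have h1 := h.embed (o := 0) (d' := a + d) (c' := c) (by omega) (fun i _ => by rw [zero_add])
  exact h1.le (ha _ (by omega) n hn)

/-- No two parameters decide `A` together on almost all input sizes. -/
lemma EE_cover {A : Set RInf} (hA : InNP A) (hA' : ¬ InP A) (y₁ y₂ : ℕ × (ℕ → ℝ)) (p : ℕ) :
    ∃ n, p ≤ n ∧ y₁ ∉ EE A n ∧ y₂ ∉ EE A n := by
  by_contra hcon
  push Not at hcon
  obtain ⟨d₁, c₁⟩ := y₁
  obtain ⟨d₂, c₂⟩ := y₂
  obtain ⟨dA, cA, hdec⟩ := hA.dec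
  choose T hT using hdec
  apply hA'
  let c : ℕ → ℝ := fun i => if i < d₁ then c₁ i else if i < d₁ + d₂ then c₂ (i - d₁) else
    cA (i - d₁ - d₂)
  let P : Polynomial ℕ := (Polynomial.X ^ d₁ + Polynomial.C d₁) +
    (Polynomial.X ^ d₂ + Polynomial.C d₂) + Polynomial.C (∑ m ∈ Finset.range p, T m)
  refine inP_of_dec (d₁ + d₂ + dA) c P fun n hn => ?_
  have hP : P.eval n = (n ^ d₁ + d₁) + (n ^ d₂ + d₂) + ∑ m ∈ Finset.range p, T m := by
    simp only [P, Polynomial.eval_add, Polynomial.eval_pow, Polynomial.eval_X, Polynomial.eval_C]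
  rw [hP]
  by_cases hnp : p ≤ n
  · by_cases h1 : (d₁, c₁) ∈ EE A n
    · have h2 : Dec d₁ c₁ n A (n ^ d₁ + d₁) := h1
      refine (h2.embed (o := 0) (d' := d₁ + d₂ + dA) (c' := c) (by omega) ?_).le (by omega)
      intro i hi
      simp only [c, zero_add]
      rw [if_pos hi]
    · have h2 : Dec d₂ c₂ n A (n ^ d₂ + d₂) := hcon n hnp h1
      refine (h2.embed (o := d₁) (d' := d₁ + d₂ + dA) (c' := c) (by omega) ?_).le (by omega)
      intro i hi
      simp only [c]
      rw [if_neg (by omega), if_pos (by omega)]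
      congr 1
      omega
  · refine ((hT n).embed (o := d₁ + d₂) (d' := d₁ + d₂ + dA) (c' := c) (by omega) ?_).le ?_
    · intro i hi
      simp only [c]
      rw [if_neg (by omega), if_neg (by omega)]
      congr 1
      omega
    · have : T n ≤ ∑ m ∈ Finset.range p, T m :=
        Finset.single_le_sum (f := T) (fun _ _ => Nat.zero_le _) (Finset.mem_range.2 (by omega))
      omega

/-! ### Combining a reduction with brute force on small instances -/

/-- Indicator of equality with a natural number. -/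
lemma Cx.eqNat {G : Set ((ℕ → ℝ) → ℝ)} {f : (ℕ → ℝ) → ℝ} (h0 : (fun _ => (0 : ℝ)) ∈ G)
    (h1 : (fun _ => (1 : ℝ)) ∈ G) (hf : f ∈ G) (i : ℕ) :
    Cx G (2 * i + 4) {fun m => if f m = i then 1 else 0} := by
  have h2 : Cx G (i + 1) {fun m => f m - i} :=
    ((Cx.of_mem hf 0).sub (Cx.natConst h0 h1 i)).le (by omega)
  have h3 : Cx G (i + 1) {fun m => i - f m} :=
    ((Cx.natConst h0 h1 i).sub (Cx.of_mem hf 0)).le (by omega)
  have h4 : Cx G (i + 2) {fun m => if 0 ≤ (i : ℝ) - f m then (1 : ℝ) else 0} :=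
    (h3.sel (Cx.of_mem h1 0) (Cx.of_mem h0 0)).le (by omega)
  have h5 := (h2.sel h4 (Cx.of_mem h0 0)).le (show _ ≤ 2 * i + 4 by omega)
  have h6 : (fun m => if f m = i then (1 : ℝ) else 0) = fun m =>
      if 0 ≤ f m - i then (if 0 ≤ (i : ℝ) - f m then (1 : ℝ) else 0) else 0 := by
    funext m
    by_cases h : f m = i
    · simp [h]
    · rw [if_neg h]
      rcases lt_or_gt_of_ne h with h7 | h7
      · rw [if_neg (by linarith)]
      · rw [if_pos (by linarith), if_neg (by linarith)]
  rw [h6]
  exact h5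

/-- If `A` reduces to its restriction `A_S`, and for inputs of size `n` the images of size in `S`
are all of size less than `a`, then `A` is easy at size `n`. -/
lemma dec_of_reduction {A : Set RInf} {S : Set ℕ} {ρ : RInf → RInf}
    (hρ : ∀ x, x ∈ A ↔ ρ x ∈ restr A S) {dρ : ℕ} {cρ : ℕ → ℝ} {n s : ℕ}
    {F : ℤ → (ℕ → ℝ) → ℝ} (hF : Cx (BaseN (dρ + n)) s (range F))
    (hF2 : ∀ x : RInf, x.size = n → ∀ i : ℤ, 0 ≤ i → i ≤ (ρ x).size →
      F i (mem dρ cρ x.1) = load (ρ x) i)
    {dA : ℕ} {cA : ℕ → ℝ} {T : ℕ → ℕ} (hT : ∀ m, Dec dA cA m A (T m)) (a : ℕ)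
    (ha : ∀ x : RInf, x.size = n → (ρ x).size ∈ S → (ρ x).size < a) {d : ℕ} {c : ℕ → ℝ}
    (hd : dρ + dA ≤ d) (hc1 : ∀ i < dρ, c i = cρ i) (hc2 : ∀ i < dA, c (dρ + i) = cA i) :
    Dec d c n A (s + ∑ i ∈ Finset.range a, (T i + 2 * i + 6)) := by
  classical
  -- memory maps
  let φ : (ℕ → ℝ) → (ℕ → ℝ) := fun m i => if i < dρ then m i else
    if i - dρ < n then m (d + (i - dρ)) else 0
  have hφ : ∀ x : RInf, x.size = n → φ (mem d c x.1) = mem dρ cρ x.1 := by
    intro x hx
    have hx' : x.1.length = n := hx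
    funext i
    by_cases hi : i < dρ
    · simp only [φ]
      rw [if_pos hi, mem_const _ _ _ _ (by omega), mem_const _ _ _ _ hi, hc1 i hi]
    · by_cases hi2 : i - dρ < n
      · simp only [φ]
        rw [if_neg hi, if_pos hi2, mem_getD _ _ _ _ (by omega), mem_getD _ _ _ _ (by omega)]
        congr 1
        omega
      · simp only [φ]
        rw [if_neg hi, if_neg hi2, mem_getD _ _ _ _ (by omega), List.getD_eq_default _ _ (by omega)]
  -- the reduction, as functions of the new memory
  have h1 : Cx (BaseN (d + n)) s (range fun i => F i ∘ φ) := by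
    have h3 := hF.comp φ
    have h4 : (fun g : (ℕ → ℝ) → ℝ => g ∘ φ) '' range F = range fun i => F i ∘ φ := by
      rw [← range_comp]
      rfl
    rw [h4] at h3
    refine h3.mono_left ?_
    rintro _ ⟨g, (rfl | rfl | ⟨i, hi, rfl⟩), rfl⟩
    · exact zero_mem_BaseN _
    · exact one_mem_BaseN _
    · by_cases hi1 : i < dρ
      · have h4 : ((fun m : ℕ → ℝ => m i) ∘ φ) = fun m => m i := by
          funext m
          simp [φ, hi1]
        simp only [h4]
        exact coord_mem_BaseN (by omega)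
      · have h4 : ((fun m : ℕ → ℝ => m i) ∘ φ) = fun m => m (d + (i - dρ)) := by
          funext m
          simp only [Function.comp, φ]
          rw [if_neg hi1, if_pos (by omega)]
        simp only [h4]
        exact coord_mem_BaseN (by omega)
  set G : Set ((ℕ → ℝ) → ℝ) := BaseN (d + n) ∪ range fun i => F i ∘ φ with hG
  have hG0 : (fun _ => (0 : ℝ)) ∈ G := Or.inl (zero_mem_BaseN _)
  have hG1 : (fun _ => (1 : ℝ)) ∈ G := Or.inl (one_mem_BaseN _)
  choose W hW1 hW2 using hT
  -- memory maps for the small instances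
  let ψ : ℕ → (ℕ → ℝ) → (ℕ → ℝ) := fun k m i => if i < dA then m (dρ + i) else
    if i - dA < k then F ((i - dA : ℕ) + 1) (φ m) else 0
  have hψ : ∀ k, Cx G (T k) {W k ∘ ψ k} := by
    intro k
    have h3 := (hW1 k).comp (ψ k)
    rw [image_singleton] at h3
    refine h3.mono_left ?_
    rintro _ ⟨g, (rfl | rfl | ⟨i, hi, rfl⟩), rfl⟩
    · exact hG0
    · exact hG1
    · by_cases hi1 : i < dA
      · have h4 : ((fun m : ℕ → ℝ => m i) ∘ ψ k) = fun m => m (dρ + i) := by
          funext m
          simp [ψ, hi1]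
        simp only [h4]
        exact Or.inl (coord_mem_BaseN (by omega))
      · have h4 : ((fun m : ℕ → ℝ => m i) ∘ ψ k) = F ((i - dA : ℕ) + 1) ∘ φ := by
          funext m
          simp only [Function.comp, ψ]
          rw [if_neg hi1, if_pos (by omega)]
        simp only [h4]
        exact Or.inr ⟨_, rfl⟩
  -- the final function
  let term : ℕ → (ℕ → ℝ) → ℝ := fun k m =>
    (if (F 0 ∘ φ) m = k then 1 else 0) * (W k ∘ ψ k) m
  have hterm : ∀ k, Cx G (T k + 2 * k + 5) {term k} := by
    intro k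
    exact ((Cx.eqNat hG0 hG1 (Or.inr ⟨0, rfl⟩) k).mul (hψ k)).le (by omega)
  have hsum : ∀ b, Cx G (∑ i ∈ Finset.range b, (T i + 2 * i + 6))
      {fun m => ∑ k ∈ Finset.range b, if k ∈ S then term k m else 0} := by
    intro b
    induction b with
    | zero => simpa using Cx.of_mem hG0 0
    | succ b ih =>
      rw [Finset.sum_range_succ]
      have h3 : (fun m => ∑ k ∈ Finset.range (b + 1), if k ∈ S then term k m else 0) =
          fun m => (∑ k ∈ Finset.range b, if k ∈ S then term k m else 0) +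
            (if b ∈ S then term b m else 0) := by
        funext m
        rw [Finset.sum_range_succ]
      rw [h3]
      have h4 : Cx G (T b + 2 * b + 5) {fun m => if b ∈ S then term b m else 0} := by
        by_cases hb : b ∈ S
        · simpa only [if_pos hb] using hterm b
        · simpa only [if_neg hb] using Cx.of_mem hG0 _
      exact (ih.add h4).le (by omega)
  refine ⟨_, h1.trans (hsum a), fun x hx => ?_⟩
  have hφx := hφ x hx
  have hF0 : (F 0 ∘ φ) (mem d c x.1) = (ρ x).size := by
    simp only [Function.comp]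
    rw [hφx, hF2 x hx 0 le_rfl (by positivity)]
    simp [load]
  have hψx : ψ (ρ x).size (mem d c x.1) = mem dA cA (ρ x).1 := by
    have hlen : (ρ x).1.length = (ρ x).size := rfl
    funext i
    simp only [ψ]
    by_cases hi : i < dA
    · rw [if_pos hi, mem_const _ _ _ _ (by omega), mem_const _ _ _ _ hi, hc2 i hi]
    · rw [if_neg hi, mem_getD _ _ _ _ (by omega)]
      by_cases hi2 : i - dA < (ρ x).size
      · rw [if_pos hi2, hφx, hF2 x hx _ (by positivity) (by omega)]
        unfold load
        rw [if_neg (by omega), if_pos (by omega)]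
        congr 1
      · rw [if_neg hi2, List.getD_eq_default _ _ (by omega)]
  have hval : (∑ k ∈ Finset.range a, if k ∈ S then term k (mem d c x.1) else 0) =
      if (ρ x).size ∈ S then W (ρ x).size (mem dA cA (ρ x).1) else 0 := by
    by_cases hS : (ρ x).size ∈ S
    · rw [Finset.sum_eq_single_of_mem (ρ x).size (Finset.mem_range.2 (ha x hx hS))]
      · rw [if_pos hS, if_pos hS]
        simp only [term]
        rw [if_pos hF0, one_mul]
        simp only [Function.comp]
        rw [hψx]
      · intro k _ hk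
        split_ifs
        · simp only [term]
          rw [if_neg, zero_mul]
          rw [hF0]
          intro h
          exact hk (by exact_mod_cast h.symm)
        · rfl
    · rw [if_neg hS]
      refine Finset.sum_eq_zero fun k _ => ?_
      split_ifs with hkS
      · simp only [term]
        rw [if_neg, zero_mul]
        rw [hF0]
        intro h
        have : (ρ x).size = k := by exact_mod_cast h
        rw [this] at hS
        exact hS hkS
      · rfl
  rw [hval]
  constructor
  · intro hxA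
    have h3 := (hρ x).1 hxA
    rw [if_pos h3.2]
    exact (hW2 _ (ρ x) rfl).1 h3.1
  · intro hxA
    split_ifs with hS
    · refine (hW2 _ (ρ x) rfl).2 fun h => hxA ((hρ x).2 ⟨h, hS⟩)
    · rfl

/-- **Ladner's theorem over the reals**, for a given problem. -/
theorem ladner {A : Set RInf} (hA : InNP A) (hA' : ¬ InP A) :
    ∃ S : Set ℕ, ¬ InP (restr A S) ∧ ¬ Reduces A (restr A S) := by
  obtain ⟨m, hm, hfin⟩ := exists_partition (EE A) (measurableSet_EE hA) (EE_cover hA hA')
  obtain ⟨dA, cA, hdec⟩ := hA.dec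
  choose T hT using hdec
  let Fb : ℕ → ℕ → ℕ := fun a j => a ^ (j + 1) + (j + 1) + a + 1 +
    ∑ i ∈ Finset.range (a + 1), (T i + 2 * i + 6)
  let κ : ℕ → ℕ := fun j => Nat.rec 1 (fun j k => k + 1 + Fb (m (k + 1)) j) j
  have hκs : ∀ j, κ (j + 1) = κ j + 1 + Fb (m (κ j + 1)) j := fun j => rfl
  have hκm : StrictMono κ := strictMono_nat_of_lt_succ fun j => by rw [hκs]; omega
  have hgap : ∀ j, Fb (m (κ j + 1)) j ≤ m (κ (j + 1)) := by
    intro j
    refine le_trans ?_ hm.le_apply
    rw [hκs]
    omega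
  let blk : ℕ → Set ℕ := fun k => {n | m k ≤ n ∧ n < m (k + 1)}
  let S : Set ℕ := ⋃ j, blk (κ (2 * j))
  have hmpos : ∀ j n, n ∈ blk (κ j) → 1 ≤ n := by
    intro j n hn
    have h1 : 1 ≤ κ j := by
      have h2 := hκm.monotone (Nat.zero_le j)
      exact h2
    have h2 : κ j ≤ m (κ j) := hm.le_apply
    have h3 := hn.1
    omega
  -- a parameter cannot handle infinitely many blocks
  have hno : ∀ y : ℕ × (ℕ → ℝ), ∀ g : ℕ → ℕ, Function.Injective g →
      ∀ J, ¬ ∀ j, J ≤ j → ∀ n ∈ blk (κ (g j)), y ∈ EE A n := by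
    intro y g hg J hcon
    have h1 := hfin y
    have h2 : (Ici J).Infinite := Ici_infinite J
    refine (h2.image (f := fun j => κ (g j))
      (fun a _ b _ hab => hg (hκm.injective hab))).mono ?_ h1
    rintro _ ⟨j, hj, rfl⟩
    exact fun n hn1 hn2 => hcon j hj n ⟨hn1, hn2⟩
  refine ⟨S, ?_, ?_⟩
  · -- `A_S` is not in `P`
    intro hP
    obtain ⟨d, c, P, h1⟩ := hP.dec
    obtain ⟨d', h2⟩ := Dec.poly (A := A) (d := d) (c := c) (P := P)
    refine hno (d', c) (fun j => 2 * j) (fun a b hab => by simpa using hab) 0 ?_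
    intro j _ n hn
    refine h2 n (hmpos _ n hn) ((h1 n).congr fun x hx => ?_)
    have hnS : n ∈ S := mem_iUnion.2 ⟨j, hn⟩
    simp [restr, hx, hnS]
  · -- `A` does not reduce to `A_S`
    rintro ⟨ρ, hρ1, hρ2⟩
    obtain ⟨dρ, cρ, P, h1⟩ := hρ1.cx
    let c : ℕ → ℝ := fun i => if i < dρ then cρ i else cA (i - dρ)
    obtain ⟨a, ha⟩ := poly_le_pow P
    obtain ⟨d', hd'⟩ := Dec.poly (A := A) (d := dρ + dA) (c := c) (P := P + Polynomial.X)
    refine hno (d', c) (fun j => 2 * j + 1) (fun a b hab => by simpa using hab) a ?_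
    intro j hj n hn
    have hn1 : 1 ≤ n := hmpos (2 * j + 1) n hn
    refine hd' n hn1 ?_
    obtain ⟨F, hF1, hF2⟩ := h1 n
    have hsmall : ∀ x : RInf, x.size = n → (ρ x).size ∈ S →
        (ρ x).size < m (κ (2 * j) + 1) := by
      intro x hx hxS
      have h3 : (ρ x).size ≤ n ^ a + a := (hF2 x hx).1.trans (ha a le_rfl n hn1)
      obtain ⟨i, hi1, hi2⟩ := mem_iUnion.1 hxS
      by_cases hij : i ≤ j
      · refine hi2.trans_le (hm.monotone ?_)
        have := hκm.monotone (show 2 * i ≤ 2 * j by omega)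
        omega
      · exfalso
        have h4 : m (κ (2 * j + 1 + 1)) ≤ m (κ (2 * i)) :=
          hm.monotone (hκm.monotone (show 2 * j + 1 + 1 ≤ 2 * i by omega))
        have h5 := hgap (2 * j + 1)
        have h6 : n < m (κ (2 * j + 1) + 1) := hn.2
        set b := m (κ (2 * j + 1) + 1) with hb
        have h7 : n ^ a ≤ b ^ (2 * j + 1 + 1) :=
          (Nat.pow_le_pow_left h6.le a).trans (Nat.pow_le_pow_right (by omega) (by omega))
        have h8 : b ^ (2 * j + 1 + 1) + (2 * j + 1 + 1) + b + 1 ≤ Fb b (2 * j + 1) := by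
          simp only [Fb]
          omega
        omega
    have h9 := dec_of_reduction (A := A) (S := S) hρ2 hF1 (fun x hx => (hF2 x hx).2) hT
      (m (κ (2 * j) + 1)) hsmall (d := dρ + dA) (c := c) le_rfl
      (fun i hi => by simp only [c]; rw [if_pos hi])
      (fun i hi => by simp only [c]; rw [if_neg (by omega)]; congr 1; omega)
    refine h9.le ?_
    rw [Polynomial.eval_add, Polynomial.eval_X]
    refine Nat.add_le_add_left ?_ _
    have h10 := hgap (2 * j)
    have h11 : m (κ (2 * j + 1)) ≤ n := hn.1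
    refine le_trans ?_ (h10.trans h11)
    simp only [Fb]
    have h12 : ∑ i ∈ Finset.range (m (κ (2 * j) + 1)), (T i + 2 * i + 6) ≤
        ∑ i ∈ Finset.range (m (κ (2 * j) + 1) + 1), (T i + 2 * i + 6) :=
      Finset.sum_le_sum_of_subset (Finset.range_mono (Nat.le_succ _))
    omega

/-- **Ladner's theorem for the real BSS model.** -/
theorem real_ladner (h : {L : Set RInf | InP L} ≠ {L : Set RInf | InNP L}) :
    ∃ L : Set RInf, InNP L ∧ ¬ InP L ∧ ¬ NPComplete L := by
  obtain ⟨A, hA, hA'⟩ : ∃ A, InNP A ∧ ¬ InP A := by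
    by_contra hcon
    push Not at hcon
    apply h
    ext L
    exact ⟨fun hL => InP.inNP hL, fun hL => hcon L hL⟩
  obtain ⟨S, h1, h2⟩ := ladner hA hA'
  exact ⟨restr A S, InNP.restr hA S, h1, fun h3 => h2 (h3.2 A hA)⟩

end Pool.Agent.W_MP_25fb88_lc
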