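import Pool.Agent.W_MP_25fb88_lc.TSMain
import Pool.Agent.W_MP_25fb88_lc.Compile

/-!
# Semialgebraic sets and straight line computations
-/

namespace Pool.Agent.W_MP_25fb88_lc

open Set MvPolynomial

/-! ### Computable functions are piecewise rational -/

/-- `f` is a quotient of two polynomials on `X`. -/
def Loc (f : (ℕ → ℝ) → ℝ) (X : Set (ℕ → ℝ)) : Prop :=
  ∃ p q : MvPolynomial ℕ ℤ, ∀ m ∈ X, aeval m q ≠ 0 ∧ f m = aeval m p / aeval m q

lemma Loc.subset {f : (ℕ → ℝ) → ℝ} (X Y : Set (ℕ → ℝ)) (hY : Y ⊆ X) (h : Loc f X) : Loc f Y := by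
  obtain ⟨p, q, h⟩ := h
  exact ⟨p, q, fun m hm => h m (hY hm)⟩

/-- The functions `0`, `1` and all coordinates. -/
def AllN : Set ((ℕ → ℝ) → ℝ) :=
  {f | f = (fun _ => 0) ∨ f = (fun _ => 1) ∨ ∃ i, f = fun m => m i}

lemma BaseN_subset_AllN (N : ℕ) : BaseN N ⊆ AllN := by
  rintro f (h | h | ⟨i, _, h⟩)
  · exact Or.inl h
  · exact Or.inr (Or.inl h)
  · exact Or.inr (Or.inr ⟨i, h⟩)

lemma pw_two {f g : (ℕ → ℝ) → ℝ} (hf : PW (Loc f) univ) (hg : PW (Loc g) univ)
    {Pr : Set (ℕ → ℝ) → Prop} (h : ∀ Y, Loc f Y → Loc g Y → PW Pr Y) : PW Pr univ := by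
  refine hf.bind fun Y _ hY => ?_
  refine (hg.subset Loc.subset (subset_univ Y)).bind fun Z hZ hgZ => ?_
  exact h Z (Loc.subset _ _ hZ hY) hgZ

lemma Cl.pw {f : (ℕ → ℝ) → ℝ} (hf : Cl AllN f) : PW (Loc f) univ := by
  induction hf with
  | base hf =>
    apply PW.leaf
    rcases hf with rfl | rfl | ⟨i, rfl⟩
    · exact ⟨0, 1, fun m _ => by simp⟩
    · exact ⟨1, 1, fun m _ => by simp⟩
    · exact ⟨X i, 1, fun m _ => by simp⟩
  | @arith op f g _ _ ih1 ih2 =>
    refine pw_two ih1 ih2 fun Y hf hg => ?_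
    obtain ⟨p, q, h1⟩ := hf
    obtain ⟨p', q', h2⟩ := hg
    cases op with
    | add =>
      refine PW.leaf ⟨p * q' + p' * q, q * q', fun m hm => ?_⟩
      obtain ⟨h3, h4⟩ := h1 m hm
      obtain ⟨h5, h6⟩ := h2 m hm
      simp only [map_add, map_mul, Op.eval]
      refine ⟨mul_ne_zero h3 h5, ?_⟩
      rw [h4, h6]
      field_simp
    | sub =>
      refine PW.leaf ⟨p * q' - p' * q, q * q', fun m hm => ?_⟩
      obtain ⟨h3, h4⟩ := h1 m hm
      obtain ⟨h5, h6⟩ := h2 m hm
      simp only [map_sub, map_mul, Op.eval]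
      refine ⟨mul_ne_zero h3 h5, ?_⟩
      rw [h4, h6]
      field_simp
    | mul =>
      refine PW.leaf ⟨p * p', q * q', fun m hm => ?_⟩
      obtain ⟨h3, h4⟩ := h1 m hm
      obtain ⟨h5, h6⟩ := h2 m hm
      simp only [map_mul, Op.eval]
      refine ⟨mul_ne_zero h3 h5, ?_⟩
      rw [h4, h6]
      field_simp
    | div =>
      refine PW.split {m | aeval m p' = 0} (sa_zero p') (PW.leaf ⟨0, 1, fun m hm => ?_⟩)
        (PW.leaf ⟨p * q', q * p', fun m hm => ?_⟩)
      · obtain ⟨h5, h6⟩ := h2 m hm.1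
        have h7 : aeval m p' = 0 := hm.2
        simp only [map_one, map_zero, Op.eval]
        rw [h6, h7]
        simp
      · obtain ⟨h3, h4⟩ := h1 m hm.1
        obtain ⟨h5, h6⟩ := h2 m hm.1
        have h7 : aeval m p' ≠ 0 := hm.2
        simp only [map_mul, Op.eval]
        refine ⟨mul_ne_zero h3 h7, ?_⟩
        rw [h4, h6]
        field_simp
  | @sel f g h _ _ _ ih1 ih2 ih3 =>
    refine pw_two ih1 ih2 fun Y hf hg => ?_
    refine (ih3.subset Loc.subset (subset_univ Y)).bind fun Z hZ hh => ?_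
    obtain ⟨p, q, h1⟩ := Loc.subset _ _ hZ hf
    obtain ⟨p2, q2, h2⟩ := Loc.subset _ _ hZ hg
    obtain ⟨p3, q3, h3⟩ := hh
    have key : ∀ m ∈ Z, (0 ≤ f m ↔ 0 ≤ aeval m (p * q)) := by
      intro m hm
      obtain ⟨h4, h5⟩ := h1 m hm
      rw [h5, map_mul]
      have h6 : aeval m p / aeval m q = (aeval m p * aeval m q) / (aeval m q * aeval m q) := by
        field_simp
      have h7 : 0 < aeval m q * aeval m q := mul_self_pos.2 h4
      rw [h6, div_nonneg_iff]
      constructor
      · rintro (⟨h8, _⟩ | ⟨_, h9⟩)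
        · exact h8
        · linarith
      · intro h8
        exact Or.inl ⟨h8, h7.le⟩
    refine PW.split {m | 0 ≤ aeval m (p * q)} (sa_nonneg _) (PW.leaf ⟨p2, q2, fun m hm => ?_⟩)
      (PW.leaf ⟨p3, q3, fun m hm => ?_⟩)
    · obtain ⟨h4, h5⟩ := h2 m hm.1
      refine ⟨h4, ?_⟩
      simp only
      rw [if_pos ((key m hm.1).2 hm.2), h5]
    · obtain ⟨h4, h5⟩ := h3 m hm.1
      refine ⟨h4, ?_⟩
      simp only
      rw [if_neg (fun h => hm.2 ((key m hm.1).1 h)), h5]

/-- Equality of computable functions is a semialgebraic condition. -/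
lemma sa_eq {f g : (ℕ → ℝ) → ℝ} (hf : Cl AllN f) (hg : Cl AllN g) : SA {m | f m = g m} := by
  have h1 : PW (Loc fun m => f m - g m) univ := (Cl.arith Op.sub hf hg).pw
  refine h1.sa_univ _ fun Y hY => ?_
  obtain ⟨p, q, h⟩ := hY
  refine ⟨_, sa_zero p, fun m hm => ?_⟩
  obtain ⟨h2, h3⟩ := h m hm
  simp only [mem_ofPred_eq] at h3 ⊢
  have h4 : f m = g m ↔ f m - g m = 0 := sub_eq_zero.symm
  rw [h4, h3, div_eq_zero_iff]
  simp [h2]

/-! ### Indicator functions of semialgebraic sets are computable -/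

lemma cl_zero : Cl AllN (fun _ => (0 : ℝ)) := Cl.base (Or.inl rfl)
lemma cl_one : Cl AllN (fun _ => (1 : ℝ)) := Cl.base (Or.inr (Or.inl rfl))
lemma cl_coord (i : ℕ) : Cl AllN (fun m => m i) := Cl.base (Or.inr (Or.inr ⟨i, rfl⟩))

lemma cl_nat (n : ℕ) : Cl AllN (fun _ => (n : ℝ)) := by
  induction n with
  | zero => simpa using cl_zero
  | succ n ih =>
    have h := Cl.arith Op.add ih cl_one
    have h1 : (fun _ : ℕ → ℝ => ((n + 1 : ℕ) : ℝ)) = fun a => Op.add.eval (n : ℝ) 1 := by
      funext _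
      simp [Op.eval]
    rw [h1]
    exact h

lemma cl_int (n : ℤ) : Cl AllN (fun _ => (n : ℝ)) := by
  obtain ⟨k, rfl | rfl⟩ := n.eq_nat_or_neg
  · simpa using cl_nat k
  · have h := Cl.arith Op.sub cl_zero (cl_nat k)
    have h1 : (fun _ : ℕ → ℝ => ((-(k : ℤ) : ℤ) : ℝ)) = fun a => Op.sub.eval 0 (k : ℝ) := by
      funext _
      simp [Op.eval]
    rw [h1]
    exact h

lemma cl_poly (p : MvPolynomial ℕ ℤ) : Cl AllN (fun m => aeval m p) := by
  induction p using MvPolynomial.induction_on with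
  | C a =>
    have h1 : (fun m : ℕ → ℝ => aeval m (C a : MvPolynomial ℕ ℤ)) = fun _ => (a : ℝ) := by
      funext m
      simp
    rw [h1]
    exact cl_int a
  | add p q hp hq =>
    have h1 : (fun m : ℕ → ℝ => aeval m (p + q)) =
        fun m => Op.add.eval (aeval m p) (aeval m q) := by
      funext m
      simp [Op.eval]
    rw [h1]
    exact Cl.arith Op.add hp hq
  | mul_X p i hp =>
    have h1 : (fun m : ℕ → ℝ => aeval m (p * X i)) =
        fun m => Op.mul.eval (aeval m p) (m i) := by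
      funext m
      simp [Op.eval]
    rw [h1]
    exact Cl.arith Op.mul hp (cl_coord i)

open Classical in
/-- Indicator function. -/
noncomputable def ind (S : Set (ℕ → ℝ)) : (ℕ → ℝ) → ℝ := fun m => if m ∈ S then 1 else 0

lemma SA.cl_ind {S : Set (ℕ → ℝ)} (h : SA S) : Cl AllN (ind S) := by
  induction h with
  | pos p =>
    have h1 : ind {m : ℕ → ℝ | 0 < aeval m p} =
        fun m => if 0 ≤ Op.sub.eval 0 (aeval m p) then 0 else 1 := by
      funext m
      unfold ind
      simp only [mem_ofPred_eq, Op.eval, zero_sub]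
      by_cases h : 0 < aeval m p
      · rw [if_pos h, if_neg (by linarith)]
      · rw [if_neg h, if_pos (by linarith)]
    rw [h1]
    exact Cl.sel (Cl.arith Op.sub cl_zero (cl_poly p)) cl_zero cl_one
  | @compl s _ ih =>
    have h1 : ind sᶜ = fun m => Op.sub.eval 1 (ind s m) := by
      funext m
      unfold ind
      by_cases h : m ∈ s <;> simp [h, Op.eval]
    rw [h1]
    exact Cl.arith Op.sub cl_one ih
  | @inter s t _ _ ih1 ih2 =>
    have h1 : ind (s ∩ t) = fun m => Op.mul.eval (ind s m) (ind t m) := by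
      funext m
      unfold ind
      by_cases h : m ∈ s <;> by_cases h' : m ∈ t <;> simp [h, h', Op.eval]
    rw [h1]
    exact Cl.arith Op.mul ih1 ih2

/-- Projection along the first coordinates. -/
lemma SA.projN {S : Set (ℕ → ℝ)} (h : SA S) (n : ℕ) :
    SA {u | ∃ v : ℕ → ℝ, (fun i => if i < n then v i else u i) ∈ S} := by
  induction n with
  | zero =>
    have h1 : {u : ℕ → ℝ | ∃ v : ℕ → ℝ, (fun i => if i < 0 then v i else u i) ∈ S} = S := by
      ext u
      simp
    rwa [h1]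
  | succ n ih =>
    have h1 := ih.proj n
    convert h1 using 1
    ext u
    simp only [mem_ofPred_eq]
    constructor
    · rintro ⟨v, hv⟩
      refine ⟨v n, v, ?_⟩
      convert hv using 1
      funext i
      by_cases h2 : i < n
      · rw [if_pos h2, if_pos (by omega)]
      · by_cases h3 : i = n
        · subst h3
          simp
        · rw [if_neg h2, if_neg (by omega), Function.update_of_ne h3]
    · rintro ⟨t, v, hv⟩
      refine ⟨Function.update v n t, ?_⟩
      convert hv using 1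
      funext i
      by_cases h2 : i < n
      · rw [if_pos h2, if_pos (by omega), Function.update_of_ne (by omega)]
      · by_cases h3 : i = n
        · subst h3
          simp
        · rw [if_neg h2, if_neg (by omega), Function.update_of_ne h3]

/-- Semialgebraic sets are Borel. -/
lemma SA.measurableSet {S : Set (ℕ → ℝ)} (h : SA S) : MeasurableSet S := by
  have hp : ∀ p : MvPolynomial ℕ ℤ, Measurable fun m : ℕ → ℝ => aeval m p := by
    intro p
    induction p using MvPolynomial.induction_on with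
    | C a => simp
    | add p q hp hq =>
      simp only [map_add]
      exact hp.add hq
    | mul_X p i hp =>
      simp only [map_mul, aeval_X]
      exact hp.mul (measurable_pi_apply i)
  induction h with
  | pos p => exact measurableSet_lt measurable_const (hp p)
  | compl _ ih => exact ih.compl
  | inter _ _ ih1 ih2 => exact ih1.inter ih2

/-- Substitution of computable functions. -/
lemma Cl.subst {N : ℕ} {f : (ℕ → ℝ) → ℝ} (hf : Cl (BaseN N) f) (φ : (ℕ → ℝ) → (ℕ → ℝ))
    (hφ : ∀ i < N, Cl AllN fun u => φ u i) : Cl AllN (f ∘ φ) := by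
  refine (hf.comp φ).trans ?_
  rintro _ ⟨g, (rfl | rfl | ⟨i, hi, rfl⟩), rfl⟩
  · exact cl_zero
  · exact cl_one
  · exact hφ i hi

/-- Substitution of computable functions, with values in computations over a restricted base. -/
lemma Cl.substN {N : ℕ} {f : (ℕ → ℝ) → ℝ} (hf : Cl AllN f) (φ : (ℕ → ℝ) → (ℕ → ℝ))
    (hφ : ∀ i, Cl (BaseN N) fun u => φ u i) : Cl (BaseN N) (f ∘ φ) := by
  refine (hf.comp φ).trans ?_
  rintro _ ⟨g, (rfl | rfl | ⟨i, rfl⟩), rfl⟩
  · exact Cl.base (zero_mem_BaseN N)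
  · exact Cl.base (one_mem_BaseN N)
  · exact hφ i

end Pool.Agent.W_MP_25fb88_lc
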