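import Mathlib

/-!
# Sign diagrams of real polynomials: inserting a polynomial whose derivative is already known
-/

namespace Pool.Agent.W_MP_25fb88_lc.TS

open Polynomial Set

/-- Sign of a real polynomial at a point. -/
noncomputable def sgn (f : ℝ[X]) (t : ℝ) : SignType := SignType.sign (f.eval t)

lemma sgn_neg (f : ℝ[X]) (t : ℝ) : sgn (-f) t = - sgn f t := by
  simp [sgn, Left.sign_neg]

lemma sgn_eq_one {f : ℝ[X]} {t : ℝ} : sgn f t = 1 ↔ 0 < f.eval t := by
  simp [sgn, sign_eq_one_iff]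

lemma sgn_eq_neg_one {f : ℝ[X]} {t : ℝ} : sgn f t = -1 ↔ f.eval t < 0 := by
  simp [sgn, sign_eq_neg_one_iff]

lemma sgn_eq_zero {f : ℝ[X]} {t : ℝ} : sgn f t = 0 ↔ f.eval t = 0 := by
  simp [sgn, sign_eq_zero_iff]

/-- Sign at a point or at minus infinity. -/
def SignAt (f : ℝ[X]) (a : WithBot ℝ) (s : SignType) : Prop :=
  (∀ a₀ : ℝ, a = a₀ → sgn f a₀ = s) ∧ (a = ⊥ → ∃ N : ℝ, ∀ t < N, sgn f t = s)

lemma SignAt.neg {f : ℝ[X]} {a : WithBot ℝ} {s : SignType} (h : SignAt f a s) :
    SignAt (-f) a (-s) := by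
  refine ⟨fun a₀ ha => by rw [sgn_neg, h.1 a₀ ha], fun ha => ?_⟩
  obtain ⟨N, hN⟩ := h.2 ha
  exact ⟨N, fun t ht => by rw [sgn_neg, hN t ht]⟩

/-- There are points to the left of `b`, not left of `a`, where the sign is `s`. -/
lemma SignAt.exists {f : ℝ[X]} {a : WithBot ℝ} {s : SignType} (h : SignAt f a s) {b : ℝ}
    (hb : a < b) : ∃ c : ℝ, a ≤ c ∧ c < b ∧ sgn f c = s := by
  cases a with
  | bot =>
    obtain ⟨N, hN⟩ := h.2 rfl
    refine ⟨min N b - 1, bot_le, ?_, hN _ ?_⟩
    · have := min_le_right N b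
      linarith
    · have := min_le_left N b
      linarith
  | coe a₀ =>
    exact ⟨a₀, le_rfl, by exact_mod_cast hb, h.1 a₀ rfl⟩

lemma lt_of_deriv {f : ℝ[X]} {s t : ℝ} (hst : s < t)
    (h : ∀ x, s < x → x < t → 0 < f.derivative.eval x) : f.eval s < f.eval t := by
  have h1 : StrictMonoOn (fun x => f.eval x) (Icc s t) := by
    refine strictMonoOn_of_deriv_pos (convex_Icc s t) f.continuous.continuousOn ?_
    intro x hx
    rw [interior_Icc] at hx
    rw [Polynomial.deriv]
    exact h x hx.1 hx.2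
  exact h1 (left_mem_Icc.2 hst.le) (right_mem_Icc.2 hst.le) hst

/-- Behaviour at infinity. -/
lemma exists_pos {f : ℝ[X]} (hf : 0 < f.natDegree) {a : ℝ}
    (h : ∀ x, a < x → 0 < f.derivative.eval x) : ∃ b, a < b ∧ 0 < f.eval b := by
  have hdeg : 0 < f.degree := natDegree_pos_iff_degree_pos.1 hf
  by_cases hl : 0 ≤ f.leadingCoeff
  · have h1 := f.tendsto_atTop_of_leadingCoeff_nonneg hdeg hl
    have h2 := (h1.eventually_gt_atTop 0).and (Filter.eventually_gt_atTop a)
    obtain ⟨b, hb⟩ := h2.exists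
    exact ⟨b, hb.2, hb.1⟩
  · exfalso
    have h1 := f.tendsto_atBot_of_leadingCoeff_nonpos hdeg (by linarith)
    have h2 := (h1.eventually_lt_atBot (f.eval (a + 1))).and (Filter.eventually_gt_atTop (a + 1))
    obtain ⟨b, hb1, hb2⟩ := h2.exists
    have h3 := lt_of_deriv (f := f) hb2 fun x hx _ => h x (by linarith)
    linarith

/-- Behaviour at minus infinity. -/
lemma signAt_bot {f : ℝ[X]} (hf : 0 < f.natDegree) {b : ℝ}
    (h : ∀ x, x < b → 0 < f.derivative.eval x) : SignAt f ⊥ (-1) := by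
  refine ⟨fun a₀ ha => by simp at ha, fun _ => ?_⟩
  have h1 : 0 < (-(f.comp (-X))).natDegree := by
    rw [natDegree_neg, natDegree_comp]
    simpa using hf
  have h2 : ∀ x, -b < x → 0 < (-(f.comp (-X))).derivative.eval x := by
    intro x hx
    rw [derivative_neg, derivative_comp]
    simp only [derivative_neg, derivative_X, eval_neg, eval_mul, eval_one, eval_comp, eval_X]
    have := h (-x) (by linarith)
    linarith
  obtain ⟨c, hc1, hc2⟩ := exists_pos h1 h2
  simp only [eval_neg, eval_comp, eval_X] at hc2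
  refine ⟨-c, fun t ht => ?_⟩
  rw [sgn_eq_neg_one]
  have h3 := lt_of_deriv (f := f) ht fun x _ hx => h x (by linarith)
  linarith

section Interval

variable {f : ℝ[X]} {a : WithBot ℝ} {sa δ : SignType}

/-- Case 1: the sign at the left endpoint is zero or that of the derivative. -/
lemma interval_one (hδ : δ ≠ 0) (hs : SignAt f a sa) (hsa : sa ≠ -δ) {t : ℝ} (ht : a < t)
    (h : ∀ x : ℝ, a < x → x < t → sgn f.derivative x = δ) : sgn f t = δ := by
  wlog hd : δ = 1 generalizing f sa δ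
  · have hd' : δ = -1 := by cases δ <;> simp_all
    subst hd'
    have h1 := this (f := -f) (sa := -sa) (δ := 1) (by decide) hs.neg
      (by cases sa <;> simp_all) (fun x hx1 hx2 => by
        rw [derivative_neg, sgn_neg, h x hx1 hx2]; decide) rfl
    rw [sgn_neg] at h1
    cases hh : sgn f t <;> simp_all
  subst hd
  obtain ⟨c, hc1, hc2, hc3⟩ := hs.exists ht
  rw [sgn_eq_one]
  have h1 : 0 ≤ f.eval c := by
    by_contra hneg
    push Not at hneg
    rw [sgn_eq_neg_one.2 hneg] at hc3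
    exact hsa hc3.symm
  have h2 := lt_of_deriv (f := f) hc2 fun x hx1 hx2 => by
    have h3 := h x (hc1.trans_lt (by exact_mod_cast hx1)) hx2
    rwa [sgn_eq_one] at h3
  linarith

/-- Case 2: the sign at the right endpoint is zero or opposite to that of the derivative. -/
lemma interval_two (hδ : δ ≠ 0) {b t : ℝ} (hb : sgn f b ≠ δ) (ht : t < b)
    (h : ∀ x : ℝ, t < x → x < b → sgn f.derivative x = δ) : sgn f t = -δ := by
  wlog hd : δ = 1 generalizing f δ
  · have hd' : δ = -1 := by cases δ <;> simp_all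
    subst hd'
    have h1 := this (f := -f) (δ := 1) (by decide) (by
        rw [sgn_neg]
        cases hh : sgn f b <;> simp_all) (fun x hx1 hx2 => by
        rw [derivative_neg, sgn_neg, h x hx1 hx2]; decide) rfl
    rw [sgn_neg] at h1
    cases hh : sgn f t <;> simp_all
  subst hd
  have h1 : f.eval b ≤ 0 := by
    by_contra hneg
    push Not at hneg
    exact hb (sgn_eq_one.2 hneg)
  have h2 := lt_of_deriv (f := f) ht fun x hx1 hx2 => by
    have h3 := h x hx1 hx2
    rwa [sgn_eq_one] at h3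
  show sgn f t = -1
  rw [sgn_eq_neg_one]
  linarith

/-- Case 3: opposite signs at the endpoints. -/
lemma interval_three (hδ : δ ≠ 0) (hs : SignAt f a (-δ)) {b : ℝ} (hab : a < b)
    (hb : sgn f b = δ) (h : ∀ x : ℝ, a < x → x < b → sgn f.derivative x = δ) :
    ∃ r : ℝ, a < r ∧ r < b ∧ sgn f r = 0 ∧ (∀ t : ℝ, a < t → t < r → sgn f t = -δ) ∧
      ∀ t : ℝ, r < t → t < b → sgn f t = δ := by
  obtain ⟨c, hc1, hc2, hc3⟩ := hs.exists hab
  have h0 : ∃ r, c < r ∧ r < b ∧ f.eval r = 0 := by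
    have hcont : ContinuousOn (fun x => f.eval x) (Icc c b) := f.continuous.continuousOn
    rcases (show δ = 1 ∨ δ = -1 by cases δ <;> simp_all) with rfl | rfl
    · rw [sgn_eq_one] at hb
      have hc4 : f.eval c < 0 := sgn_eq_neg_one.1 hc3
      obtain ⟨r, hr, hr0⟩ := intermediate_value_Ioo hc2.le hcont ⟨hc4, hb⟩
      exact ⟨r, hr.1, hr.2, hr0⟩
    · rw [sgn_eq_neg_one] at hb
      have hc4 : 0 < f.eval c := by
        rw [← sgn_eq_one, hc3]
        decide
      obtain ⟨r, hr, hr0⟩ := intermediate_value_Ioo' hc2.le hcont ⟨hb, hc4⟩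
      exact ⟨r, hr.1, hr.2, hr0⟩
  obtain ⟨r, hr1, hr2, hr3⟩ := h0
  have har : a < r := hc1.trans_lt (by exact_mod_cast hr1)
  have hr0 : sgn f r = 0 := sgn_eq_zero.2 hr3
  refine ⟨r, har, hr2, hr0, fun t ht1 ht2 => ?_, fun t ht1 ht2 => ?_⟩
  · refine interval_two hδ (by rw [hr0]; exact hδ.symm) ht2 fun x hx1 hx2 => ?_
    exact h x (ht1.trans (by exact_mod_cast hx1)) (hx2.trans hr2)
  · refine interval_one (a := (r : WithBot ℝ)) (sa := 0) hδ ?_ ?_ (by exact_mod_cast ht1)
      fun x hx1 hx2 => ?_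
    · refine ⟨fun a₀ ha => ?_, fun ha => by simp at ha⟩
      have : r = a₀ := by exact_mod_cast ha
      rw [← this]
      exact hr0
    · cases δ <;> simp_all
    · exact h x (har.trans hx1) (hx2.trans ht2)

/-- Case 4: unbounded interval with a sign change. -/
lemma interval_four (hf : 0 < f.natDegree) (hδ : δ ≠ 0) (hs : SignAt f a (-δ))
    (h : ∀ x : ℝ, a < x → sgn f.derivative x = δ) :
    ∃ r : ℝ, a < r ∧ sgn f r = 0 ∧ (∀ t : ℝ, a < t → t < r → sgn f t = -δ) ∧
      ∀ t : ℝ, r < t → sgn f t = δ := by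
  have h1 : ∃ b : ℝ, a < b ∧ sgn f b = δ := by
    obtain ⟨a₁, ha₁⟩ : ∃ a₁ : ℝ, a ≤ a₁ := by
      cases a with
      | bot => exact ⟨0, bot_le⟩
      | coe a₀ => exact ⟨a₀, le_rfl⟩
    rcases (show δ = 1 ∨ δ = -1 by cases δ <;> simp_all) with rfl | rfl
    · obtain ⟨b, hb1, hb2⟩ := exists_pos hf (a := a₁) fun x hx => by
        rw [← sgn_eq_one]
        exact h x (ha₁.trans_lt (by exact_mod_cast hx))
      exact ⟨b, ha₁.trans_lt (by exact_mod_cast hb1), sgn_eq_one.2 hb2⟩
    · obtain ⟨b, hb1, hb2⟩ := exists_pos (f := -f) (by rwa [natDegree_neg]) (a := a₁)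
        fun x hx => by
        rw [← sgn_eq_one, derivative_neg, sgn_neg, h x (ha₁.trans_lt (by exact_mod_cast hx))]
        decide
      refine ⟨b, ha₁.trans_lt (by exact_mod_cast hb1), ?_⟩
      rw [sgn_eq_neg_one]
      rw [eval_neg] at hb2
      linarith
  obtain ⟨b, hab, hb⟩ := h1
  obtain ⟨r, hr1, hr2, hr3, hr4, hr5⟩ := interval_three hδ hs hab hb fun x hx _ => h x hx
  refine ⟨r, hr1, hr3, hr4, fun t ht => ?_⟩
  refine interval_one (a := (r : WithBot ℝ)) (sa := 0) hδ ?_ ?_ (by exact_mod_cast ht)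
    fun x hx1 hx2 => ?_
  · refine ⟨fun a₀ ha => ?_, fun ha => by simp at ha⟩
    have : r = a₀ := by exact_mod_cast ha
    rw [← this]
    exact hr3
  · cases δ <;> simp_all
  · exact h x (hr1.trans hx1)

end Interval

/-! ### Diagrams -/

/-- Sign diagrams. -/
inductive Diag (V : Type) : Type
  | last (σ : V)
  | cons (σ τ : V) (D : Diag V)

/-- Realisation of a diagram to the right of `a`. -/
def Realizes {V : Type} (I P : ℝ → V → Prop) : WithBot ℝ → Diag V → Prop
  | a, .last σ => ∀ t : ℝ, a < t → I t σ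
  | a, .cons σ τ D => ∃ r : ℝ, a < r ∧ (∀ t : ℝ, a < t → t < r → I t σ) ∧ P r τ ∧
      Realizes I P r D

lemma Realizes.mono {V : Type} {I P I' P' : ℝ → V → Prop} (hI : ∀ t σ, I t σ → I' t σ)
    (hP : ∀ t σ, P t σ → P' t σ) (D : Diag V) : ∀ {a : WithBot ℝ}, Realizes I P a D →
      Realizes I' P' a D := by
  induction D with
  | last σ => intro a h t ht; exact hI _ _ (h t ht)
  | cons σ τ D ih =>
    rintro a ⟨r, h1, h2, h3, h4⟩
    exact ⟨r, h1, fun t ht1 ht2 => hI _ _ (h2 t ht1 ht2), hP _ _ h3, ih h4⟩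

/-- Relabelling. -/
def Diag.map {V W : Type} (φ : V → W) : Diag V → Diag W
  | .last σ => .last (φ σ)
  | .cons σ τ D => .cons (φ σ) (φ τ) (D.map φ)

lemma Realizes.map {V W : Type} {I P : ℝ → V → Prop} {I' P' : ℝ → W → Prop} (φ : V → W)
    (hI : ∀ t σ, I t σ → I' t (φ σ)) (hP : ∀ t σ, P t σ → P' t (φ σ)) (D : Diag V) :
    ∀ {a : WithBot ℝ}, Realizes I P a D → Realizes I' P' a (D.map φ) := by
  induction D with
  | last σ => intro a h t ht; exact hI _ _ (h t ht)
  | cons σ τ D ih =>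
    rintro a ⟨r, h1, h2, h3, h4⟩
    exact ⟨r, h1, fun t ht1 ht2 => hI _ _ (h2 t ht1 ht2), hP _ _ h3, ih h4⟩

/-- The first label. -/
def Diag.first {V : Type} : Diag V → V
  | .last σ => σ
  | .cons σ _ _ => σ

/-- Forgetting a point where nothing happens. -/
lemma Realizes.extend {V : Type} {I P : ℝ → V → Prop}
    (h0 : ∀ t σ σ', I t σ → I t σ' → ∀ s, I s σ → I s σ') {a : WithBot ℝ} {r : ℝ} (har : a < r)
    {σ τ : V} (h1 : ∀ t : ℝ, a < t → t < r → I t σ) (h2 : I r τ)
    (h3 : ∃ ε > 0, ∀ t, r - ε < t → t < r + ε → I t τ) (D : Diag V) (h : Realizes I P r D) :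
    Realizes I P a D := by
  obtain ⟨ε, hε, h3⟩ := h3
  -- a point left of `r`
  obtain ⟨c, hc1, hc2⟩ : ∃ c : ℝ, a ≤ c ∧ c < r := by
    cases a with
    | bot => exact ⟨r - 1, bot_le, by linarith⟩
    | coe a₀ => exact ⟨a₀, le_rfl, by exact_mod_cast har⟩
  have hστ : ∀ s, I s σ → I s τ := by
    have h4 : max c (r - ε) < r := max_lt hc2 (by linarith)
    obtain ⟨t, ht1, ht2⟩ := exists_between h4
    have ht3 : c < t := (le_max_left _ _).trans_lt ht1
    have ht4 : r - ε < t := (le_max_right _ _).trans_lt ht1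
    exact h0 t σ τ (h1 t (hc1.trans_lt (by exact_mod_cast ht3)) ht2) (h3 t ht4 (by linarith))
  cases D with
  | last σ' =>
    have hτσ : ∀ s, I s τ → I s σ' :=
      h0 (r + ε / 2) τ σ' (h3 _ (by linarith) (by linarith))
        (h _ (by exact_mod_cast (by linarith : r < r + ε / 2)))
    intro t ht
    rcases lt_trichotomy t r with h5 | h5 | h5
    · exact hτσ _ (hστ _ (h1 t ht h5))
    · rw [h5]
      exact hτσ _ h2
    · exact h t (by exact_mod_cast h5)
  | cons σ' τ' D =>
    obtain ⟨r', h4, h5, h6, h7⟩ := h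
    have h4' : r < r' := by exact_mod_cast h4
    have hτσ : ∀ s, I s τ → I s σ' := by
      have h8 : r < min r' (r + ε) := lt_min h4' (by linarith)
      obtain ⟨t, ht1, ht2⟩ := exists_between h8
      have ht3 : t < r' := ht2.trans_le (min_le_left _ _)
      have ht4 : t < r + ε := ht2.trans_le (min_le_right _ _)
      exact h0 t τ σ' (h3 t (by linarith) ht4) (h5 t (by exact_mod_cast ht1) ht3)
    refine ⟨r', har.trans (by exact_mod_cast h4'), fun t ht1 ht2 => ?_, h6, h7⟩
    rcases lt_trichotomy t r with h8 | h8 | h8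
    · exact hτσ _ (hστ _ (h1 t ht1 h8))
    · rw [h8]
      exact hτσ _ h2
    · exact h5 t (by exact_mod_cast h8) ht2

section Build

variable {K : Type} [DecidableEq K] (f f' : K) (root : (K → SignType) → Prop)
  [DecidablePred root] (fs : (K → SignType) → SignType)

/-- Insert the signs of the polynomial `f` in a diagram containing those of its derivative. -/
def build : SignType → Diag (K → SignType) → Diag (K → SignType)
  | sa, .last σ =>
    if sa = -(σ f') then
      .cons (Function.update σ f sa) (Function.update σ f 0) (.last (Function.update σ f (σ f')))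
    else .last (Function.update σ f (σ f'))
  | sa, .cons σ τ D =>
    if root τ then
      if sa = -(σ f') ∧ fs τ = σ f' then
        .cons (Function.update σ f sa) (Function.update σ f 0)
          (.cons (Function.update σ f (σ f')) (Function.update τ f (fs τ)) (build (fs τ) D))
      else
        .cons (Function.update σ f (if sa = -(σ f') then -(σ f') else σ f'))
          (Function.update τ f (fs τ)) (build (fs τ) D)
    else build sa D

variable {f f' root fs}

/-- Correctness of `build`. -/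
theorem build_realizes (p : ℝ[X]) (hp : 0 < p.natDegree) (I : ℝ → (K → SignType) → Prop)
    (J : ℝ → (K → SignType) → Prop)
    (h0 : ∀ t σ σ', I t σ → I t σ' → ∀ s, I s σ → I s σ')
    (h1 : ∀ r τ, I r τ → ¬ root τ → ∃ ε > 0, ∀ t, r - ε < t → t < r + ε → I t τ)
    (h2 : ∀ t σ, I t σ → sgn p.derivative t = σ f')
    (hJ : ∀ t σ s, I t σ → sgn p t = s → J t (Function.update σ f s))
    (D : Diag (K → SignType)) : ∀ (a : WithBot ℝ) (sa : SignType),
      Realizes I (fun t τ => I t τ ∧ (root τ → sgn p t = fs τ)) a D → SignAt p a sa →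
      Realizes J J a (build f f' root fs sa D) := by
  have hne : ∀ (c b : ℝ) (σ : K → SignType), c < b → (∀ t, c < t → t < b → I t σ) → σ f' ≠ 0 := by
    intro c b σ hcb h hσ
    have h3 : p.derivative ≠ 0 := by
      intro h4
      have := derivative_eq_zero.1 h4
      omega
    have h4 : Ioo c b ⊆ {t | p.derivative.IsRoot t} := by
      intro t ht
      have := h2 t σ (h t ht.1 ht.2)
      rw [hσ, sgn_eq_zero] at this
      exact this
    exact (Ioo_infinite hcb) ((finite_setOfPred_isRoot h3).subset h4)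
  induction D with
  | last σ =>
    intro a sa h hs
    have h' : ∀ t : ℝ, a < t → I t σ := h
    obtain ⟨a₁, ha₁⟩ : ∃ a₁ : ℝ, a ≤ a₁ := by
      cases a with
      | bot => exact ⟨0, bot_le⟩
      | coe a₀ => exact ⟨a₀, le_rfl⟩
    have hδ : σ f' ≠ 0 := hne a₁ (a₁ + 1) σ (by linarith) fun t ht _ =>
      h' t (ha₁.trans_lt (by exact_mod_cast ht))
    rw [build]
    split_ifs with hsa
    · rw [hsa] at hs
      obtain ⟨r, hr1, hr2, hr3, hr4⟩ := interval_four hp hδ hs fun x hx => h2 x σ (h' x hx)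
      refine ⟨r, hr1, fun t ht1 ht2 => hJ _ _ _ (h' t ht1) ?_, hJ _ _ _ (h' r hr1) hr2, ?_⟩
      · rw [hsa]
        exact hr3 t ht1 ht2
      · intro t ht
        have ht' : r < t := by exact_mod_cast ht
        exact hJ _ _ _ (h' t (hr1.trans ht)) (hr4 t ht')
    · intro t ht
      exact hJ _ _ _ (h' t ht) (interval_one hδ hs hsa ht fun x hx _ => h2 x σ (h' x hx))
  | cons σ τ D ih =>
    rintro a sa ⟨r, h3, h4, ⟨h5, h6⟩, h7⟩ hs
    rw [build]
    by_cases hroot : root τ
    swap
    · -- not a root: forget the point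
      rw [if_neg hroot]
      exact ih a sa (h7.extend h0 h3 h4 h5 (h1 r τ h5 hroot)) hs
    rw [if_pos hroot]
    by_cases hsa : sa = -(σ f') ∧ fs τ = σ f'
    · -- a root, sign change
      rw [if_pos hsa]
      have hfr := h6 hroot
      obtain ⟨c, hc1, hc2⟩ : ∃ c : ℝ, a ≤ c ∧ c < r := by
        cases a with
        | bot => exact ⟨r - 1, bot_le, by linarith⟩
        | coe a₀ => exact ⟨a₀, le_rfl, by exact_mod_cast h3⟩
      have hδ : σ f' ≠ 0 := hne c r σ hc2 fun t ht1 ht2 =>
        h4 t (hc1.trans_lt (by exact_mod_cast ht1)) ht2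
      have hs' := hs
      rw [hsa.1] at hs'
      obtain ⟨ρ, hρ1, hρ2, hρ3, hρ4, hρ5⟩ := interval_three hδ hs' h3 (hfr.trans hsa.2)
        fun x hx1 hx2 => h2 x σ (h4 x hx1 hx2)
      refine ⟨ρ, hρ1, fun t ht1 ht2 => hJ _ _ _ (h4 t ht1 (ht2.trans hρ2)) ?_,
        hJ _ _ _ (h4 ρ hρ1 hρ2) hρ3, r, by exact_mod_cast hρ2, fun t ht1 ht2 => ?_,
        hJ _ _ _ h5 hfr, ih r (fs τ) h7 ?_⟩
      · rw [hsa.1]
        exact hρ4 t ht1 ht2
      · exact hJ _ _ _ (h4 t (hρ1.trans ht1) ht2) (hρ5 t (by exact_mod_cast ht1) ht2)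
      · refine ⟨fun a₀ ha => ?_, fun ha => by simp at ha⟩
        have : r = a₀ := by exact_mod_cast ha
        rw [← this]
        exact hfr
    · -- a root, no sign change
      rw [if_neg hsa]
      have hfr := h6 hroot
      obtain ⟨c, hc1, hc2⟩ : ∃ c : ℝ, a ≤ c ∧ c < r := by
        cases a with
        | bot => exact ⟨r - 1, bot_le, by linarith⟩
        | coe a₀ => exact ⟨a₀, le_rfl, by exact_mod_cast h3⟩
      have hδ : σ f' ≠ 0 := hne c r σ hc2 fun t ht1 ht2 =>
        h4 t (hc1.trans_lt (by exact_mod_cast ht1)) ht2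
      refine ⟨r, h3, fun t ht1 ht2 => hJ _ _ _ (h4 t ht1 ht2) ?_, hJ _ _ _ h5 hfr,
        ih r (fs τ) h7 ?_⟩
      · by_cases hsa' : sa = -(σ f')
        · rw [if_pos hsa']
          refine interval_two hδ (b := r) ?_ ht2 fun x hx1 hx2 =>
            h2 x σ (h4 x (ht1.trans (by exact_mod_cast hx1)) hx2)
          intro h8
          exact hsa ⟨hsa', hfr.symm.trans h8⟩
        · rw [if_neg hsa']
          exact interval_one hδ hs hsa' ht1 fun x hx1 hx2 =>
            h2 x σ (h4 x hx1 (hx2.trans ht2))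
      · refine ⟨fun a₀ ha => ?_, fun ha => by simp at ha⟩
        have : r = a₀ := by exact_mod_cast ha
        rw [← this]
        exact hfr

end Build

end Pool.Agent.W_MP_25fb88_lc.TS
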