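import Pool.Agent.W_MP_25fb88_lc.TSReal

/-!
# Semialgebraic sets and finite case distinctions
-/

namespace Pool.Agent.W_MP_25fb88_lc

open Set MvPolynomial

/-- Semialgebraic sets with integral coefficients in infinitely many variables. -/
inductive SA : Set (ℕ → ℝ) → Prop
  | pos (p : MvPolynomial ℕ ℤ) : SA {m | 0 < MvPolynomial.aeval m p}
  | compl {s : Set (ℕ → ℝ)} : SA s → SA sᶜ
  | inter {s t : Set (ℕ → ℝ)} : SA s → SA t → SA (s ∩ t)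

lemma SA.union {s t : Set (ℕ → ℝ)} (hs : SA s) (ht : SA t) : SA (s ∪ t) := by
  have h := (hs.compl.inter ht.compl).compl
  rwa [compl_inter, compl_compl, compl_compl] at h

lemma sa_empty : SA (∅ : Set (ℕ → ℝ)) := by
  have h := SA.pos 0
  have h1 : {m : ℕ → ℝ | 0 < aeval m (0 : MvPolynomial ℕ ℤ)} = ∅ := by
    ext m
    simp
  rwa [h1] at h

lemma sa_univ : SA (univ : Set (ℕ → ℝ)) := by
  have h := sa_empty.compl
  rwa [compl_empty] at h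

lemma sa_nonneg (p : MvPolynomial ℕ ℤ) : SA {m | 0 ≤ aeval m p} := by
  have h := (SA.pos (-p)).compl
  have h1 : {m : ℕ → ℝ | 0 < aeval m (-p)}ᶜ = {m | 0 ≤ aeval m p} := by
    ext m
    simp
  rwa [h1] at h

lemma sa_zero (p : MvPolynomial ℕ ℤ) : SA {m | aeval m p = 0} := by
  have h := (sa_nonneg p).inter (sa_nonneg (-p))
  have h1 : {m : ℕ → ℝ | 0 ≤ aeval m p} ∩ {m | 0 ≤ aeval m (-p)} = {m | aeval m p = 0} := by
    ext m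
    simp only [mem_inter_iff, mem_ofPred_eq, map_neg]
    constructor
    · rintro ⟨h1, h2⟩
      linarith
    · intro h1
      rw [h1]
      simp
  rwa [h1] at h

/-- `Pr` holds on the pieces of a finite semialgebraic case distinction. -/
inductive PW (Pr : Set (ℕ → ℝ) → Prop) : Set (ℕ → ℝ) → Prop
  | leaf {X : Set (ℕ → ℝ)} (h : Pr X) : PW Pr X
  | split {X : Set (ℕ → ℝ)} (Y : Set (ℕ → ℝ)) (hY : SA Y) (h1 : PW Pr (X ∩ Y))
      (h2 : PW Pr (X ∩ Yᶜ)) : PW Pr X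

lemma PW.subset {Pr : Set (ℕ → ℝ) → Prop} (hPr : ∀ X Y, Y ⊆ X → Pr X → Pr Y) {X : Set (ℕ → ℝ)}
    (h : PW Pr X) : ∀ {Y : Set (ℕ → ℝ)}, Y ⊆ X → PW Pr Y := by
  induction h with
  | leaf h => intro Y hY; exact PW.leaf (hPr _ _ hY h)
  | split Z hZ _ _ ih1 ih2 =>
    intro Y hY
    exact PW.split Z hZ (ih1 (inter_subset_inter_left _ hY)) (ih2 (inter_subset_inter_left _ hY))

lemma PW.bind {Pr Pr' : Set (ℕ → ℝ) → Prop} {X : Set (ℕ → ℝ)} (h : PW Pr X)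
    (h' : ∀ Y ⊆ X, Pr Y → PW Pr' Y) : PW Pr' X := by
  induction h with
  | leaf h => exact h' _ Subset.rfl h
  | split Z hZ _ _ ih1 ih2 =>
    exact PW.split Z hZ (ih1 fun Y hY => h' Y (hY.trans inter_subset_left))
      (ih2 fun Y hY => h' Y (hY.trans inter_subset_left))

lemma PW.imp {Pr Pr' : Set (ℕ → ℝ) → Prop} {X : Set (ℕ → ℝ)} (h : PW Pr X)
    (h' : ∀ Y ⊆ X, Pr Y → Pr' Y) : PW Pr' X := h.bind fun Y hY hP => PW.leaf (h' Y hY hP)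

lemma PW.and {Pr Pr' : Set (ℕ → ℝ) → Prop} (hPr : ∀ X Y, Y ⊆ X → Pr X → Pr Y)
    (hPr' : ∀ X Y, Y ⊆ X → Pr' X → Pr' Y) {X : Set (ℕ → ℝ)} (h : PW Pr X) (h' : PW Pr' X) :
    PW (fun Y => Pr Y ∧ Pr' Y) X :=
  h.bind fun _ hY hP => (h'.subset hPr' hY).imp fun _ hZ hP' => ⟨hPr _ _ hZ hP, hP'⟩

lemma PW.finset {ι : Type*} [DecidableEq ι] {Pr : ι → Set (ℕ → ℝ) → Prop}
    (hPr : ∀ i X Y, Y ⊆ X → Pr i X → Pr i Y) {X : Set (ℕ → ℝ)} (t : Finset ι)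
    (h : ∀ i ∈ t, PW (Pr i) X) : PW (fun Y => ∀ i ∈ t, Pr i Y) X := by
  induction t using Finset.induction_on with
  | empty => exact PW.leaf (by simp)
  | insert a t ha ih =>
    have h1 := PW.and (hPr a) (fun X Y hY (hX : ∀ i ∈ t, Pr i X) i hi => hPr i X Y hY (hX i hi))
      (h a (Finset.mem_insert_self _ _)) (ih fun i hi => h i (Finset.mem_insert_of_mem hi))
    refine h1.imp fun Y _ hY i hi => ?_
    rcases Finset.mem_insert.1 hi with rfl | hi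
    · exact hY.1
    · exact hY.2 i hi

lemma PW.sa {Pr : Set (ℕ → ℝ) → Prop} {X : Set (ℕ → ℝ)} (h : PW Pr X) (φ : (ℕ → ℝ) → Prop)
    (hφ : ∀ Y, Pr Y → ∃ S, SA S ∧ ∀ m ∈ Y, (m ∈ S ↔ φ m)) :
    ∃ S, SA S ∧ ∀ m ∈ X, (m ∈ S ↔ φ m) := by
  induction h with
  | leaf h => exact hφ _ h
  | @split X Z hZ _ _ ih1 ih2 =>
    obtain ⟨S1, h1, h2⟩ := ih1
    obtain ⟨S2, h3, h4⟩ := ih2
    refine ⟨(Z ∩ S1) ∪ (Zᶜ ∩ S2), SA.union (hZ.inter h1) (hZ.compl.inter h3), fun m hm => ?_⟩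
    by_cases hmZ : m ∈ Z
    · rw [← h2 m ⟨hm, hmZ⟩]
      simp [hmZ]
    · rw [← h4 m ⟨hm, hmZ⟩]
      simp [hmZ]

lemma PW.sa_univ {Pr : Set (ℕ → ℝ) → Prop} (h : PW Pr univ) (φ : (ℕ → ℝ) → Prop)
    (hφ : ∀ Y, Pr Y → ∃ S, SA S ∧ ∀ m ∈ Y, (m ∈ S ↔ φ m)) : SA {m | φ m} := by
  obtain ⟨S, h1, h2⟩ := h.sa φ hφ
  have : {m | φ m} = S := by
    ext m
    exact (h2 m (mem_univ m)).symm
  rwa [this]

/-- The sign of `h` is constant on `X`. -/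
def CstSign (h : MvPolynomial ℕ ℤ) (X : Set (ℕ → ℝ)) : Prop :=
  ∃ s : SignType, ∀ m ∈ X, SignType.sign (aeval m h) = s

lemma CstSign.subset (h : MvPolynomial ℕ ℤ) (X Y : Set (ℕ → ℝ)) (hY : Y ⊆ X)
    (hX : CstSign h X) : CstSign h Y := by
  obtain ⟨s, hs⟩ := hX
  exact ⟨s, fun m hm => hs m (hY hm)⟩

lemma pw_cstSign (h : MvPolynomial ℕ ℤ) (X : Set (ℕ → ℝ)) : PW (CstSign h) X := by
  refine PW.split _ (SA.pos h) (PW.leaf ⟨1, fun m hm => ?_⟩)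
    (PW.split _ (sa_zero h) (PW.leaf ⟨0, fun m hm => ?_⟩) (PW.leaf ⟨-1, fun m hm => ?_⟩))
  · exact sign_eq_one_iff.2 hm.2
  · exact sign_eq_zero_iff.2 hm.2
  · have h1 : ¬ 0 < aeval m h := hm.1.2
    have h2 : ¬ aeval m h = 0 := hm.2
    rw [sign_eq_neg_one_iff]
    exact lt_of_le_of_ne (not_lt.1 h1) h2

end Pool.Agent.W_MP_25fb88_lc
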