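import Pool.Agent.W_MP_25fb88_lc.Interp

/-!
# The universal machine
-/

namespace Pool.Agent.W_MP_25fb88_lc

open Set

/-- Blocks of the universal machine. -/
inductive Blk
  | init | skipLoop | skipDec | s0 | s1 | s0y | s1y
  | E (k : Fin 13)
  | opb (o : TOp)
  | selB | fin

instance : Finite Blk := by
  let f : Blk → Fin 11 × (Option (Fin 13) × Option TOp) := fun b => match b with
    | .init => (0, none, none)
    | .skipLoop => (1, none, none)
    | .skipDec => (2, none, none)
    | .s0 => (3, none, none)
    | .s1 => (4, none, none)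
    | .s0y => (5, none, none)
    | .s1y => (6, none, none)
    | .E k => (7, some k, none)
    | .opb o => (8, none, some o)
    | .selB => (9, none, none)
    | .fin => (10, none, none)
  have : Function.Injective f := by
    intro a b h
    cases a <;> cases b <;> simp_all [f]
  exact Finite.of_injective f this

/-- Reading a digit: afterwards register `4` holds three times the old content and register `7`
the same minus one. -/
def readBody : List Simple := [.arith .add 7 4 4, .arith .add 4 7 4, .arith .sub 7 4 6]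

/-- Initialisation. -/
def initBody (d : ℕ) (c : ℕ → ℝ) (β₀ : ℝ) : List Simple :=
  List.replicate (7 + d) .shiftRight ++ ([.copy 5 (7 + d)] ++
    ((List.range d).map (fun i : ℕ => Simple.const (8 + i) (c i)) ++ [.const 6 1, .const 4 β₀]))

/-- Bodies of the blocks. -/
def blkBody (d : ℕ) (c : ℕ → ℝ) (β₀ : ℝ) : Blk → List Simple
  | .init => initBody d c β₀
  | .skipLoop => [.arith .sub 7 5 6]
  | .skipDec => [.copy 5 7]
  | .s0 => readBody
  | .s1 => readBody
  | .s0y => [.copy 4 7]
  | .s1y => [.copy 4 7]
  | .E _ => readBody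
  | .opb o => .copy 4 7 :: opBody o
  | .selB => [.copy 1 2]
  | .fin => [.copy 0 1]

/-- Terminators of the blocks. -/
def blkTerm : Blk → Term Blk
  | .init => .goto .skipLoop
  | .skipLoop => .branch 7 .skipDec (.E 0)
  | .skipDec => .goto .s0
  | .s0 => .branch 7 .s0y .s1
  | .s1 => .branch 7 .s1y .s1
  | .s0y => .goto .skipLoop
  | .s1y => .goto .s0
  | .E k => .branch 7 (if k.1 = 0 then .fin else .opb (decode k.1))
      (if h : k.1 + 1 < 13 then .E ⟨k.1 + 1, h⟩ else .fin)
  | .opb .select => .branch 3 (.E 0) .selB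
  | .opb _ => .goto (.E 0)
  | .selB => .goto (.E 0)
  | .fin => .halt

/-- The universal machine with given constants. -/
abbrev U (d : ℕ) (c : ℕ → ℝ) (β₀ : ℝ) : BM where
  B := Blk
  finite := inferInstance
  start := .init
  body := blkBody d c β₀
  term := blkTerm

section

variable (d : ℕ) (c : ℕ → ℝ) (β₀ : ℝ)

lemma rep_read {r : ℤ → ℝ} {v : VState} {b : Bool} {l : List Bool} {ρ N : ℝ}
    (h : Rep r v (encL (b :: l) ρ) N) :
    Rep (execL readBody r) v ((if b then 1 else 0) + encL l ρ) N ∧
      execL readBody r 7 = (if b then 1 else 0) + encL l ρ - 1 := by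
  obtain ⟨hA, hB, hC, hβ, hN, h1, hpos, hneg⟩ := h
  have h3 : r 4 + r 4 + r 4 = (if b then 1 else 0) + encL l ρ := by
    rw [hβ, encL]
    ring
  refine ⟨⟨?_, ?_, ?_, ?_, ?_, ?_, ?_, ?_⟩, ?_⟩
  · simpa [readBody, Simple.exec] using hA
  · simpa [readBody, Simple.exec] using hB
  · simpa [readBody, Simple.exec] using hC
  · simpa [readBody, Simple.exec, Op.eval] using h3
  · simpa [readBody, Simple.exec] using hN
  · simpa [readBody, Simple.exec] using h1
  · intro j hj
    simp only [readBody, Simple.exec, execL_cons, execL_nil]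
    rw [Function.update_of_ne (by omega), Function.update_of_ne (by omega),
      Function.update_of_ne (by omega)]
    exact hpos j hj
  · intro j hj
    simp only [readBody, Simple.exec, execL_cons, execL_nil]
    rw [Function.update_of_ne (by omega), Function.update_of_ne (by omega),
      Function.update_of_ne (by omega)]
    exact hneg j hj
  · simp [readBody, Simple.exec, Op.eval, h1]
    simpa using h3

lemma Rep.set_beta {r : ℤ → ℝ} {v : VState} {β N a : ℝ} (h : Rep r v β N) :
    Rep (Function.update r 4 a) v a N := by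
  obtain ⟨hA, hB, hC, hβ, hN, h1, hpos, hneg⟩ := h
  constructor
  · simpa using hA
  · simpa using hB
  · simpa using hC
  · simp
  · simpa using hN
  · simpa using h1
  · intro j hj
    rw [Function.update_of_ne (by omega)]
    exact hpos j hj
  · intro j hj
    rw [Function.update_of_ne (by omega)]
    exact hneg j hj

/-- Reading the digit one. -/
lemma read_true {b y n : Blk} (hb : blkBody d c β₀ b = readBody)
    (ht : blkTerm b = .branch 7 y n) {r : ℤ → ℝ} {v : VState} {l : List Bool} {ρ N : ℝ}
    (h : Rep r v (encL (true :: l) ρ) N) (hl : 0 ≤ encL l ρ) :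
    ∃ r', Reach (U d c β₀).toMachine 4 ((U d c β₀).entry b, r) ((U d c β₀).entry y, r') ∧
      Rep (Function.update r' 4 (r' 7)) v (encL l ρ) N := by
  obtain ⟨h1, h2⟩ := rep_read h
  simp only [if_true] at h1 h2
  have h3 : (1 : ℝ) + encL l ρ - 1 = encL l ρ := by ring
  rw [h3] at h2
  refine ⟨execL readBody r, ?_, ?_⟩
  · have := reach_branch (U d c β₀) b y n 7 ht r
    rw [show (U d c β₀).body b = readBody from hb, h2, if_pos hl] at this
    exact this
  · rw [h2]
    exact h1.set_beta

/-- Reading the digit zero. -/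
lemma read_false {b y n : Blk} (hb : blkBody d c β₀ b = readBody)
    (ht : blkTerm b = .branch 7 y n) {r : ℤ → ℝ} {v : VState} {l : List Bool} {ρ N : ℝ}
    (h : Rep r v (encL (false :: l) ρ) N) (hl : encL l ρ ≤ 1 / 2) :
    ∃ r', Reach (U d c β₀).toMachine 4 ((U d c β₀).entry b, r) ((U d c β₀).entry n, r') ∧
      Rep r' v (encL l ρ) N := by
  obtain ⟨h1, h2⟩ := rep_read h
  simp only [Bool.false_eq_true, if_false, zero_add] at h1 h2
  refine ⟨execL readBody r, ?_, h1⟩
  have := reach_branch (U d c β₀) b y n 7 ht r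
  rw [show (U d c β₀).body b = readBody from hb, h2, if_neg (by linarith)] at this
  exact this

lemma opb_reach (o : TOp) {r : ℤ → ℝ} {v : VState} {β N : ℝ}
    (h : Rep (Function.update r 4 (r 7)) v β N) :
    ∃ r', Reach (U d c β₀).toMachine 10 ((U d c β₀).entry (.opb o), r)
      ((U d c β₀).entry (.E 0), r') ∧ Rep r' (o.exec v) β N := by
  by_cases ho : o = .select
  · subst ho
    have h1 := reach_branch (U d c β₀) (.opb .select) (.E 0) .selB 3 rfl r
    have h2 : (U d c β₀).body (.opb .select) = [.copy 4 7] := rfl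
    rw [h2] at h1
    have h3 : execL [.copy 4 7] r = Function.update r 4 (r 7) := rfl
    rw [h3, h.hC] at h1
    by_cases hC : 0 ≤ v.C
    · rw [if_pos hC] at h1
      refine ⟨_, h1.le (by simp), ?_⟩
      have h4 : TOp.exec .select v = v := by
        cases v
        simp only [TOp.exec] at hC ⊢
        rw [if_pos hC]
      rw [h4]
      exact h
    · rw [if_neg hC] at h1
      have h5 := reach_goto (U d c β₀) .selB (.E 0) rfl (Function.update r 4 (r 7))
      refine ⟨_, (h1.trans h5).le (by simp [blkBody]), ?_⟩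
      have h6 : execL ((U d c β₀).body .selB) (Function.update r 4 (r 7)) =
          Function.update (Function.update r 4 (r 7)) 1 ((Function.update r 4 (r 7)) 2) := rfl
      rw [h6]
      obtain ⟨hA', hB', hC', hβ', hN', h1', hpos', hneg'⟩ := h
      constructor <;> try simp only [TOp.exec]
      · rw [if_neg hC]
        simpa using hB'
      · simpa using hB'
      · simpa using hC'
      · simpa using hβ'
      · simpa using hN'
      · simpa using h1'
      · intro j hj
        rw [Function.update_of_ne (by omega)]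
        exact hpos' j hj
      · intro j hj
        rw [Function.update_of_ne (by omega)]
        exact hneg' j hj
  · have ht : blkTerm (.opb o) = .goto (.E 0) := by
      cases o <;> first | rfl | exact absurd rfl ho
    have h1 := reach_goto (U d c β₀) (.opb o) (.E 0) ht r
    refine ⟨_, h1.le ?_, ?_⟩
    · have : (opBody o).length ≤ 8 := by cases o <;> simp [opBody]
      show (Simple.copy 4 7 :: opBody o).length + 1 ≤ 10
      simp only [List.length_cons]
      omega
    · have h2 : execL ((U d c β₀).body (.opb o)) r =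
          execL (opBody o) (Function.update r 4 (r 7)) := rfl
      rw [h2]
      exact rep_opBody h o ho

lemma decode_reach (k : ℕ) : ∀ (j : ℕ) (hj : j < 13) (_ : j + k < 13) (_ : 1 ≤ j + k)
    {r : ℤ → ℝ} {v : VState} {l : List Bool} {ρ N : ℝ} (_ : 0 ≤ ρ) (_ : ρ ≤ 1 / 2)
    (_ : Rep r v (encL (List.replicate k false ++ true :: l) ρ) N),
    ∃ r', Reach (U d c β₀).toMachine (4 * (k + 1)) ((U d c β₀).entry (.E ⟨j, hj⟩), r)
      ((U d c β₀).entry (.opb (decode (j + k))), r') ∧
      Rep (Function.update r' 4 (r' 7)) v (encL l ρ) N := by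
  induction k with
  | zero =>
    intro j hj _ h1 r v l ρ N h0 h2 h
    simp only [List.replicate_zero, List.nil_append] at h
    have ht : blkTerm (.E ⟨j, hj⟩) = .branch 7 (.opb (decode j))
        (if h : j + 1 < 13 then .E ⟨j + 1, h⟩ else .fin) := by
      simp only [blkTerm]
      rw [if_neg (by omega)]
    exact read_true d c β₀ rfl ht h (encL_nonneg l h0)
  | succ k ih =>
    intro j hj hjk h1 r v l ρ N h0 h2 h
    rw [List.replicate_succ, List.cons_append] at h
    have ht : blkTerm (.E ⟨j, hj⟩) = .branch 7 (if j = 0 then .fin else .opb (decode j))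
        (.E ⟨j + 1, by omega⟩) := by
      simp only [blkTerm]
      rw [dif_pos (by omega)]
    obtain ⟨r', h3, h4⟩ := read_false d c β₀ rfl ht h (encL_le _ h2)
    obtain ⟨r'', h5, h6⟩ := ih (j + 1) (by omega) (by omega) (by omega) h0 h2 h4
    have e : j + (k + 1) = j + 1 + k := by omega
    rw [e]
    exact ⟨r'', (h3.trans h5).le (by omega), h6⟩

/-- Digits of an operation. -/
def bits (o : TOp) : List Bool := List.replicate o.code false ++ [true]

/-- Digits of a program. -/
def opsBits (ops : List TOp) : List Bool := ops.flatMap bits ++ [true]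

lemma bits_length (o : TOp) : (bits o).length = o.code + 1 := by simp [bits]

lemma exec_one (o : TOp) {r : ℤ → ℝ} {v : VState} {l : List Bool} {ρ N : ℝ} (h0 : 0 ≤ ρ)
    (h2 : ρ ≤ 1 / 2) (h : Rep r v (encL (bits o ++ l) ρ) N) :
    ∃ r', Reach (U d c β₀).toMachine (16 * (bits o).length) ((U d c β₀).entry (.E 0), r)
      ((U d c β₀).entry (.E 0), r') ∧ Rep r' (o.exec v) (encL l ρ) N := by
  rw [bits, List.append_assoc] at h
  obtain ⟨r', h3, h4⟩ := decode_reach d c β₀ o.code 0 (by omega) (by have := code_lt o; omega)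
    (by have := code_pos o; omega) h0 h2 h
  rw [zero_add, decode_code] at h3
  obtain ⟨r'', h5, h6⟩ := opb_reach d c β₀ o h4
  refine ⟨r'', (h3.trans h5).le ?_, h6⟩
  rw [bits_length]
  have := code_pos o
  omega

lemma exec_all (ops : List TOp) : ∀ {r : ℤ → ℝ} {v : VState} {ρ N : ℝ} (_ : 0 ≤ ρ)
    (_ : ρ ≤ 1 / 2) (_ : Rep r v (encL (opsBits ops) ρ) N),
    ∃ r' q, Reach (U d c β₀).toMachine (16 * (opsBits ops).length)
      ((U d c β₀).entry (.E 0), r) (q, r') ∧ (U d c β₀).toMachine.node q = Node.halt ∧
      r' 0 = (execT ops v).A := by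
  induction ops with
  | nil =>
    intro r v ρ N h0 h2 h
    have h3 : opsBits [] = [true] := rfl
    rw [h3] at h
    have ht : blkTerm (.E 0) = .branch 7 .fin (.E ⟨1, by omega⟩) := by
      simp [blkTerm]
    obtain ⟨r', h4, h5⟩ := read_true d c β₀ rfl ht h h0
    obtain ⟨q, h6, h7⟩ := reach_halt (U d c β₀) .fin rfl r'
    refine ⟨_, q, (h4.trans h6).le ?_, h7, ?_⟩
    · rw [h3]
      simp [blkBody]
    · have h8 : r' 1 = v.A := by
        have := h5.hA
        simpa using this
      simp [blkBody, Simple.exec, h8]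
  | cons o ops ih =>
    intro r v ρ N h0 h2 h
    have h3 : opsBits (o :: ops) = bits o ++ opsBits ops := by
      simp [opsBits]
    rw [h3, ] at h
    obtain ⟨r', h4, h5⟩ := exec_one d c β₀ o h0 h2 h
    obtain ⟨r'', q, h6, h7, h8⟩ := ih h0 h2 h5
    refine ⟨r'', q, (h4.trans h6).le ?_, h7, h8⟩
    rw [h3, List.length_append]
    omega

lemma skip_bits (k : ℕ) : ∀ {r : ℤ → ℝ} {v : VState} {l : List Bool} {ρ N : ℝ} (_ : 0 ≤ ρ)
    (_ : ρ ≤ 1 / 2) (_ : Rep r v (encL (List.replicate k false ++ true :: l) ρ) N),
    ∃ r', Reach (U d c β₀).toMachine (4 * (k + 1)) ((U d c β₀).entry .s1, r)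
      ((U d c β₀).entry .s1y, r') ∧ Rep (Function.update r' 4 (r' 7)) v (encL l ρ) N := by
  induction k with
  | zero =>
    intro r v l ρ N h0 h2 h
    simp only [List.replicate_zero, List.nil_append] at h
    exact read_true d c β₀ rfl rfl h (encL_nonneg l h0)
  | succ k ih =>
    intro r v l ρ N h0 h2 h
    rw [List.replicate_succ, List.cons_append] at h
    obtain ⟨r', h3, h4⟩ := read_false d c β₀ (b := .s1) rfl rfl h (encL_le _ h2)
    obtain ⟨r'', h5, h6⟩ := ih h0 h2 h4
    exact ⟨r'', (h3.trans h5).le (by omega), h6⟩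

lemma skip_one (o : TOp) {r : ℤ → ℝ} {v : VState} {l : List Bool} {ρ N : ℝ} (h0 : 0 ≤ ρ)
    (h2 : ρ ≤ 1 / 2) (h : Rep r v (encL (bits o ++ l) ρ) N) :
    ∃ r', Reach (U d c β₀).toMachine (16 * (bits o).length) ((U d c β₀).entry .s0, r)
      ((U d c β₀).entry .s0, r') ∧ Rep r' v (encL l ρ) N := by
  rw [bits, List.append_assoc] at h
  obtain ⟨k, hk⟩ : ∃ k, o.code = k + 1 := ⟨o.code - 1, by have := code_pos o; omega⟩
  rw [hk, List.replicate_succ, List.cons_append] at h
  obtain ⟨r', h3, h4⟩ := read_false d c β₀ (b := .s0) rfl rfl h (encL_le _ h2)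
  obtain ⟨r'', h5, h6⟩ := skip_bits d c β₀ k h0 h2 h4
  have h7 := reach_goto (U d c β₀) .s1y .s0 rfl r''
  refine ⟨_, ((h3.trans h5).trans h7).le ?_, h6⟩
  rw [bits_length, hk]
  simp only [blkBody, List.length_cons, List.length_nil]
  omega

lemma skip_all (ops : List TOp) : ∀ {r : ℤ → ℝ} {v : VState} {ρ N : ℝ} (_ : 0 ≤ ρ)
    (_ : ρ ≤ 1 / 2) (_ : Rep r v (encL (opsBits ops) ρ) N),
    ∃ r', Reach (U d c β₀).toMachine (16 * (opsBits ops).length)
      ((U d c β₀).entry .s0, r) ((U d c β₀).entry .skipLoop, r') ∧ Rep r' v ρ N := by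
  induction ops with
  | nil =>
    intro r v ρ N h0 h2 h
    have h3 : opsBits [] = [true] := rfl
    rw [h3] at h
    obtain ⟨r', h4, h5⟩ := read_true d c β₀ (b := .s0) rfl rfl h h0
    have h6 := reach_goto (U d c β₀) .s0y .skipLoop rfl r'
    refine ⟨_, (h4.trans h6).le ?_, h5⟩
    rw [h3]
    simp [blkBody]
  | cons o ops ih =>
    intro r v ρ N h0 h2 h
    have h3 : opsBits (o :: ops) = bits o ++ opsBits ops := by
      simp [opsBits]
    rw [h3] at h
    obtain ⟨r', h4, h5⟩ := skip_one d c β₀ o h0 h2 h
    obtain ⟨r'', h6, h7⟩ := ih h0 h2 h5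
    refine ⟨r'', (h4.trans h6).le ?_, h7⟩
    rw [h3, List.length_append]
    omega

lemma Rep.set_seven {r : ℤ → ℝ} {v : VState} {β N a : ℝ} (h : Rep r v β N) :
    Rep (Function.update r 7 a) v β N := by
  obtain ⟨hA, hB, hC, hβ, hN, h1, hpos, hneg⟩ := h
  constructor
  · simpa using hA
  · simpa using hB
  · simpa using hC
  · simpa using hβ
  · simpa using hN
  · simpa using h1
  · intro j hj
    rw [Function.update_of_ne (by omega)]
    exact hpos j hj
  · intro j hj
    rw [Function.update_of_ne (by omega)]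
    exact hneg j hj

lemma Rep.set_N {r : ℤ → ℝ} {v : VState} {β N a : ℝ} (h : Rep r v β N) :
    Rep (Function.update r 5 a) v β a := by
  obtain ⟨hA, hB, hC, hβ, hN, h1, hpos, hneg⟩ := h
  constructor
  · simpa using hA
  · simpa using hB
  · simpa using hC
  · simpa using hβ
  · simp
  · simpa using h1
  · intro j hj
    rw [Function.update_of_ne (by omega)]
    exact hpos j hj
  · intro j hj
    rw [Function.update_of_ne (by omega)]
    exact hneg j hj

/-- Skipping `n` programs. -/
lemma skip_loop (ops : ℕ → List TOp) (β : ℕ → ℝ) (hβ : ∀ n, 0 ≤ β n ∧ β n ≤ 1 / 2)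
    (hs : ∀ n, β n = encL (opsBits (ops n)) (β (n + 1))) (n : ℕ) :
    ∀ (i : ℕ) {r : ℤ → ℝ} {v : VState} (_ : Rep r v (β i) n),
    ∃ r', Reach (U d c β₀).toMachine (2 + ∑ k ∈ Finset.range n, (4 + 16 * (opsBits (ops (i + k))).length))
      ((U d c β₀).entry .skipLoop, r) ((U d c β₀).entry (.E 0), r') ∧ Rep r' v (β (i + n)) 0 := by
  induction n with
  | zero =>
    intro i r v h
    have h1 := reach_branch (U d c β₀) .skipLoop .skipDec (.E 0) 7 rfl r
    have h2 : execL ((U d c β₀).body .skipLoop) r = Function.update r 7 (r 5 - r 6) := rfl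
    rw [h2] at h1
    have h3 : Function.update r 7 (r 5 - r 6) 7 = -1 := by
      rw [Function.update_self, h.hN, h.h1]
      simp
    rw [h3, if_neg (by norm_num)] at h1
    refine ⟨_, h1.le (by simp [blkBody]), ?_⟩
    simpa using h.set_seven
  | succ n ih =>
    intro i r v h
    have h1 := reach_branch (U d c β₀) .skipLoop .skipDec (.E 0) 7 rfl r
    have h2 : execL ((U d c β₀).body .skipLoop) r = Function.update r 7 (r 5 - r 6) := rfl
    rw [h2] at h1
    have h3 : Function.update r 7 (r 5 - r 6) 7 = n := by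
      rw [Function.update_self, h.hN, h.h1]
      push_cast
      ring
    rw [h3, if_pos (Nat.cast_nonneg n)] at h1
    have h4 := reach_goto (U d c β₀) .skipDec .s0 rfl (Function.update r 7 (r 5 - r 6))
    have h5 : Rep (execL ((U d c β₀).body .skipDec) (Function.update r 7 (r 5 - r 6))) v (β i) n := by
      have h6 : execL ((U d c β₀).body .skipDec) (Function.update r 7 (r 5 - r 6)) =
        Function.update (Function.update r 7 (r 5 - r 6)) 5
          (Function.update r 7 (r 5 - r 6) 7) := rfl
      rw [h6, h3]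
      exact h.set_seven.set_N
    rw [hs i] at h5
    obtain ⟨r', h6, h7⟩ := skip_all d c β₀ (ops i) (hβ (i + 1)).1 (hβ (i + 1)).2 h5
    obtain ⟨r'', h8, h9⟩ := ih (i + 1) h7
    refine ⟨r'', (((h1.trans h4).trans h6).trans h8).le ?_, ?_⟩
    · rw [Finset.sum_range_succ' _ n]
      have e : ∀ k, i + 1 + k = i + (k + 1) := fun k => by omega
      simp only [e, blkBody, List.length_cons, List.length_nil, add_zero]
      omega
    · have e : i + 1 + n = i + (n + 1) := by omega
      rw [← e]
      exact h9

/-- Initial memory of the virtual machine. -/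
noncomputable def memZ (x : List ℝ) : ℤ → ℝ := fun a => if 0 ≤ a then mem d c x a.toNat else 0

lemma execL_shiftRight (k : ℕ) (r : ℤ → ℝ) :
    execL (List.replicate k .shiftRight) r = fun i => r (i - k) := by
  induction k generalizing r with
  | zero => simp
  | succ k ih =>
    rw [List.replicate_succ, execL_cons, ih]
    funext i
    simp only [Simple.exec]
    congr 1
    push_cast
    ring

lemma execL_consts (k : ℕ) (r : ℤ → ℝ) (j : ℤ) :
    execL ((List.range k).map (fun i : ℕ => Simple.const (8 + i) (c i))) r j =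
      if 8 ≤ j ∧ j < 8 + k then c (j - 8).toNat else r j := by
  induction k with
  | zero =>
    simp only [List.range_zero, List.map_nil, execL_nil]
    rw [if_neg (by push_cast; omega)]
  | succ k ih =>
    rw [List.range_succ, List.map_append, execL_append]
    simp only [List.map_cons, List.map_nil, execL_cons, execL_nil, Simple.exec]
    by_cases hj : j = 8 + k
    · subst hj
      rw [Function.update_self, if_pos (by push_cast; omega)]
      congr 1
      omega
    · rw [Function.update_of_ne hj, ih]
      by_cases h1 : 8 ≤ j ∧ j < 8 + k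
      · rw [if_pos h1, if_pos (by push_cast; omega)]
      · rw [if_neg h1, if_neg (by push_cast; omega)]

lemma init_rep (x : RInf) : ∃ v : VState, v.m = memZ d c x.1 ∧ v.h = 0 ∧
    Rep (execL (initBody d c β₀) (load x)) v β₀ x.size := by
  set r := execL (initBody d c β₀) (load x) with hr
  have hrj : ∀ j, j ≠ 4 → j ≠ 6 → r j = if 8 ≤ j ∧ j < 8 + (d : ℤ) then c (j - 8).toNat else
      (Function.update (fun i => load x (i - ((7 + d : ℕ) : ℤ))) 5
        (load x ((7 + d) - ((7 + d : ℕ) : ℤ))) j) := by
    intro j h4 h6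
    rw [hr, initBody, execL_append, execL_append, execL_append, execL_shiftRight]
    simp only [execL_cons, execL_nil, Simple.exec]
    rw [Function.update_of_ne h4, Function.update_of_ne h6, execL_consts]
  have hr4 : r 4 = β₀ := by
    rw [hr, initBody, execL_append, execL_append, execL_append]
    simp [Simple.exec]
  have hr6 : r 6 = 1 := by
    rw [hr, initBody, execL_append, execL_append, execL_append]
    simp [Simple.exec]
  refine ⟨⟨memZ d c x.1, 0, r 1, r 2, r 3⟩, rfl, rfl, ⟨rfl, rfl, rfl, hr4, ?_, hr6, ?_, ?_⟩⟩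
  · rw [hrj 5 (by norm_num) (by norm_num), if_neg (by omega), Function.update_self]
    simp [load]
  · intro j hj
    have hm : memZ d c x.1 (0 + (j - 8)) = mem d c x.1 (j - 8).toNat := by
      unfold memZ
      rw [zero_add, if_pos (by omega)]
    show r j = memZ d c x.1 (0 + (j - 8))
    rw [hm, hrj j (by omega) (by omega)]
    unfold mem
    by_cases h1 : 8 ≤ j ∧ j < 8 + (d : ℤ)
    · rw [if_pos h1, if_pos (by omega)]
    · rw [if_neg h1, Function.update_of_ne (by omega), if_neg (by omega)]
      unfold load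
      rw [if_neg (by push_cast; omega), if_pos (by push_cast; omega)]
      congr 1
      push_cast
      omega
  · intro j hj
    have hm : memZ d c x.1 (0 + j) = 0 := by
      unfold memZ
      rw [zero_add, if_neg (by omega)]
    show r j = memZ d c x.1 (0 + j)
    rw [hm, hrj j (by omega) (by omega), if_neg (by omega), Function.update_of_ne (by omega)]
    unfold load
    rw [if_neg (by push_cast; omega), if_neg (by push_cast; omega)]

end

/-- The universal machine runs the `n`-th program on inputs of size `n`. -/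
theorem exists_universal (d : ℕ) (c : ℕ → ℝ) (ops : ℕ → List TOp) : ∃ (M : Machine) (C : ℕ),
    ∀ x : RInf, ∃ v : VState, v.m = memZ d c x.1 ∧ v.h = 0 ∧ ∀ T : ℕ,
      C + (∑ k ∈ Finset.range x.size, (4 + 16 * (opsBits (ops k)).length)) +
        16 * (opsBits (ops x.size)).length ≤ T →
      M.Halted x T ∧ (M.run x T).2 0 = (execT (ops x.size) v).A := by
  obtain ⟨β, hβ, hs⟩ := exists_stream fun n => opsBits (ops n)
  refine ⟨(U d c (β 0)).toMachine, (initBody d c (β 0)).length + 1 + 2, fun x => ?_⟩
  obtain ⟨v, hv1, hv2, hv3⟩ := init_rep d c (β 0) x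
  refine ⟨v, hv1, hv2, fun T hT => ?_⟩
  have h1 := reach_goto (U d c (β 0)) .init .skipLoop rfl (load x)
  obtain ⟨r', h2, h3⟩ := skip_loop d c (β 0) ops β hβ hs x.size 0 hv3
  rw [zero_add, hs x.size] at h3
  obtain ⟨r'', q, h4, h5, h6⟩ := exec_all d c (β 0) (ops x.size) (hβ _).1 (hβ _).2 h3
  have h7 := (h1.trans h2).trans h4
  have h8 : (U d c (β 0)).toMachine.run x T = (q, r'') := by
    refine Reach.run_eq h7 h5 ?_
    refine le_trans ?_ hT
    simp only [zero_add]
    change (initBody d c (β 0)).length + 1 + _ + _ ≤ _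
    omega
  constructor
  · unfold Machine.Halted
    rw [h8]
    exact h5
  · rw [h8]
    exact h6

end Pool.Agent.W_MP_25fb88_lc
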