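import Pool.Agent.W_MP_25fb88_lc.Chain

/-!
# From machines to straight line computations
-/

namespace Pool.Agent.W_MP_25fb88_lc

open Set

/-- Memory content: `d` constants followed by the input. -/
noncomputable def mem (d : ℕ) (c : ℕ → ℝ) (x : List ℝ) : ℕ → ℝ :=
  fun i => if i < d then c i else x.getD (i - d) 0

/-- The functions available at the start: `0`, `1` and the first `N` memory cells. -/
def BaseN (N : ℕ) : Set ((ℕ → ℝ) → ℝ) :=
  {f | f = (fun _ => 0) ∨ f = (fun _ => 1) ∨ ∃ i < N, f = fun m => m i}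

lemma BaseN_mono {N N' : ℕ} (h : N ≤ N') : BaseN N ⊆ BaseN N' := by
  rintro f (hf | hf | ⟨i, hi, hf⟩)
  · exact Or.inl hf
  · exact Or.inr (Or.inl hf)
  · exact Or.inr (Or.inr ⟨i, hi.trans_le h, hf⟩)

lemma zero_mem_BaseN (N : ℕ) : (fun _ => 0) ∈ BaseN N := Or.inl rfl
lemma one_mem_BaseN (N : ℕ) : (fun _ => 1) ∈ BaseN N := Or.inr (Or.inl rfl)
lemma coord_mem_BaseN {N i : ℕ} (h : i < N) : (fun m : ℕ → ℝ => m i) ∈ BaseN N :=
  Or.inr (Or.inr ⟨i, h, rfl⟩)

variable {α : Type}

lemma Cx.sum {G : Set (α → ℝ)} (h0 : (fun _ => (0 : ℝ)) ∈ G) {ι : Type} [DecidableEq ι]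
    (t : Finset ι) {s : ℕ} {f : ι → α → ℝ} (h : ∀ i ∈ t, Cx G s {f i}) :
    Cx G (t.card * (s + 1)) {fun a => ∑ i ∈ t, f i a} := by
  induction t using Finset.induction_on with
  | empty => simpa using Cx.of_mem h0 0
  | insert a t ha ih =>
    have h1 := (h a (Finset.mem_insert_self _ _)).add
      (ih fun i hi => h i (Finset.mem_insert_of_mem hi))
    have h2 : (fun x => ∑ i ∈ insert a t, f i x) = fun x => f a x + ∑ i ∈ t, f i x := by
      funext x
      rw [Finset.sum_insert ha]
    rw [h2, Finset.card_insert_of_notMem ha]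
    refine h1.le ?_
    ring_nf
    omega

/-- Natural number constants. -/
lemma Cx.natConst {G : Set (α → ℝ)} (h0 : (fun _ => (0 : ℝ)) ∈ G) (h1 : (fun _ => (1 : ℝ)) ∈ G)
    (n : ℕ) : Cx G n {fun _ => (n : ℝ)} := by
  induction n with
  | zero => simpa using Cx.of_mem h0 0
  | succ n ih =>
    have h2 := ih.add (Cx.of_mem h1 0)
    have h3 : (fun _ : α => ((n + 1 : ℕ) : ℝ)) = fun _ => (n : ℝ) + 1 := by
      funext _
      push_cast
      ring
    rw [h3]
    exact h2.le (by omega)

section Unroll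

variable (M : Machine)

/-- New register content. -/
noncomputable def regOf {Q : Type} (N : Node Q) (r : ℤ → ℝ) : ℤ → ℝ :=
  match N with
  | .const i a _ => Function.update r i a
  | .copy i j _ => Function.update r i (r j)
  | .arith op i j k _ => Function.update r i (op.eval (r j) (r k))
  | .shiftLeft _ => fun i => r (i + 1)
  | .shiftRight _ => fun i => r (i - 1)
  | .branch _ _ _ => r
  | .halt => r

/-- Next node. -/
noncomputable def nextOf {Q : Type} (N : Node Q) (q : Q) (r : ℤ → ℝ) : Q :=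
  match N with
  | .const _ _ q' => q'
  | .copy _ _ q' => q'
  | .arith _ _ _ _ q' => q'
  | .shiftLeft q' => q'
  | .shiftRight q' => q'
  | .branch i q' q'' => if 0 ≤ r i then q' else q''
  | .halt => q

lemma step_eq (c : M.Q × (ℤ → ℝ)) :
    M.step c = (nextOf (M.node c.1) c.1 c.2, regOf (M.node c.1) c.2) := by
  unfold Machine.step nextOf regOf
  cases M.node c.1 <;> rfl

lemma run_succ (x : RInf) (t : ℕ) : M.run x (t + 1) = M.step (M.run x t) := by
  unfold Machine.run
  rw [Function.iterate_succ_apply']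

/-- A bound for the register indices written by a node. -/
def nodeBd {Q : Type} (N : Node Q) : ℕ :=
  match N with
  | .const i _ _ => i.natAbs
  | .copy i _ _ => i.natAbs
  | .arith _ i _ _ _ => i.natAbs
  | _ => 0

lemma exists_nodeBd : ∃ K, ∀ q, nodeBd (M.node q) ≤ K := by
  have := M.finite
  obtain ⟨K, hK⟩ := (Set.finite_range fun q => nodeBd (M.node q)).bddAbove
  exact ⟨K, fun q => hK (mem_range_self q)⟩

lemma regOf_eq_zero {Q : Type} (N : Node Q) (r : ℤ → ℝ) (R : ℕ) (hN : nodeBd N ≤ R)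
    (hr : ∀ i : ℤ, R < i.natAbs → r i = 0) (i : ℤ) (hi : R + 1 < i.natAbs) : regOf N r i = 0 := by
  unfold regOf
  cases N with
  | const j a q =>
    simp only [nodeBd] at hN
    have hne : i ≠ j := by rintro rfl; omega
    simp only [Function.update_of_ne hne]
    exact hr i (by omega)
  | copy j k q =>
    simp only [nodeBd] at hN
    have hne : i ≠ j := by rintro rfl; omega
    simp only [Function.update_of_ne hne]
    exact hr i (by omega)
  | arith op j k l q =>
    simp only [nodeBd] at hN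
    have hne : i ≠ j := by rintro rfl; omega
    simp only [Function.update_of_ne hne]
    exact hr i (by omega)
  | shiftLeft q => exact hr _ (by omega)
  | shiftRight q => exact hr _ (by omega)
  | branch j q q' => exact hr _ (by omega)
  | halt => exact hr _ (by omega)

lemma load_eq_zero (x : RInf) (i : ℤ) (hi : x.size < i.natAbs) : load x i = 0 := by
  unfold load
  have h0 : i ≠ 0 := by rintro rfl; simp at hi
  rw [if_neg h0]
  split_ifs with h
  · rw [List.getD_eq_default]
    have : x.1.length = x.size := rfl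
    omega
  · rfl

lemma reg_eq_zero (K : ℕ) (hK : ∀ q, nodeBd (M.node q) ≤ K) (x : RInf) (t : ℕ) :
    ∀ i : ℤ, x.size + K + t < i.natAbs → (M.run x t).2 i = 0 := by
  induction t with
  | zero =>
    intro i hi
    exact load_eq_zero x i (by omega)
  | succ t ih =>
    intro i hi
    rw [run_succ, step_eq]
    exact regOf_eq_zero _ _ (x.size + K + t) ((hK _).trans (by omega)) ih i (by omega)

variable (n : ℕ)

/-- Inputs of size `n`. -/
abbrev Inp : Type := {x : RInf // x.size = n}

/-- State indicator. -/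
noncomputable def st [DecidableEq M.Q] (t : ℕ) (q : M.Q) : Inp n → ℝ :=
  fun x => if (M.run x.1 t).1 = q then 1 else 0

/-- Register content. -/
noncomputable def rg (t : ℕ) (i : ℤ) : Inp n → ℝ := fun x => (M.run x.1 t).2 i

variable {M n}

/-- All data at time `t`. -/
def Dat (M : Machine) (n : ℕ) [DecidableEq M.Q] (t : ℕ) : Set (Inp n → ℝ) :=
  {f | (∃ q, f = st M n t q) ∨ ∃ i, f = rg M n t i}

lemma st_mem [DecidableEq M.Q] (t : ℕ) (q : M.Q) : st M n t q ∈ Dat M n t := Or.inl ⟨q, rfl⟩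
lemma rg_mem [DecidableEq M.Q] (t : ℕ) (i : ℤ) : rg M n t i ∈ Dat M n t := Or.inr ⟨i, rfl⟩

/-- The set of constant functions given by the constants of the machine. -/
def cstOf {Q : Type} (N : Node Q) : ℝ :=
  match N with
  | .const _ a _ => a
  | _ => 0

lemma cx_regOf [DecidableEq M.Q] {G : Set (Inp n → ℝ)} (t : ℕ) (hD : Dat M n t ⊆ G)
    (hc : ∀ q, (fun _ => cstOf (M.node q)) ∈ G) (q : M.Q) (i : ℤ) :
    Cx G 1 {fun x => regOf (M.node q) (M.run x.1 t).2 i} := by
  have hr : ∀ j, (fun x : Inp n => (M.run x.1 t).2 j) ∈ G := fun j => hD (rg_mem t j)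
  cases hN : M.node q with
  | const j a q' =>
    have hc' := hc q
    rw [hN] at hc'
    by_cases h : i = j
    · subst h
      simp only [regOf, Function.update_self]
      exact Cx.of_mem hc' 1
    · simp only [regOf, Function.update_of_ne h]
      exact Cx.of_mem (hr _) 1
  | copy j k q' =>
    by_cases h : i = j
    · subst h
      simp only [regOf, Function.update_self]
      exact Cx.of_mem (hr _) 1
    · simp only [regOf, Function.update_of_ne h]
      exact Cx.of_mem (hr _) 1
  | arith op j k l q' =>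
    by_cases h : i = j
    · subst h
      simp only [regOf, Function.update_self]
      exact Cx.gate (Gate.arith op (hr _) (hr _))
    · simp only [regOf, Function.update_of_ne h]
      exact Cx.of_mem (hr _) 1
  | shiftLeft q' => exact Cx.of_mem (hr _) 1
  | shiftRight q' => exact Cx.of_mem (hr _) 1
  | branch j q' q'' => exact Cx.of_mem (hr _) 1
  | halt => exact Cx.of_mem (hr _) 1

lemma cx_nextOf [DecidableEq M.Q] {G : Set (Inp n → ℝ)} (t : ℕ) (hD : Dat M n t ⊆ G)
    (h0 : (fun _ => (0 : ℝ)) ∈ G) (h1 : (fun _ => (1 : ℝ)) ∈ G) (q q₁ : M.Q) :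
    Cx G 1 {fun x => if nextOf (M.node q) q (M.run x.1 t).2 = q₁ then 1 else 0} := by
  have hr : ∀ j, (fun x : Inp n => (M.run x.1 t).2 j) ∈ G := fun j => hD (rg_mem t j)
  have hb : ∀ p : Prop, [Decidable p] → (fun _ : Inp n => if p then (1 : ℝ) else 0) ∈ G := by
    intro p _
    by_cases hp : p
    · simpa only [if_pos hp] using h1
    · simpa only [if_neg hp] using h0
  cases hN : M.node q with
  | const j a q' => exact Cx.of_mem (hb (q' = q₁)) 1
  | copy j k q' => exact Cx.of_mem (hb (q' = q₁)) 1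
  | arith op j k l q' => exact Cx.of_mem (hb (q' = q₁)) 1
  | shiftLeft q' => exact Cx.of_mem (hb (q' = q₁)) 1
  | shiftRight q' => exact Cx.of_mem (hb (q' = q₁)) 1
  | branch j q' q'' =>
    have h2 : (fun x : Inp n => if nextOf (Node.branch j q' q'') q (M.run x.1 t).2 = q₁
        then (1 : ℝ) else 0) = fun x => if 0 ≤ (M.run x.1 t).2 j then
          (fun _ : Inp n => if q' = q₁ then (1 : ℝ) else 0) x else
          (fun _ : Inp n => if q'' = q₁ then (1 : ℝ) else 0) x := by
      funext x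
      simp only [nextOf]
      split_ifs <;> simp_all
    rw [h2]
    exact Cx.gate (Gate.sel (hr j) (hb (q' = q₁)) (hb (q'' = q₁)))
  | halt => exact Cx.of_mem (hb (q = q₁)) 1

lemma rg_succ [DecidableEq M.Q] [Fintype M.Q] (t : ℕ) (i : ℤ) :
    rg M n (t + 1) i = fun x => ∑ q : M.Q,
      st M n t q x * regOf (M.node q) (M.run x.1 t).2 i := by
  funext x
  unfold rg st
  rw [run_succ, step_eq]
  simp only [ite_mul, one_mul, zero_mul]
  rw [Finset.sum_ite_eq]
  simp

lemma st_succ [DecidableEq M.Q] [Fintype M.Q] (t : ℕ) (q₁ : M.Q) :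
    st M n (t + 1) q₁ = fun x => ∑ q : M.Q,
      st M n t q x * (if nextOf (M.node q) q (M.run x.1 t).2 = q₁ then 1 else 0) := by
  funext x
  unfold st
  rw [run_succ, step_eq]
  simp only [ite_mul, one_mul, zero_mul]
  rw [Finset.sum_ite_eq]
  simp

lemma cx_step [DecidableEq M.Q] [Fintype M.Q] (K : ℕ) (hK : ∀ q, nodeBd (M.node q) ≤ K)
    {G : Set (Inp n → ℝ)} (t : ℕ) (hD : Dat M n t ⊆ G)
    (h0 : (fun _ => (0 : ℝ)) ∈ G) (h1 : (fun _ => (1 : ℝ)) ∈ G)
    (hc : ∀ q, (fun _ => cstOf (M.node q)) ∈ G) :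
    Cx G ((2 * (n + K + t + 1) + 1 + Fintype.card M.Q) * (Fintype.card M.Q * 3))
      (Dat M n (t + 1)) := by
  have hrg : ∀ i, Cx G (Fintype.card M.Q * 3) {rg M n (t + 1) i} := by
    intro i
    rw [rg_succ]
    refine Cx.sum h0 (s := 2) Finset.univ fun q _ => ?_
    exact ((Cx.of_mem (hD (st_mem t q)) 0).mul (cx_regOf t hD hc q i)).le (by omega)
  have hst : ∀ q, Cx G (Fintype.card M.Q * 3) {st M n (t + 1) q} := by
    intro q₁
    rw [st_succ]
    refine Cx.sum h0 (s := 2) Finset.univ fun q _ => ?_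
    exact ((Cx.of_mem (hD (st_mem t q)) 0).mul (cx_nextOf t hD h0 h1 q q₁)).le (by omega)
  set R : ℕ := n + K + t + 1 with hR
  have hA := Cx.biUnion (Finset.Icc (-(R : ℤ)) R) (s := fun _ => Fintype.card M.Q * 3)
    (H := fun i => {rg M n (t + 1) i}) fun i _ => hrg i
  have hB := Cx.biUnion (Finset.univ : Finset M.Q) (s := fun _ => Fintype.card M.Q * 3)
    (H := fun i => {st M n (t + 1) i}) fun i _ => hst i
  have hC := (hA.union hB).union (Cx.of_mem h0 0)
  refine (hC.le ?_).mono_right ?_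
  · simp only [Finset.sum_const, Int.card_Icc, Finset.card_univ, smul_eq_mul]
    have : ((R : ℤ) + 1 - -(R : ℤ)).toNat = 2 * R + 1 := by omega
    rw [this]
    ring_nf
    omega
  · rintro f (⟨q, rfl⟩ | ⟨i, rfl⟩)
    · left; right
      simp
    · by_cases hi : i ∈ Finset.Icc (-(R : ℤ)) R
      · left; left
        exact mem_biUnion hi (mem_singleton _)
      · right
        rw [mem_singleton_iff]
        funext x
        unfold rg
        apply reg_eq_zero M K hK
        rw [Finset.mem_Icc, not_and_or] at hi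
        have := x.2
        omega

/-- Total cost of the unrolling. -/
def unrollCost (n K k : ℕ) : ℕ → ℕ
  | 0 => n
  | t + 1 => unrollCost n K k t + (2 * (n + K + t + 1) + 1 + k) * (k * 3)

lemma unrollCost_le (n K k t : ℕ) :
    unrollCost n K k t ≤ n + t * ((2 * (n + K + t + 1) + 1 + k) * (k * 3)) := by
  induction t with
  | zero => simp [unrollCost]
  | succ t ih =>
    rw [unrollCost]
    have h1 : (2 * (n + K + t + 1) + 1 + k) * (k * 3) ≤
        (2 * (n + K + (t + 1) + 1) + 1 + k) * (k * 3) := by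
      apply Nat.mul_le_mul_right
      omega
    have h2 : t * ((2 * (n + K + t + 1) + 1 + k) * (k * 3)) ≤
        t * ((2 * (n + K + (t + 1) + 1) + 1 + k) * (k * 3)) := Nat.mul_le_mul_left _ h1
    refine (add_le_add ih h1).trans ?_
    generalize (2 * (n + K + (t + 1) + 1) + 1 + k) * (k * 3) = B at *
    generalize t * ((2 * (n + K + t + 1) + 1 + k) * (k * 3)) = A at *
    have h3 : (t + 1) * B = t * B + B := by ring
    rw [h3]
    omega

lemma cx_dat [DecidableEq M.Q] [Fintype M.Q] (K : ℕ) (hK : ∀ q, nodeBd (M.node q) ≤ K)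
    {G : Set (Inp n → ℝ)}
    (h0 : (fun _ => (0 : ℝ)) ∈ G) (h1 : (fun _ => (1 : ℝ)) ∈ G)
    (hc : ∀ q, (fun _ => cstOf (M.node q)) ∈ G)
    (hx : ∀ j < n, (fun x : Inp n => x.1.1.getD j 0) ∈ G) (t : ℕ) :
    Cx G (unrollCost n K (Fintype.card M.Q) t) (Dat M n t) := by
  induction t with
  | zero =>
    have h2 := (Cx.natConst h0 h1 n).self_union
    refine h2.mono_right ?_
    rintro f (⟨q, rfl⟩ | ⟨i, rfl⟩)
    · left
      unfold st
      by_cases h : M.start = q
      · convert h1 using 1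
        funext x
        simp [Machine.run, h]
      · convert h0 using 1
        funext x
        simp [Machine.run, h]
    · by_cases hi : i = 0
      · right
        subst hi
        rw [mem_singleton_iff]
        funext x
        simp [rg, Machine.run, load, x.2]
      · left
        by_cases hi2 : 0 < i
        · by_cases hi3 : i.toNat - 1 < n
          · have := hx _ hi3
            convert this using 1
            funext x
            simp [rg, Machine.run, load, hi, hi2]
          · convert h0 using 1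
            funext x
            simp only [rg, Machine.run, load, hi, hi2, Function.iterate_zero, id_eq, if_true,
              if_false]
            rw [List.getD_eq_default]
            have : x.1.1.length = x.1.size := rfl
            have := x.2
            omega
        · convert h0 using 1
          funext x
          simp [rg, Machine.run, load, hi, hi2]
  | succ t ih =>
    rw [unrollCost]
    refine ih.trans ?_
    exact cx_step K hK t subset_union_right (Or.inl h0) (Or.inl h1) (fun q => Or.inl (hc q))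

/-- The polynomial bounding the cost of unrolling. -/
noncomputable def unrollPoly (K k : ℕ) (p : Polynomial ℕ) : Polynomial ℕ :=
  Polynomial.X + p * ((2 * (Polynomial.X + Polynomial.C K + p + 1) + 1 + Polynomial.C k) *
    (Polynomial.C k * 3))

lemma unrollCost_le_poly (n K k : ℕ) (p : Polynomial ℕ) :
    unrollCost n K k (p.eval n) ≤ (unrollPoly K k p).eval n := by
  refine (unrollCost_le n K k _).trans ?_
  unfold unrollPoly
  simp

lemma exists_base (M : Machine) : ∃ (d : ℕ) (c : ℕ → ℝ), ∀ n,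
    (∀ q, (fun _ : Inp n => cstOf (M.node q)) ∈
      (fun g : (ℕ → ℝ) → ℝ => g ∘ (fun x : Inp n => mem d c x.1.1)) '' BaseN (d + n)) := by
  classical
  have := M.finite
  have := Fintype.ofFinite M.Q
  let e := Fintype.equivFin M.Q
  refine ⟨Fintype.card M.Q, fun i => if h : i < Fintype.card M.Q then
    cstOf (M.node (e.symm ⟨i, h⟩)) else 0, fun n q => ?_⟩
  refine ⟨fun m => m (e q), coord_mem_BaseN ((e q).2.trans_le (Nat.le_add_right _ _)), ?_⟩
  funext x
  simp [mem]

lemma base_zero (d : ℕ) (c : ℕ → ℝ) (n : ℕ) : (fun _ : Inp n => (0 : ℝ)) ∈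
      (fun g : (ℕ → ℝ) → ℝ => g ∘ (fun x : Inp n => mem d c x.1.1)) '' BaseN (d + n) :=
  ⟨fun _ => 0, zero_mem_BaseN _, rfl⟩

lemma base_one (d : ℕ) (c : ℕ → ℝ) (n : ℕ) : (fun _ : Inp n => (1 : ℝ)) ∈
      (fun g : (ℕ → ℝ) → ℝ => g ∘ (fun x : Inp n => mem d c x.1.1)) '' BaseN (d + n) :=
  ⟨fun _ => 1, one_mem_BaseN _, rfl⟩

lemma base_input (d : ℕ) (c : ℕ → ℝ) (n : ℕ) (j : ℕ) (hj : j < n) :
    (fun x : Inp n => x.1.1.getD j 0) ∈
      (fun g : (ℕ → ℝ) → ℝ => g ∘ (fun x : Inp n => mem d c x.1.1)) '' BaseN (d + n) := by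
  refine ⟨fun m => m (d + j), coord_mem_BaseN (by omega), ?_⟩
  funext x
  simp [mem]

/-- Unrolling a machine. -/
theorem unroll (M : Machine) (p : Polynomial ℕ) : ∃ (d : ℕ) (c : ℕ → ℝ) (P : Polynomial ℕ),
    ∀ n, ∃ F : ℤ → (ℕ → ℝ) → ℝ, Cx (BaseN (d + n)) (P.eval n) (range F) ∧
      ∀ x : RInf, x.size = n → ∀ i, F i (mem d c x.1) = (M.run x (p.eval n)).2 i := by
  classical
  have := M.finite
  have := Fintype.ofFinite M.Q
  obtain ⟨K, hK⟩ := exists_nodeBd M
  obtain ⟨d, c, hdc⟩ := exists_base M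
  refine ⟨d, c, unrollPoly K (Fintype.card M.Q) p, fun n => ?_⟩
  have h1 := (cx_dat (n := n) K hK (base_zero d c n) (base_one d c n) (hdc n) (base_input d c n)
    (p.eval n)).le (unrollCost_le_poly n K _ p)
  obtain ⟨H', h2, h3⟩ := h1.lift
  have h4 : ∀ i, ∃ g ∈ H', g ∘ (fun x : Inp n => mem d c x.1.1) = rg M n (p.eval n) i := by
    intro i
    have : rg M n (p.eval n) i ∈ Dat M n (p.eval n) := rg_mem _ _
    rw [← h3] at this
    exact this
  choose F hF1 hF2 using h4
  refine ⟨F, h2.mono_right (range_subset_iff.2 hF1), fun x hx i => ?_⟩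
  exact congrFun (hF2 i) ⟨x, hx⟩

end Unroll

/-- `A ∩ ℝⁿ` is decided with at most `s` gates using the first `d` constants in `c`. -/
def Dec (d : ℕ) (c : ℕ → ℝ) (n : ℕ) (A : Set RInf) (s : ℕ) : Prop :=
  ∃ f : (ℕ → ℝ) → ℝ, Cx (BaseN (d + n)) s {f} ∧ ∀ x : RInf, x.size = n →
    (x ∈ A → f (mem d c x.1) = 1) ∧ (x ∉ A → f (mem d c x.1) = 0)

theorem InP.dec {A : Set RInf} (h : InP A) :
    ∃ (d : ℕ) (c : ℕ → ℝ) (P : Polynomial ℕ), ∀ n, Dec d c n A (P.eval n) := by
  obtain ⟨M, p, hM⟩ := h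
  obtain ⟨d, c, P, h1⟩ := unroll M p
  refine ⟨d, c, P, fun n => ?_⟩
  obtain ⟨F, hF1, hF2⟩ := h1 n
  refine ⟨F 0, hF1.mono_right (singleton_subset_iff.2 (mem_range_self 0)), ?_⟩
  rintro x rfl
  rw [hF2 x rfl]
  exact ⟨(hM x).2.1, (hM x).2.2⟩

theorem PolyTime.cx {ρ : RInf → RInf} (h : PolyTime ρ) :
    ∃ (d : ℕ) (c : ℕ → ℝ) (P : Polynomial ℕ), ∀ n, ∃ F : ℤ → (ℕ → ℝ) → ℝ,
      Cx (BaseN (d + n)) (P.eval n) (range F) ∧
      ∀ x : RInf, x.size = n → (ρ x).size ≤ P.eval n ∧
        ∀ i : ℤ, 0 ≤ i → i ≤ (ρ x).size → F i (mem d c x.1) = load (ρ x) i := by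
  obtain ⟨M, p, hM⟩ := h
  obtain ⟨d, c, P, h1⟩ := unroll M p
  refine ⟨d, c, P + p, fun n => ?_⟩
  obtain ⟨F, hF1, hF2⟩ := h1 n
  refine ⟨F, hF1.le (by simp), ?_⟩
  rintro x rfl
  refine ⟨(hM x).2.1.trans (by simp), fun i hi1 hi2 => ?_⟩
  rw [hF2 x rfl]
  exact (hM x).2.2 i hi1 hi2

end Pool.Agent.W_MP_25fb88_lc
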